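import Pool.Agent.H671R2.OOF.Defs

/-!
# Working versions of the definitions
-/

set_option autoImplicit false

namespace Pool.Agent.H671R2.OOF

/-- A good colouring: the colours `0` and `1` are independent, the colour `2` has no nonempty
finite set of vertices with all degrees at least `2`. -/
def Good {V : Type} (G : SimpleGraph V) (c : V → Fin 3) : Prop :=
  (∀ u v, G.Adj u v → c u = c v → c u = 2) ∧
  ∀ S : Finset V, S.Nonempty → (∀ v ∈ S, c v = 2) →
    ∃ v ∈ S, ∀ u ∈ S, ∀ w ∈ S, G.Adj v u → G.Adj v w → u = w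

/-- A triangulated closed oriented surface, given by its directed edges. -/
structure TriSys (V D : Type) where
  /-- the tail of a directed edge -/
  tail : D → V
  /-- the next directed edge of the triangle -/
  phi : D → D
  /-- the reversed directed edge -/
  rev : D → D
  phi3 : ∀ d, phi (phi (phi d)) = d
  rev2 : ∀ d, rev (rev d) = d
  tail_rev : ∀ d, tail (rev d) = tail (phi d)
  inj : ∀ d d', tail d = tail d' → tail (phi d) = tail (phi d') → d = d'
  ne : ∀ d, tail (phi d) ≠ tail d
  surj : ∀ v, ∃ d, tail d = v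
  conn : ∀ d d', Relation.EqvGen (fun a b => b = phi a ∨ b = rev a) d d'

namespace TriSys

variable {V D : Type} (T : TriSys V D)

theorem tail_phi_rev (d : D) : T.tail (T.phi (T.rev d)) = T.tail d := by
  rw [← T.tail_rev, T.rev2]

/-- the graph of a triangulation -/
def graph : SimpleGraph V where
  Adj u v := ∃ d, T.tail d = u ∧ T.tail (T.phi d) = v
  symm := ⟨fun u v ⟨d, h1, h2⟩ => ⟨T.rev d, by rw [T.tail_rev, h2], by rw [T.tail_phi_rev, h1]⟩⟩
  loopless := ⟨fun u ⟨d, h1, h2⟩ => T.ne d (by rw [h1, h2])⟩

end TriSys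

end Pool.Agent.H671R2.OOF
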