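import Pool.Agent.H671R2.OOF.Local
import Pool.Agent.H671R2.OOF.Basic

/-!
# Numbering of the vertices of the grid
-/

set_option autoImplicit false

namespace Pool.Agent.H671R2.OOF

/-- the number of the vertex `(i, j, k)`: row `i`, column `j`, position `k` in the cell -/
def cd (n m i j k : ℕ) : ℕ := if i < n then (i * m + j) * 220 + k else n * m * 220 + 4 * j + k

/-- valid positions -/
def Valid (n m i j k : ℕ) : Prop := j < m ∧ ((i < n ∧ k < 220) ∨ (i = n ∧ k < 4))

theorem cell_lt {n m i j : ℕ} (hi : i < n) (hj : j < m) : i * m + j < n * m := by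
  have : (i + 1) * m ≤ n * m := Nat.mul_le_mul_right m hi
  rw [Nat.succ_mul] at this
  omega

theorem cell_inj {m i j i' j' : ℕ} (hj : j < m) (hj' : j' < m) (h : i * m + j = i' * m + j') :
    i = i' ∧ j = j' := by
  have hm : 0 < m := by omega
  have h1 : (i * m + j) / m = i := by
    rw [Nat.add_comm, Nat.add_mul_div_right _ _ hm, Nat.div_eq_of_lt hj, Nat.zero_add]
  have h2 : (i' * m + j') / m = i' := by
    rw [Nat.add_comm, Nat.add_mul_div_right _ _ hm, Nat.div_eq_of_lt hj', Nat.zero_add]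
  have h3 : i = i' := by rw [← h1, ← h2, h]
  subst h3
  exact ⟨rfl, by omega⟩

theorem cd_lt {n m i j k : ℕ} (h : Valid n m i j k) : cd n m i j k < n * m * 220 + 4 * m := by
  obtain ⟨hj, h | h⟩ := h
  · unfold cd
    rw [if_pos h.1]
    have := cell_lt h.1 hj
    omega
  · unfold cd
    rw [if_neg (by omega)]
    omega

theorem cd_inj {n m i j k i' j' k' : ℕ} (h : Valid n m i j k) (h' : Valid n m i' j' k')
    (he : cd n m i j k = cd n m i' j' k') : i = i' ∧ j = j' ∧ k = k' := by
  obtain ⟨hj, h | h⟩ := h <;> obtain ⟨hj', h' | h'⟩ := h'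
  · unfold cd at he
    rw [if_pos h.1, if_pos h'.1] at he
    obtain ⟨h1, h2⟩ := cell_inj hj hj' (show i * m + j = i' * m + j' by omega)
    exact ⟨h1, h2, by omega⟩
  · unfold cd at he
    rw [if_pos h.1, if_neg (by omega)] at he
    have := cell_lt h.1 hj
    omega
  · unfold cd at he
    rw [if_neg (by omega), if_pos h'.1] at he
    have := cell_lt h'.1 hj'
    omega
  · unfold cd at he
    rw [if_neg (by omega), if_neg (by omega)] at he
    omega

theorem cd_surj {n m x : ℕ} (hx : x < n * m * 220 + 4 * m) :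
    ∃ i j k, Valid n m i j k ∧ cd n m i j k = x := by
  by_cases h : x < n * m * 220
  · have hm : 0 < m := by
      rcases Nat.eq_zero_or_pos m with rfl | h1
      · simp at h
      · exact h1
    have h1 : x / 220 < n * m := by omega
    have h2 : x / 220 / m < n := by
      rw [Nat.div_lt_iff_lt_mul hm]
      exact h1
    refine ⟨x / 220 / m, x / 220 % m, x % 220, ⟨Nat.mod_lt _ hm, Or.inl ⟨h2, Nat.mod_lt _ (by
      norm_num)⟩⟩, ?_⟩
    unfold cd
    rw [if_pos h2, Nat.div_add_mod' (x / 220) m]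
    omega
  · refine ⟨n, (x - n * m * 220) / 4, (x - n * m * 220) % 4, ⟨by omega, Or.inr ⟨rfl, by omega⟩⟩, ?_⟩
    unfold cd
    rw [if_neg (lt_irrefl _)]
    omega

/-- the vertex `a` of the tile `(i, j)` -/
def vt (n m i j a : ℕ) : ℕ := cd n m (i + di a) ((j + dj a) % m) (ky a)

theorem vt_valid {n m i j a : ℕ} (hi : i < n) (hj : j < m) (ha : a < 229) :
    Valid n m (i + di a) ((j + dj a) % m) (ky a) := by
  refine ⟨Nat.mod_lt _ (by omega), ?_⟩
  have h1 := ky_lt ha
  rcases Nat.lt_or_ge (i + di a) n with h | h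
  · exact Or.inl ⟨h, h1⟩
  · have h2 := di_le a
    have h3 : di a = 1 := by omega
    exact Or.inr ⟨by omega, ky_di h3⟩

theorem vt_lt {n m i j a : ℕ} (hi : i < n) (hj : j < m) (ha : a < 229) :
    vt n m i j a < n * m * 220 + 4 * m := cd_lt (vt_valid hi hj ha)

theorem mod_inj {m j j' x : ℕ} (hj : j < m) (hj' : j' < m) (hx : x ≤ 1)
    (h : (j + x) % m = (j' + x) % m) : j = j' := by
  rcases Nat.lt_or_ge (j + x) m with h1 | h1
  · rw [Nat.mod_eq_of_lt h1] at h
    rcases Nat.lt_or_ge (j' + x) m with h2 | h2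
    · rw [Nat.mod_eq_of_lt h2] at h
      omega
    · rw [Nat.mod_eq_sub_mod h2, Nat.mod_eq_of_lt (by omega)] at h
      omega
  · rw [Nat.mod_eq_sub_mod h1, Nat.mod_eq_of_lt (show j + x - m < m by omega)] at h
    rcases Nat.lt_or_ge (j' + x) m with h2 | h2
    · rw [Nat.mod_eq_of_lt h2] at h
      omega
    · rw [Nat.mod_eq_sub_mod h2, Nat.mod_eq_of_lt (show j' + x - m < m by omega)] at h
      omega

theorem mod_inj' {m j x y : ℕ} (hj : j < m) (hm : 2 ≤ m) (hx : x ≤ 1) (hy : y ≤ 1)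
    (h : (j + x) % m = (j + y) % m) : x = y := by
  rcases Nat.lt_or_ge (j + x) m with h1 | h1
  · rw [Nat.mod_eq_of_lt h1] at h
    rcases Nat.lt_or_ge (j + y) m with h2 | h2
    · rw [Nat.mod_eq_of_lt h2] at h
      omega
    · rw [Nat.mod_eq_sub_mod h2, Nat.mod_eq_of_lt (by omega)] at h
      omega
  · rw [Nat.mod_eq_sub_mod h1, Nat.mod_eq_of_lt (show j + x - m < m by omega)] at h
    rcases Nat.lt_or_ge (j + y) m with h2 | h2
    · rw [Nat.mod_eq_of_lt h2] at h
      omega
    · rw [Nat.mod_eq_sub_mod h2, Nat.mod_eq_of_lt (show j + y - m < m by omega)] at h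
      omega

theorem vt_label {n m i j a i' j' a' : ℕ} (hi : i < n) (hj : j < m) (ha : a < 229)
    (hi' : i' < n) (hj' : j' < m) (ha' : a' < 229) (h : vt n m i j a = vt n m i' j' a') :
    i + di a = i' + di a' ∧ (j + dj a) % m = (j' + dj a') % m ∧ ky a = ky a' :=
  cd_inj (vt_valid hi hj ha) (vt_valid hi' hj' ha') h

/-- the vertices of a tile are distinct -/
theorem vt_inj {n m i j a b : ℕ} (hm : 2 ≤ m) (hi : i < n) (hj : j < m) (ha : a < 229)
    (hb : b < 229) (h : vt n m i j a = vt n m i j b) : a = b := by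
  obtain ⟨h1, h2, h3⟩ := vt_label hi hj ha hi hj hb h
  exact loc_inj (by omega) (mod_inj' hj hm (dj_le _) (dj_le _) h2) h3

/-- an interior vertex determines its tile -/
theorem vt_big {n m i j a i' j' a' : ℕ} (hi : i < n) (hj : j < m) (ha : a < 229)
    (hi' : i' < n) (hj' : j' < m) (ha' : a' < 229) (h : vt n m i j a = vt n m i' j' a')
    (hb : 16 ≤ a) : i = i' ∧ j = j' ∧ a = a' := by
  obtain ⟨h1, h2, h3⟩ := vt_label hi hj ha hi' hj' ha' h
  have h4 : 16 ≤ a' := by
    by_contra h5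
    have h6 := ky_small (show a' < 16 by omega)
    rw [ky_big hb] at h3
    omega
  rw [ky_big hb, ky_big h4] at h3
  rw [di_big hb, di_big h4] at h1
  rw [dj_big hb, dj_big h4] at h2
  refine ⟨by omega, ?_, by omega⟩
  rwa [Nat.add_zero, Nat.add_zero, Nat.mod_eq_of_lt hj, Nat.mod_eq_of_lt hj'] at h2

/-- a boundary edge determines its tile -/
theorem vt_bdry {n m i j a i' j' a' : ℕ} (hi : i < n) (hj : j < m) (ha : a < 16)
    (hi' : i' < n) (hj' : j' < m) (ha' : a' < 16) (h : vt n m i j a = vt n m i' j' a')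
    (h' : vt n m i j ((a + 1) % 16) = vt n m i' j' ((a' + 1) % 16)) :
    i = i' ∧ j = j' ∧ a = a' := by
  obtain ⟨h1, h2, h3⟩ := vt_label hi hj (by omega) hi' hj' (by omega) h
  obtain ⟨_, _, h4⟩ := vt_label hi hj (by omega) hi' hj' (by omega) h'
  have h5 := ky_pair ha ha' h3 h4
  subst h5
  exact ⟨by omega, mod_inj hj hj' (dj_le _) h2, rfl⟩

end Pool.Agent.H671R2.OOF
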