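import Pool.Agent.H671R2.OOF.Grid3

/-!
# Completeness: the good colouring of the grid
-/

set_option autoImplicit false

namespace Pool.Agent.H671R2.OOF

/-! ### Kernel checks -/

/-- allowed states -/
def okS (t v h : ℕ) : Bool :=
  Nat.beq t 0 || (Nat.beq t 1 && Nat.beq v h) || (Nat.beq t 2 && !(Nat.beq v h))

/-- second colour of a wire -/
def pc (x : ℕ) : ℕ := bif Nat.beq x 1 then 2 else 1

/-- boundary colours -/
def chkC0 (t v h : ℕ) : Bool :=
  Nat.beq (cl t v h 0) 0 && Nat.beq (cl t v h 4) 0 && Nat.beq (cl t v h 8) 0 &&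
  Nat.beq (cl t v h 12) 0 && Nat.beq (cl t v h 2) v && Nat.beq (cl t v h 10) v &&
  Nat.beq (cl t v h 6) h && Nat.beq (cl t v h 14) h &&
  Nat.beq (cl t v h 1) (pc v) && Nat.beq (cl t v h 3) (pc v) && Nat.beq (cl t v h 9) (pc v) &&
  Nat.beq (cl t v h 11) (pc v) &&
  Nat.beq (cl t v h 5) (pc h) && Nat.beq (cl t v h 7) (pc h) && Nat.beq (cl t v h 13) (pc h) &&
  Nat.beq (cl t v h 15) (pc h)

/-- parents and ranks of the boundary vertices -/
def chkC2 (t v h a : ℕ) : Bool :=
  Nat.blt (cl t v h a) 3 &&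
    (Nat.ble 16 a || (Nat.beq (pr t v h a) 255 && Nat.beq (rk t v h a) 0))

/-- the check at a directed edge -/
def chkC1 (t v h u w : ℕ) : Bool :=
  !(Nat.beq (cl t v h u) (cl t v h w)) ||
    (Nat.beq (cl t v h u) 2 &&
      ((Nat.beq (pr t v h w) u && Nat.blt (rk t v h u) (rk t v h w)) ||
        (Nat.beq (pr t v h u) w && Nat.blt (rk t v h w) (rk t v h u))))

theorem chkC0_all : allb 3 (fun t => allb 3 fun v => allb 3 fun h =>
    !(okS t v h) || chkC0 t v h) = true := by decide +kernel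

theorem chkC2_all : allb 3 (fun t => allb 3 fun v => allb 3 fun h =>
    !(okS t v h) || allb 229 (chkC2 t v h)) = true := by decide +kernel

theorem chkC1_all : allb 3 (fun t => allb 3 fun v => allb 3 fun h =>
    !(okS t v h) || allb 1320 (fun e => chkC1 t v h (tl t e) (hd t e))) = true := by decide +kernel

theorem okS_iff {t v h : ℕ} (ht : t < 3) (h1 : t = 1 → h = v) (h2 : t = 2 → h ≠ v) :
    okS t v h = true := by
  unfold okS
  interval_cases t
  · rfl
  · rw [h1 rfl]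
    simp
  · have h3 : Nat.beq v h = false := by
      rw [Bool.eq_false_iff, ne_eq, Nat.beq_eq]
      exact fun he => h2 rfl he.symm
    rw [h3]
    rfl

theorem c0_of {t v h : ℕ} (ht : t < 3) (hv : v < 3) (hh : h < 3) (ok : okS t v h = true) :
    chkC0 t v h = true := by
  have := (allb_iff _ _).1 ((allb_iff _ _).1 ((allb_iff _ _).1 chkC0_all t ht) v hv) h hh
  rw [ok] at this
  simpa using this

theorem c2_of {t v h a : ℕ} (ht : t < 3) (hv : v < 3) (hh : h < 3) (ok : okS t v h = true)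
    (ha : a < 229) : chkC2 t v h a = true := by
  have := (allb_iff _ _).1 ((allb_iff _ _).1 ((allb_iff _ _).1 chkC2_all t ht) v hv) h hh
  rw [ok] at this
  simp only [Bool.not_true, Bool.false_or] at this
  exact (allb_iff _ _).1 this a ha

theorem c1_of {t v h e : ℕ} (ht : t < 3) (hv : v < 3) (hh : h < 3) (ok : okS t v h = true)
    (he : e < 1320) : chkC1 t v h (tl t e) (hd t e) = true := by
  have := (allb_iff _ _).1 ((allb_iff _ _).1 ((allb_iff _ _).1 chkC1_all t ht) v hv) h hh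
  rw [ok] at this
  simp only [Bool.not_true, Bool.false_or] at this
  exact (allb_iff _ _).1 this e he

theorem cl_lt {t v h a : ℕ} (ht : t < 3) (hv : v < 3) (hh : h < 3) (ok : okS t v h = true)
    (ha : a < 229) : cl t v h a < 3 := by
  have := c2_of ht hv hh ok ha
  simp only [chkC2, Bool.and_eq_true, blt_iff] at this
  exact this.1

theorem pr_small {t v h a : ℕ} (ht : t < 3) (hv : v < 3) (hh : h < 3) (ok : okS t v h = true)
    (ha : a < 16) : pr t v h a = 255 := by
  have := c2_of ht hv hh ok (show a < 229 by omega)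
  simp only [chkC2, Bool.and_eq_true, Bool.or_eq_true, blt_iff, Nat.beq_eq, Nat.ble_eq] at this
  rcases this.2 with h1 | h1
  · omega
  · exact h1.1

theorem rk_small {t v h a : ℕ} (ht : t < 3) (hv : v < 3) (hh : h < 3) (ok : okS t v h = true)
    (ha : a < 16) : rk t v h a = 0 := by
  have := c2_of ht hv hh ok (show a < 229 by omega)
  simp only [chkC2, Bool.and_eq_true, Bool.or_eq_true, blt_iff, Nat.beq_eq, Nat.ble_eq] at this
  rcases this.2 with h1 | h1
  · omega
  · exact h1.2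

theorem cl_edge {t v h e : ℕ} (ht : t < 3) (hv : v < 3) (hh : h < 3) (ok : okS t v h = true)
    (he : e < 1320) (heq : cl t v h (tl t e) = cl t v h (hd t e)) :
    cl t v h (tl t e) = 2 ∧
      ((pr t v h (hd t e) = tl t e ∧ rk t v h (tl t e) < rk t v h (hd t e)) ∨
        (pr t v h (tl t e) = hd t e ∧ rk t v h (hd t e) < rk t v h (tl t e))) := by
  have := c1_of ht hv hh ok he
  simp only [chkC1, Bool.and_eq_true, Bool.or_eq_true, blt_iff, Nat.beq_eq, Bool.not_eq_true',
    Bool.eq_false_iff, ne_eq] at this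
  rcases this with h1 | h1
  · exact absurd heq h1
  · exact h1

/-! ### Coordinates -/

/-- the coordinates of a vertex number -/
noncomputable def co (n m x : ℕ) : ℕ × ℕ × ℕ :=
  open Classical in
  if h : ∃ t : ℕ × ℕ × ℕ, Valid n m t.1 t.2.1 t.2.2 ∧ cd n m t.1 t.2.1 t.2.2 = x then h.choose
  else (0, 0, 0)

theorem co_cd {n m i j k : ℕ} (h : Valid n m i j k) : co n m (cd n m i j k) = (i, j, k) := by
  unfold co
  have hex : ∃ t : ℕ × ℕ × ℕ, Valid n m t.1 t.2.1 t.2.2 ∧
      cd n m t.1 t.2.1 t.2.2 = cd n m i j k := ⟨(i, j, k), h, rfl⟩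
  rw [dif_pos hex]
  have h1 := hex.choose_spec
  obtain ⟨e1, e2, e3⟩ := cd_inj h1.1 h h1.2
  exact Prod.ext e1 (Prod.ext e2 e3)

section

variable (n m : ℕ) (ty : ℕ → ℕ → ℕ) (h v : ℕ → ℕ)

/-- colour by coordinates -/
def colf (i j k : ℕ) : ℕ :=
  if 7 ≤ k then cl (ty i j) (v j) (h i) (k + 9)
  else if k = 0 then 0 else if k = 2 then v j else if k = 1 ∨ k = 3 then pc (v j)
  else if k = 5 then h i else pc (h i)

/-- colour -/
noncomputable def gc (x : ℕ) : ℕ :=
  if x < n * m * 220 + 4 * m then colf ty h v (co n m x).1 (co n m x).2.1 (co n m x).2.2 else 2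

/-- rank -/
noncomputable def gr (x : ℕ) : ℕ :=
  if x < n * m * 220 + 4 * m then
    1 + (if 7 ≤ (co n m x).2.2 then
      rk (ty (co n m x).1 (co n m x).2.1) (v (co n m x).2.1) (h (co n m x).1) ((co n m x).2.2 + 9)
      else 0)
  else 0

/-- parent -/
noncomputable def gp (x : ℕ) : ℕ :=
  if 7 ≤ (co n m x).2.2 then
    vt n m (co n m x).1 (co n m x).2.1
      (pr (ty (co n m x).1 (co n m x).2.1) (v (co n m x).2.1) (h (co n m x).1)
        ((co n m x).2.2 + 9))
  else if (co n m x).1 = 0 then n * m * 220 + 4 * m else n * m * 220 + 4 * m + 1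

variable {n m ty h v}

theorem co_vt {i j a : ℕ} (hi : i < n) (hj : j < m) (ha : a < 229) :
    co n m (vt n m i j a) = (i + di a, (j + dj a) % m, ky a) := co_cd (vt_valid hi hj ha)

theorem ky_ge {a : ℕ} (ha : 16 ≤ a) : 7 ≤ ky a := by
  rw [ky_big ha]
  omega

theorem gc_vt {i j a : ℕ} (hi : i < n) (hj : j < m) (ha : a < 229) (ht : ty i j < 3)
    (hv : v j < 3) (hh : h i < 3) (ok : okS (ty i j) (v j) (h i) = true) :
    gc n m ty h v (vt n m i j a) = cl (ty i j) (v j) (h i) a := by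
  unfold gc
  rw [if_pos (vt_lt hi hj ha), co_vt hi hj ha]
  simp only
  by_cases hb : 16 ≤ a
  · unfold colf
    rw [if_pos (ky_ge hb), di_big hb, dj_big hb, Nat.add_zero, Nat.add_zero, Nat.mod_eq_of_lt hj,
      ky_big hb, show a - 9 + 9 = a by omega]
  · have hk := ky_small (show a < 16 by omega)
    unfold colf
    rw [if_neg (by omega)]
    have h0 := c0_of ht hv hh ok
    simp only [chkC0, Bool.and_eq_true, Nat.beq_eq] at h0
    obtain ⟨⟨⟨⟨⟨⟨⟨⟨⟨⟨⟨⟨⟨⟨⟨a0, a4⟩, a8⟩, a12⟩, a2⟩, a10⟩, a6⟩, a14⟩, a1⟩, a3⟩, a9⟩, a11⟩, a5⟩, a7⟩,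
      a13⟩, a15⟩ := h0
    have hjm : (j + 0) % m = j := Nat.mod_eq_of_lt hj
    have hlt : a < 16 := by omega
    interval_cases a
    · simpa [ky] using a0.symm
    · simpa [ky, di, dj, hjm, Nat.mod_eq_of_lt hj] using a1.symm
    · simpa [ky, di, dj, hjm, Nat.mod_eq_of_lt hj] using a2.symm
    · simpa [ky, di, dj, hjm, Nat.mod_eq_of_lt hj] using a3.symm
    · simpa [ky, di, dj, hjm, Nat.mod_eq_of_lt hj] using a4.symm
    · simpa [ky, di, dj, hjm, Nat.mod_eq_of_lt hj] using a5.symm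
    · simpa [ky, di, dj, hjm, Nat.mod_eq_of_lt hj] using a6.symm
    · simpa [ky, di, dj, hjm, Nat.mod_eq_of_lt hj] using a7.symm
    · simpa [ky, di, dj, hjm, Nat.mod_eq_of_lt hj] using a8.symm
    · simpa [ky, di, dj, hjm, Nat.mod_eq_of_lt hj] using a9.symm
    · simpa [ky, di, dj, hjm, Nat.mod_eq_of_lt hj] using a10.symm
    · simpa [ky, di, dj, hjm, Nat.mod_eq_of_lt hj] using a11.symm
    · simpa [ky, di, dj, hjm, Nat.mod_eq_of_lt hj] using a12.symm
    · simpa [ky, di, dj, hjm, Nat.mod_eq_of_lt hj] using a13.symm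
    · simpa [ky, di, dj, hjm, Nat.mod_eq_of_lt hj] using a14.symm
    · simpa [ky, di, dj, hjm, Nat.mod_eq_of_lt hj] using a15.symm

theorem gr_vt {i j a : ℕ} (hi : i < n) (hj : j < m) (ha : a < 229) (ht : ty i j < 3)
    (hv : v j < 3) (hh : h i < 3) (ok : okS (ty i j) (v j) (h i) = true) :
    gr n m ty h v (vt n m i j a) = 1 + rk (ty i j) (v j) (h i) a := by
  unfold gr
  rw [if_pos (vt_lt hi hj ha), co_vt hi hj ha]
  simp only
  by_cases hb : 16 ≤ a
  · rw [if_pos (ky_ge hb), di_big hb, dj_big hb, Nat.add_zero, Nat.add_zero, Nat.mod_eq_of_lt hj,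
      ky_big hb, show a - 9 + 9 = a by omega]
  · have hk := ky_small (show a < 16 by omega)
    rw [if_neg (by omega), rk_small ht hv hh ok (by omega)]

theorem gp_big {i j a : ℕ} (hi : i < n) (hj : j < m) (ha : a < 229) (hb : 16 ≤ a) :
    gp n m ty h v (vt n m i j a) = vt n m i j (pr (ty i j) (v j) (h i) a) := by
  unfold gp
  rw [co_vt hi hj ha]
  simp only
  rw [if_pos (ky_ge hb), di_big hb, dj_big hb, Nat.add_zero, Nat.add_zero, Nat.mod_eq_of_lt hj,
      ky_big hb, show a - 9 + 9 = a by omega]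

theorem gp_top {j s : ℕ} (hn : 0 < n) (hj : j < m) (hs : s ≤ 4) :
    gp n m ty h v (vt n m 0 j s) = n * m * 220 + 4 * m := by
  unfold gp
  rw [co_vt hn hj (by omega)]
  have hk := ky_small (show s < 16 by omega)
  have hd : di s = 0 := by
    unfold di
    rw [if_neg (by omega)]
  simp only
  rw [if_neg (by omega), hd, if_pos rfl]

theorem gp_bot {j s : ℕ} (hn : 0 < n) (hj : j < m) (hs : s ≤ 4) :
    gp n m ty h v (vt n m (n - 1) j (12 - s)) = n * m * 220 + 4 * m + 1 := by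
  unfold gp
  rw [co_vt (show n - 1 < n by omega) hj (by omega)]
  have hk := ky_small (show 12 - s < 16 by omega)
  have hd : di (12 - s) = 1 := by
    unfold di
    rw [if_pos (by omega)]
  simp only
  rw [if_neg (by omega), hd, if_neg (by omega)]

theorem gc_pole (b : Bool) :
    gc n m ty h v (n * m * 220 + 4 * m + (if b then 1 else 0)) = 2 := by
  unfold gc
  rw [if_neg (by omega)]

theorem gr_pole (b : Bool) :
    gr n m ty h v (n * m * 220 + 4 * m + (if b then 1 else 0)) = 0 := by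
  unfold gr
  rw [if_neg (by omega)]

/-- the statement for an edge -/
def EdgeOk (n m : ℕ) (ty : ℕ → ℕ → ℕ) (h v : ℕ → ℕ) (x y : ℕ) : Prop :=
  gc n m ty h v x = gc n m ty h v y → gc n m ty h v x = 2 ∧
    ((gp n m ty h v y = x ∧ gr n m ty h v x < gr n m ty h v y) ∨
      (gp n m ty h v x = y ∧ gr n m ty h v y < gr n m ty h v x))

theorem EdgeOk.symm {x y : ℕ} (H : EdgeOk n m ty h v x y) : EdgeOk n m ty h v y x := by
  intro he
  obtain ⟨h1, h2⟩ := H he.symm
  exact ⟨he.trans h1, h2.symm⟩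

theorem rim_ne {t v h : ℕ} (hv : v < 3) (h0 : chkC0 t v h = true) (s : ℕ) (hs : s < 4) :
    cl t v h (s + 1) ≠ cl t v h s ∧ cl t v h (12 - s) ≠ cl t v h (11 - s) := by
  simp only [chkC0, Bool.and_eq_true, Nat.beq_eq] at h0
  obtain ⟨⟨⟨⟨⟨⟨⟨⟨⟨⟨⟨⟨⟨⟨⟨a0, a4⟩, a8⟩, a12⟩, a2⟩, a10⟩, a6⟩, a14⟩, a1⟩, a3⟩, a9⟩, a11⟩, a5⟩, a7⟩,
    a13⟩, a15⟩ := h0
  have hp : pc v ≠ 0 ∧ pc v ≠ v := by
    interval_cases v <;> decide
  interval_cases s
  · simp only [zero_add, Nat.sub_zero]
    rw [a1, a0, a12, a11]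
    exact ⟨hp.1, hp.1.symm⟩
  · norm_num
    rw [a2, a1, a11, a10]
    exact ⟨hp.2.symm, hp.2⟩
  · norm_num
    rw [a3, a2, a10, a9]
    exact ⟨hp.2, hp.2.symm⟩
  · norm_num
    rw [a4, a3, a9, a8]
    exact ⟨hp.1.symm, hp.1⟩

theorem edge_ok (hn : 0 < n) (hty : ∀ i j, ty i j < 3) (hh : ∀ i, h i < 3) (hv : ∀ j, v j < 3)
    (ok : ∀ i < n, ∀ j < m, okS (ty i j) (v j) (h i) = true) (d : Da n m) :
    EdgeOk n m ty h v (tn n m ty d) (tn n m ty (pn n m ty hty d)) := by
  rcases d with ⟨i, j, e⟩ | ⟨b, j, s, t⟩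
  · rw [tn_tile, tn_tile']
    intro he
    have ht := hty i j
    have okk := ok i i.2 j j.2
    have l1 := tl_lt ht e.2
    have l2 := hd_lt ht e.2
    rw [gc_vt i.2 j.2 l1 ht (hv j) (hh i) okk, gc_vt i.2 j.2 l2 ht (hv j) (hh i) okk] at he
    rw [gc_vt i.2 j.2 l1 ht (hv j) (hh i) okk, gr_vt i.2 j.2 l1 ht (hv j) (hh i) okk,
      gr_vt i.2 j.2 l2 ht (hv j) (hh i) okk]
    obtain ⟨h1, h2⟩ := cl_edge ht (hv j) (hh i) okk e.2 he
    refine ⟨h1, ?_⟩
    rcases h2 with ⟨h2, h3⟩ | ⟨h2, h3⟩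
    · left
      have hb : 16 ≤ hd (ty i j) e := by
        by_contra hc
        rw [pr_small ht (hv j) (hh i) okk (by omega)] at h2
        omega
      rw [gp_big i.2 j.2 l2 hb, h2]
      exact ⟨rfl, by omega⟩
    · right
      have hb : 16 ≤ tl (ty i j) e := by
        by_contra hc
        rw [pr_small ht (hv j) (hh i) okk (by omega)] at h2
        omega
      rw [gp_big i.2 j.2 l1 hb, h2]
      exact ⟨rfl, by omega⟩
  · have hs := s.2
    refine case3 (P := fun t => EdgeOk n m ty h v (tn n m ty (Sum.inr (b, j, s, t)))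
      (tn n m ty (pn n m ty hty (Sum.inr (b, j, s, t))))) ?_ ?_ ?_ t
    · rw [pn0]
      cases b
      · rw [tn_top, tn_top']
        intro he
        have okk := ok 0 hn j j.2
        have h0 := c0_of (hty 0 j) (hv j) (hh 0) okk
        rw [gc_vt hn j.2 (by omega) (hty 0 j) (hv j) (hh 0) okk,
          gc_vt hn j.2 (by omega) (hty 0 j) (hv j) (hh 0) okk] at he
        exact absurd he (rim_ne (hv j) h0 s hs).1
      · rw [tn_bot, tn_bot']
        intro he
        have okk := ok (n - 1) (by omega) j j.2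
        have h0 := c0_of (hty (n - 1) j) (hv j) (hh (n - 1)) okk
        rw [gc_vt (by omega) j.2 (by omega) (hty (n - 1) j) (hv j) (hh (n - 1)) okk,
          gc_vt (by omega) j.2 (by omega) (hty (n - 1) j) (hv j) (hh (n - 1)) okk] at he
        exact absurd he (rim_ne (hv j) h0 s hs).2
    · rw [pn1, tn_pole]
      intro he
      rw [gc_pole] at he
      refine ⟨he, Or.inr ?_⟩
      rw [gr_pole]
      cases b
      · rw [tn_top'] at he ⊢
        have okk := ok 0 hn j j.2
        rw [gp_top hn j.2 (by omega), gr_vt hn j.2 (by omega) (hty 0 j) (hv j) (hh 0) okk]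
        exact ⟨rfl, by omega⟩
      · rw [tn_bot'] at he ⊢
        have okk := ok (n - 1) (by omega) j j.2
        rw [show 11 - (s : ℕ) = 12 - (s + 1) by omega, gp_bot hn j.2 (by omega),
          gr_vt (by omega) j.2 (by omega) (hty (n - 1) j) (hv j) (hh (n - 1)) okk]
        exact ⟨rfl, by omega⟩
    · rw [pn2, tn_pole]
      intro he
      rw [gc_pole] at he
      refine ⟨gc_pole b, Or.inl ?_⟩
      rw [gr_pole]
      cases b
      · rw [tn_top] at he ⊢
        have okk := ok 0 hn j j.2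
        rw [gp_top hn j.2 (by omega), gr_vt hn j.2 (by omega) (hty 0 j) (hv j) (hh 0) okk]
        exact ⟨rfl, by omega⟩
      · rw [tn_bot] at he ⊢
        have okk := ok (n - 1) (by omega) j j.2
        rw [gp_bot hn j.2 (by omega),
          gr_vt (by omega) j.2 (by omega) (hty (n - 1) j) (hv j) (hh (n - 1)) okk]
        exact ⟨rfl, by omega⟩

theorem gc_lt (hn : 0 < n) (hty : ∀ i j, ty i j < 3) (hh : ∀ i, h i < 3) (hv : ∀ j, v j < 3)
    (ok : ∀ i < n, ∀ j < m, okS (ty i j) (v j) (h i) = true) (d : Da n m) :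
    gc n m ty h v (tn n m ty d) < 3 := by
  rcases d with ⟨i, j, e⟩ | ⟨b, j, s, t⟩
  · rw [tn_tile]
    have ht := hty i j
    have okk := ok i i.2 j j.2
    have l1 := tl_lt ht e.2
    rw [gc_vt i.2 j.2 l1 ht (hv j) (hh i) okk]
    exact cl_lt ht (hv j) (hh i) okk l1
  · have hs := s.2
    refine case3 (P := fun t => gc n m ty h v (tn n m ty (Sum.inr (b, j, s, t))) < 3) ?_ ?_ ?_ t
    · cases b
      · rw [tn_top, gc_vt hn j.2 (by omega) (hty 0 j) (hv j) (hh 0) (ok 0 hn j j.2)]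
        exact cl_lt (hty 0 j) (hv j) (hh 0) (ok 0 hn j j.2) (by omega)
      · rw [tn_bot, gc_vt (by omega) j.2 (by omega) (hty (n - 1) j) (hv j) (hh (n - 1))
          (ok (n - 1) (by omega) j j.2)]
        exact cl_lt (hty (n - 1) j) (hv j) (hh (n - 1)) (ok (n - 1) (by omega) j j.2) (by omega)
    · cases b
      · rw [tn_top', gc_vt hn j.2 (by omega) (hty 0 j) (hv j) (hh 0) (ok 0 hn j j.2)]
        exact cl_lt (hty 0 j) (hv j) (hh 0) (ok 0 hn j j.2) (by omega)
      · rw [tn_bot', gc_vt (by omega) j.2 (by omega) (hty (n - 1) j) (hv j) (hh (n - 1))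
          (ok (n - 1) (by omega) j j.2)]
        exact cl_lt (hty (n - 1) j) (hv j) (hh (n - 1)) (ok (n - 1) (by omega) j j.2) (by omega)
    · rw [tn_pole, gc_pole]
      norm_num

end

/-- The grid has a good colouring if the wires have colours compatible with the tiles. -/
theorem grid_complete (n m : ℕ) (ty : ℕ → ℕ → ℕ) (hn : 0 < n) (hm : 2 ≤ m)
    (hty : ∀ i j, ty i j < 3) (h v : ℕ → Fin 3)
    (H : ∀ i < n, ∀ j < m, (ty i j = 1 → h i = v j) ∧ (ty i j = 2 → h i ≠ v j)) :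
    ∃ c, Good (grid n m ty hn hm hty).graph c := by
  set h' : ℕ → ℕ := fun i => (h i : ℕ) with hh'
  set v' : ℕ → ℕ := fun j => (v j : ℕ) with hv'
  have ok : ∀ i < n, ∀ j < m, okS (ty i j) (v' j) (h' i) = true := by
    intro i hi j hj
    obtain ⟨h1, h2⟩ := H i hi j hj
    exact okS_iff (hty i j) (fun ht => by rw [hh', hv']; simp only; rw [h1 ht])
      (fun ht he => h2 ht (Fin.ext he))
  have hlt1 : ∀ i, h' i < 3 := fun i => (h i).2
  have hlt2 : ∀ j, v' j < 3 := fun j => (v j).2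
  have hclt : ∀ x : Fin (n * m * 220 + 4 * m + 2), gc n m ty h' v' x < 3 := by
    intro x
    obtain ⟨d, hd⟩ := tn_surj hn hm hty x.2
    rw [← hd]
    exact gc_lt hn hty hlt1 hlt2 ok d
  have hedge : ∀ x y, (grid n m ty hn hm hty).graph.Adj x y → EdgeOk n m ty h' v' x y := by
    intro x y hxy
    obtain ⟨d, h1, h2⟩ := (grid_adj n m ty hn hm hty x y).1 hxy
    rw [← h1, ← h2]
    exact edge_ok hn hty hlt1 hlt2 ok d
  refine ⟨fun x => ⟨gc n m ty h' v' x, hclt x⟩, ?_, ?_⟩
  · intro x y hxy hc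
    have hc' : gc n m ty h' v' x = gc n m ty h' v' y := Fin.val_eq_of_eq hc
    exact Fin.ext (hedge x y hxy hc').1
  · intro S hS hS2
    obtain ⟨w, hw, hmax⟩ := S.exists_max_image (fun x => gr n m ty h' v' x) hS
    have key : ∀ u ∈ S, (grid n m ty hn hm hty).graph.Adj w u → gp n m ty h' v' w = u := by
      intro u hu hadj
      have c1 : gc n m ty h' v' w = 2 := Fin.val_eq_of_eq (hS2 w hw)
      have c2 : gc n m ty h' v' u = 2 := Fin.val_eq_of_eq (hS2 u hu)
      obtain ⟨_, h2⟩ := hedge w u hadj (c1.trans c2.symm)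
      have h3 : gr n m ty h' v' u ≤ gr n m ty h' v' w := hmax u hu
      rcases h2 with ⟨_, h4⟩ | ⟨h4, _⟩
      · omega
      · exact h4
    refine ⟨w, hw, ?_⟩
    intro u hu u' hu' ha ha'
    apply Fin.ext
    rw [← key u hu ha, ← key u' hu' ha']

end Pool.Agent.H671R2.OOF
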