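import Mathlib

/-!
# Definitions: maximal planar graphs, partitions into two independent sets and a forest
-/

set_option autoImplicit false

namespace Pool.Agent.H671R2.OOF

variable {V : Type}

/-- The permutation of the darts (directed edges) of a graph which reverses every dart. -/
def revPerm (G : SimpleGraph V) : Equiv.Perm G.Dart where
  toFun d := d.symm
  invFun d := d.symm
  left_inv d := d.symm_symm
  right_inv d := d.symm_symm

/-- A rotation system (combinatorial embedding in an oriented closed surface): a permutation of
the darts whose cycles are exactly the sets of darts with a common tail. -/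
def IsRotation (G : SimpleGraph V) (σ : Equiv.Perm G.Dart) : Prop :=
  (∀ d, (σ d).fst = d.fst) ∧ ∀ d d' : G.Dart, d.fst = d'.fst → σ.SameCycle d d'

/-- The faces of a rotation system: the orbits of the permutation which traverses a dart and then
turns to the next dart at its head. -/
abbrev Face (G : SimpleGraph V) (σ : Equiv.Perm G.Dart) : Type :=
  Quotient (Equiv.Perm.SameCycle.setoid (σ * revPerm G))

/-- A finite graph is planar: it has a rotation system of genus zero, that is, one satisfying
Euler's formula `v - e + f = 2 c`; here `c` is the number of connected components and every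
isolated vertex contributes one face. -/
def IsPlanar (G : SimpleGraph V) : Prop :=
  ∃ σ : Equiv.Perm G.Dart, IsRotation G σ ∧
    Nat.card V + (Nat.card (Face G σ) + Nat.card {v : V // ∀ w, ¬ G.Adj v w})
      = Nat.card G.edgeSet + 2 * Nat.card G.ConnectedComponent

/-- A graph is maximal planar: it is planar and adding any edge between two non-adjacent
vertices makes it non-planar. -/
def MaximalPlanar (G : SimpleGraph V) : Prop :=
  IsPlanar G ∧ ∀ u v, u ≠ v → ¬ G.Adj u v → ¬ IsPlanar (G ⊔ SimpleGraph.edge u v)

/-- The class `𝒪`: graphs without edges. -/
def Edgeless {W : Type} (H : SimpleGraph W) : Prop := ∀ u v, ¬ H.Adj u v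

/-- The class `𝒟₁` of 1-degenerate graphs (forests): every (nonempty) subgraph has a vertex with
at most one neighbour in the subgraph. -/
def OneDegenerate {W : Type} (H : SimpleGraph W) : Prop :=
  ∀ K : H.Subgraph, K.verts.Nonempty → ∃ v ∈ K.verts, (K.neighborSet v).Subsingleton

/-- `G` has an `(𝒪, 𝒪, 𝒟₁)`-partition. -/
def HasPartition (G : SimpleGraph V) : Prop :=
  ∃ A B F : Set V, A ∪ B ∪ F = Set.univ ∧ Disjoint A B ∧ Disjoint A F ∧ Disjoint B F ∧
    Edgeless (G.induce A) ∧ Edgeless (G.induce B) ∧ OneDegenerate (G.induce F)

end Pool.Agent.H671R2.OOF
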