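import Pool.Agent.H671R2.OOF.Basic

/-!
# Euler's formula for a triangulation with `6 |V| - 12` darts, and maximality

By helper861.
-/

set_option autoImplicit false

namespace Pool.Agent.H671R2.OOF

open Equiv.Perm

namespace Eul

/-! ### counting classes -/

theorem card_le_quot {D : Type} [Finite D] (q : Setoid D) (k : ℕ)
    (h : ∀ d, ∃ S : Finset D, S.card ≤ k ∧ ∀ e, q e d → e ∈ S) :
    Nat.card D ≤ k * Nat.card (Quotient q) := by
  classical
  have := Fintype.ofFinite D
  have : Fintype (Quotient q) := Fintype.ofFinite _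
  rw [Nat.card_eq_fintype_card, Nat.card_eq_fintype_card,
    Fintype.card_congr (Equiv.sigmaFiberEquiv (Quotient.mk q)).symm, Fintype.card_sigma]
  calc ∑ x : Quotient q, Fintype.card {d // Quotient.mk q d = x}
      ≤ ∑ _x : Quotient q, k := by
        refine Finset.sum_le_sum fun x _ => ?_
        induction x using Quotient.inductionOn with
        | h d =>
          obtain ⟨S, hS, hS'⟩ := h d
          rw [Fintype.card_subtype]
          refine (Finset.card_le_card ?_).trans hS
          intro e he
          simp only [Finset.mem_filter, Finset.mem_univ, true_and] at he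
          exact hS' e (Quotient.exact he)
    _ = k * Fintype.card (Quotient q) := by
        rw [Finset.sum_const, Finset.card_univ, smul_eq_mul, mul_comm]

theorem quot_le_card {D : Type} [Finite D] (q : Setoid D) (k : ℕ)
    (h : ∀ d, ∃ S : Finset D, k ≤ S.card ∧ ∀ e ∈ S, q e d) :
    k * Nat.card (Quotient q) ≤ Nat.card D := by
  classical
  have := Fintype.ofFinite D
  have : Fintype (Quotient q) := Fintype.ofFinite _
  rw [Nat.card_eq_fintype_card, Nat.card_eq_fintype_card,
    Fintype.card_congr (Equiv.sigmaFiberEquiv (Quotient.mk q)).symm, Fintype.card_sigma]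
  calc k * Fintype.card (Quotient q) = ∑ _x : Quotient q, k := by
        rw [Finset.sum_const, Finset.card_univ, smul_eq_mul, mul_comm]
    _ ≤ ∑ x : Quotient q, Fintype.card {d // Quotient.mk q d = x} := by
        refine Finset.sum_le_sum fun x _ => ?_
        induction x using Quotient.inductionOn with
        | h d =>
          obtain ⟨S, hS, hS'⟩ := h d
          rw [Fintype.card_subtype]
          refine hS.trans (Finset.card_le_card ?_)
          intro e he
          simp only [Finset.mem_filter, Finset.mem_univ, true_and]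
          exact Quotient.sound (hS' e he)

/-! ### the Euler inequality -/

theorem orth {D : Type} [Fintype D] (s r : Equiv.Perm D) (hr : ∀ d, r (r d) = d)
    (a b : D → ℝ) (ha : ∀ d, a (s d) = a d) (hb : ∀ d, b (s (r d)) = b d) :
    ∑ d, (a d - a (r d)) * (b d - b (r d)) = 0 := by
  have h1 : ∑ d, a (r d) * b (r d) = ∑ d, a d * b d := Equiv.sum_comp r (fun d => a d * b d)
  have h2 : ∑ d, a (r d) * b d = ∑ d, a d * b (r d) := by
    rw [← Equiv.sum_comp r (fun d => a (r d) * b d)]
    simp only [hr]
  have h3 : ∑ d, a d * b (r d) = ∑ d, a d * b d := by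
    rw [← Equiv.sum_comp s (fun d => a d * b d)]
    refine Finset.sum_congr rfl fun d _ => ?_
    rw [ha, ← hb (r d), hr]
  have : ∑ d, (a d - a (r d)) * (b d - b (r d))
      = ∑ d, a d * b d - ∑ d, a d * b (r d) - ∑ d, a (r d) * b d + ∑ d, a (r d) * b (r d) := by
    rw [← Finset.sum_sub_distrib, ← Finset.sum_sub_distrib, ← Finset.sum_add_distrib]
    exact Finset.sum_congr rfl fun d _ => by ring
  rw [this, h1, h2, h3]
  ring

theorem anti_zero {D : Type} [Fintype D] (s r : Equiv.Perm D) (hr : ∀ d, r (r d) = d)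
    (a b c : D → ℝ) (ha : ∀ d, a (s d) = a d) (hb : ∀ d, b (s (r d)) = b d)
    (hc : ∀ d, c (r d) = c d) (h : ∀ d, (a d - a (r d)) + (b d - b (r d)) + c d = 0) :
    (∀ d, a (r d) = a d) ∧ (∀ d, b (r d) = b d) ∧ ∀ d, c d = 0 := by
  have hc0 : ∀ d, c d = 0 := by
    intro d
    have h1 := h d
    have h2 := h (r d)
    rw [hr, hc] at h2
    linarith
  have hab : ∀ d, b d - b (r d) = -(a d - a (r d)) := fun d => by
    have := h d
    rw [hc0] at this
    linarith
  have h0 := orth s r hr a b ha hb
  have h1 : ∑ d, (a d - a (r d)) ^ 2 = 0 := by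
    have : ∑ d, (a d - a (r d)) ^ 2 = -∑ d, (a d - a (r d)) * (b d - b (r d)) := by
      rw [← Finset.sum_neg_distrib]
      exact Finset.sum_congr rfl fun d _ => by rw [hab]; ring
    rw [this, h0, neg_zero]
  have h2 := (Finset.sum_eq_zero_iff_of_nonneg (fun d _ => sq_nonneg (a d - a (r d)))).1 h1
  have ha0 : ∀ d, a (r d) = a d := fun d => by
    have := h2 d (Finset.mem_univ d)
    have := pow_eq_zero_iff (two_ne_zero) |>.1 this
    linarith
  refine ⟨ha0, fun d => ?_, hc0⟩
  have := hab d
  rw [ha0] at this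
  linarith

theorem euler_le {D : Type} [Finite D] (s r : Equiv.Perm D) (hr : ∀ d, r (r d) = d) (d0 : D)
    (hc : ∀ d, Relation.EqvGen (fun a b => b = s (r a) ∨ b = r a) d0 d) :
    Nat.card (Quotient (SameCycle.setoid s)) + Nat.card (Quotient (SameCycle.setoid (s * r)))
      + Nat.card (Quotient (SameCycle.setoid r)) ≤ Nat.card D + 2 := by
  classical
  have := Fintype.ofFinite D
  have : Fintype (Quotient (SameCycle.setoid s)) := Fintype.ofFinite _
  have : Fintype (Quotient (SameCycle.setoid (s * r))) := Fintype.ofFinite _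
  have : Fintype (Quotient (SameCycle.setoid r)) := Fintype.ofFinite _
  let M : ((Quotient (SameCycle.setoid s) → ℝ) × (Quotient (SameCycle.setoid (s * r)) → ℝ) ×
      (Quotient (SameCycle.setoid r) → ℝ)) →ₗ[ℝ] ((D → ℝ) × ℝ × ℝ) :=
    { toFun := fun x => (fun d => (x.1 (Quotient.mk _ d) - x.1 (Quotient.mk _ (r d)))
          + (x.2.1 (Quotient.mk _ d) - x.2.1 (Quotient.mk _ (r d))) + x.2.2 (Quotient.mk _ d),
          x.1 (Quotient.mk _ d0), x.2.1 (Quotient.mk _ d0))
      map_add' := fun x y => by
        refine Prod.ext (funext fun d => ?_) (Prod.ext ?_ ?_)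
        · simp only [Prod.fst_add, Prod.snd_add, Pi.add_apply]; ring
        · simp
        · simp
      map_smul' := fun c x => by
        refine Prod.ext (funext fun d => ?_) (Prod.ext ?_ ?_)
        · simp only [Prod.smul_fst, Prod.smul_snd, Pi.smul_apply, smul_eq_mul, RingHom.id_apply]
          ring
        · simp
        · simp }
  have hM : Function.Injective M := by
    rw [injective_iff_map_eq_zero M]
    rintro ⟨a, b, c⟩ h
    have h1 : ∀ d, (a (Quotient.mk _ d) - a (Quotient.mk _ (r d)))
          + (b (Quotient.mk _ d) - b (Quotient.mk _ (r d))) + c (Quotient.mk _ d) = 0 := fun d =>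
      congrFun (congrArg Prod.fst h) d
    have h2 : a (Quotient.mk _ d0) = 0 := congrArg (fun x => x.2.1) h
    have h3 : b (Quotient.mk _ d0) = 0 := congrArg (fun x => x.2.2) h
    have ha : ∀ d, a (Quotient.mk _ (s d)) = a (Quotient.mk _ d) := fun d =>
      congrArg a (Quotient.sound (sameCycle_apply_left.2 (SameCycle.refl s d)))
    have hb : ∀ d, b (Quotient.mk _ (s (r d))) = b (Quotient.mk _ d) := fun d =>
      congrArg b (Quotient.sound
        (show (s * r).SameCycle ((s * r) d) d from sameCycle_apply_left.2 (SameCycle.refl _ d)))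
    have hcc : ∀ d, c (Quotient.mk _ (r d)) = c (Quotient.mk _ d) := fun d =>
      congrArg c (Quotient.sound (sameCycle_apply_left.2 (SameCycle.refl r d)))
    obtain ⟨ha', hb', hc'⟩ := anti_zero s r hr (fun d => a (Quotient.mk _ d))
      (fun d => b (Quotient.mk _ d)) (fun d => c (Quotient.mk _ d)) ha hb hcc h1
    have key : ∀ x y : D, Relation.EqvGen (fun a b => b = s (r a) ∨ b = r a) x y →
        a (Quotient.mk _ x) = a (Quotient.mk _ y) ∧ b (Quotient.mk _ x) = b (Quotient.mk _ y) := by
      intro x y hxy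
      induction hxy with
      | rel x y h =>
        rcases h with rfl | rfl
        · exact ⟨by rw [ha, ha'], (hb x).symm⟩
        · exact ⟨(ha' x).symm, (hb' x).symm⟩
      | refl x => exact ⟨rfl, rfl⟩
      | symm x y _ ih => exact ⟨ih.1.symm, ih.2.symm⟩
      | trans x y z _ _ ih1 ih2 => exact ⟨ih1.1.trans ih2.1, ih1.2.trans ih2.2⟩
    refine Prod.ext (funext fun x => ?_) (Prod.ext (funext fun x => ?_) (funext fun x => ?_))
    · induction x using Quotient.inductionOn with
      | h d => exact (key d0 d (hc d)).1.symm.trans h2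
    · induction x using Quotient.inductionOn with
      | h d => exact (key d0 d (hc d)).2.symm.trans h3
    · induction x using Quotient.inductionOn with
      | h d => exact hc' d
  have := LinearMap.finrank_le_finrank_of_injective hM
  simp only [Module.finrank_prod, Module.finrank_fintype_fun_eq_card, Module.finrank_self] at this
  rw [Nat.card_eq_fintype_card, Nat.card_eq_fintype_card, Nat.card_eq_fintype_card,
    Nat.card_eq_fintype_card]
  omega

/-! ### conjugation by an equivalence -/

theorem permCongr_zpow {D E : Type} (e : D ≃ E) (f : Equiv.Perm D) (i : ℤ) :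
    (e.permCongr f) ^ i = e.permCongr (f ^ i) := by
  have := map_zpow (Equiv.permCongrHom e) f i
  exact this.symm

theorem sameCycle_permCongr {D E : Type} (e : D ≃ E) (f : Equiv.Perm D) (x y : D) :
    (e.permCongr f).SameCycle (e x) (e y) ↔ f.SameCycle x y := by
  constructor
  · rintro ⟨i, hi⟩
    refine ⟨i, ?_⟩
    rw [permCongr_zpow, Equiv.permCongr_apply, e.symm_apply_apply] at hi
    exact e.injective hi
  · rintro ⟨i, hi⟩
    refine ⟨i, ?_⟩
    rw [permCongr_zpow, Equiv.permCongr_apply, e.symm_apply_apply, hi]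

theorem card_quot_permCongr {D E : Type} (e : D ≃ E) (f : Equiv.Perm D) :
    Nat.card (Quotient (SameCycle.setoid (e.permCongr f)))
      = Nat.card (Quotient (SameCycle.setoid f)) :=
  Nat.card_congr (Quotient.congr e fun x y => (sameCycle_permCongr e f x y).symm).symm

theorem closed_zpow {D : Type} (f : Equiv.Perm D) (P : D → Prop) (h1 : ∀ d, P d → P (f d))
    (h2 : ∀ d, P d → P (f.symm d)) (i : ℤ) (d : D) (hd : P d) : P ((f ^ i) d) := by
  induction i using Int.induction_on generalizing d with
  | zero => exact hd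
  | succ i ih =>
    rw [zpow_add_one, Equiv.Perm.mul_apply]
    exact ih _ (h1 d hd)
  | pred i ih =>
    rw [zpow_sub_one, Equiv.Perm.mul_apply]
    exact ih _ (h2 d hd)

end Eul

namespace TriSys

variable {V D : Type} (T : TriSys V D)

/-- reversal as a permutation -/
def revE : Equiv.Perm D := ⟨T.rev, T.rev, T.rev2, T.rev2⟩

/-- the face permutation -/
def phiE : Equiv.Perm D := ⟨T.phi, fun d => T.phi (T.phi d), T.phi3, T.phi3⟩

/-- the rotation -/
def rotE : Equiv.Perm D := T.phiE * T.revE

theorem rotE_mul : T.rotE * T.revE = T.phiE := by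
  ext d
  simp [rotE, revE, T.rev2]

theorem tail_rotE (d : D) : T.tail (T.rotE d) = T.tail d := T.tail_phi_rev d

theorem tail_zpow (i : ℤ) (d : D) : T.tail ((T.rotE ^ i) d) = T.tail d := by
  refine Eul.closed_zpow T.rotE (fun e => T.tail e = T.tail d) ?_ ?_ i d rfl
  · intro e he; rw [T.tail_rotE, he]
  · intro e he
    have := T.tail_rotE (T.rotE.symm e)
    rw [Equiv.apply_symm_apply] at this
    rw [← this, he]

theorem two_mul_card [Finite D] :
    Nat.card D ≤ 2 * Nat.card (Quotient (SameCycle.setoid T.revE)) := by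
  classical
  refine Eul.card_le_quot _ 2 fun d => ⟨{d, T.rev d}, Finset.card_le_two, ?_⟩
  intro e he
  obtain ⟨i, hi⟩ := SameCycle.symm he
  rw [← hi]
  refine Eul.closed_zpow T.revE (fun e => e ∈ ({d, T.rev d} : Finset D)) ?_ ?_ i d (by simp) <;>
  · intro e he
    simp only [Finset.mem_insert, Finset.mem_singleton] at he ⊢
    rcases he with rfl | rfl
    · exact Or.inr rfl
    · exact Or.inl (T.rev2 _)

theorem three_mul_card [Finite D] :
    Nat.card D ≤ 3 * Nat.card (Quotient (SameCycle.setoid T.phiE)) := by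
  classical
  refine Eul.card_le_quot _ 3 fun d => ⟨{d, T.phi d, T.phi (T.phi d)}, Finset.card_le_three, ?_⟩
  intro e he
  obtain ⟨i, hi⟩ := SameCycle.symm he
  rw [← hi]
  refine Eul.closed_zpow T.phiE (fun e => e ∈ ({d, T.phi d, T.phi (T.phi d)} : Finset D)) ?_ ?_ i d
    (by simp)
  · intro e he
    simp only [Finset.mem_insert, Finset.mem_singleton] at he ⊢
    rcases he with rfl | rfl | rfl
    · exact Or.inr (Or.inl rfl)
    · exact Or.inr (Or.inr rfl)
    · exact Or.inl (T.phi3 _)
  · intro e he
    simp only [Finset.mem_insert, Finset.mem_singleton] at he ⊢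
    show T.phi (T.phi e) = d ∨ T.phi (T.phi e) = _ ∨ T.phi (T.phi e) = _
    rcases he with rfl | rfl | rfl
    · exact Or.inr (Or.inr rfl)
    · exact Or.inl (T.phi3 _)
    · exact Or.inr (Or.inl (by rw [T.phi3]))

/-- the darts of the graph -/
noncomputable def dartE : D ≃ T.graph.Dart :=
  Equiv.ofBijective (fun d => ⟨(T.tail d, T.tail (T.phi d)), ⟨d, rfl, rfl⟩⟩) (by
    constructor
    · intro d d' h
      exact T.inj d d' (congrArg (fun x => x.fst) h) (congrArg (fun x => x.snd) h)
    · rintro ⟨⟨u, v⟩, ⟨d, h1, h2⟩⟩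
      refine ⟨d, ?_⟩
      apply SimpleGraph.Dart.ext
      exact Prod.ext h1 h2)

theorem dartE_fst (d : D) : (T.dartE d).fst = T.tail d := rfl

theorem dartE_snd (d : D) : (T.dartE d).snd = T.tail (T.phi d) := rfl

theorem dartE_symm (d : D) : (T.dartE d).symm = T.dartE (T.rev d) := by
  apply SimpleGraph.Dart.ext
  exact Prod.ext (T.tail_rev d).symm (T.tail_phi_rev d).symm

theorem revPerm_eq : revPerm T.graph = T.dartE.permCongr T.revE := by
  apply Equiv.ext
  intro x
  obtain ⟨d, rfl⟩ := T.dartE.surjective x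
  rw [Equiv.permCongr_apply, Equiv.symm_apply_apply]
  exact T.dartE_symm d

theorem preconnected : T.graph.Preconnected := by
  intro u v
  obtain ⟨d, rfl⟩ := T.surj u
  obtain ⟨d', rfl⟩ := T.surj v
  have key : ∀ x y : D, Relation.EqvGen (fun a b => b = T.phi a ∨ b = T.rev a) x y →
      T.graph.Reachable (T.tail x) (T.tail y) := by
    intro x y hxy
    induction hxy with
    | rel x y h =>
      have hadj : T.graph.Adj (T.tail x) (T.tail (T.phi x)) := ⟨x, rfl, rfl⟩
      rcases h with rfl | rfl
      · exact hadj.reachable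
      · rw [T.tail_rev]; exact hadj.reachable
    | refl x => exact SimpleGraph.Reachable.refl _
    | symm x y _ ih => exact ih.symm
    | trans x y z _ _ ih1 ih2 => exact ih1.trans ih2
  exact key d d' (T.conn d d')

/-- the three numbers -/
theorem counts [Finite V] [Finite D] (hc : Nat.card D + 12 = 6 * Nat.card V) :
    3 * Nat.card (Quotient (SameCycle.setoid T.phiE)) = Nat.card D ∧
      ∀ d d', T.tail d = T.tail d' → T.rotE.SameCycle d d' := by
  classical
  have := Fintype.ofFinite V
  have := Fintype.ofFinite D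
  have : Fintype (Quotient (SameCycle.setoid T.rotE)) := Fintype.ofFinite _
  have hne : Nonempty D := by
    by_contra h
    rw [not_nonempty_iff] at h
    have h0 : IsEmpty V := ⟨fun v => by obtain ⟨d, _⟩ := T.surj v; exact h.elim d⟩
    rw [Nat.card_of_isEmpty, Nat.card_of_isEmpty] at hc
    omega
  obtain ⟨d0⟩ := hne
  have h1 := Eul.euler_le T.rotE T.revE T.rev2 d0 (fun d => by
    have := T.conn d0 d
    have he : (fun a b => b = T.rotE (T.revE a) ∨ b = T.revE a)
        = (fun a b => b = T.phi a ∨ b = T.rev a) := by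
      funext a b
      have : T.rotE (T.revE a) = T.phi a := by
        show T.phi (T.rev (T.rev a)) = T.phi a
        rw [T.rev2]
      rw [this]
      rfl
    rw [he]
    exact this)
  rw [T.rotE_mul] at h1
  have h2 := T.two_mul_card
  have h3 := T.three_mul_card
  let f : Quotient (SameCycle.setoid T.rotE) → V := Quotient.lift T.tail (by
    rintro a b ⟨i, hi⟩
    rw [← hi, T.tail_zpow])
  have hf : Function.Surjective f := fun v => by
    obtain ⟨d, hd⟩ := T.surj v
    exact ⟨Quotient.mk _ d, hd⟩
  have h4 : Nat.card V ≤ Nat.card (Quotient (SameCycle.setoid T.rotE)) :=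
    Nat.card_le_card_of_surjective f hf
  have h5 : Nat.card (Quotient (SameCycle.setoid T.rotE)) = Nat.card V := by omega
  refine ⟨by omega, ?_⟩
  have hb : Function.Bijective f := by
    rw [Fintype.bijective_iff_surjective_and_card]
    exact ⟨hf, by rw [← Nat.card_eq_fintype_card, ← Nat.card_eq_fintype_card, h5]⟩
  intro d d' hdd
  exact Quotient.exact (hb.1 (show f (Quotient.mk _ d) = f (Quotient.mk _ d') from hdd))

/-- no vertex of the graph is isolated -/
theorem exists_adj (v : V) : ∃ w, T.graph.Adj v w := by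
  obtain ⟨d, rfl⟩ := T.surj v
  exact ⟨_, d, rfl, rfl⟩

theorem isPlanar [Fintype V] [Fintype D] (hc : Nat.card D + 12 = 6 * Nat.card V) :
    IsPlanar T.graph ∧ Nat.card D = 2 * Nat.card T.graph.edgeSet := by
  classical
  obtain ⟨h1, h2⟩ := T.counts hc
  have hD : Nat.card D = 2 * Nat.card T.graph.edgeSet := by
    rw [Nat.card_congr T.dartE, Nat.card_eq_fintype_card, Nat.card_eq_fintype_card,
      SimpleGraph.dart_card_eq_twice_card_edges, SimpleGraph.edgeFinset_card]
  refine ⟨⟨T.dartE.permCongr T.rotE, ⟨?_, ?_⟩, ?_⟩, hD⟩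
  · intro x
    obtain ⟨d, rfl⟩ := T.dartE.surjective x
    rw [Equiv.permCongr_apply, Equiv.symm_apply_apply, dartE_fst, dartE_fst, T.tail_rotE]
  · intro x y hxy
    obtain ⟨d, rfl⟩ := T.dartE.surjective x
    obtain ⟨d', rfl⟩ := T.dartE.surjective y
    rw [dartE_fst, dartE_fst] at hxy
    exact (Eul.sameCycle_permCongr _ _ _ _).2 (h2 d d' hxy)
  · have hF : Nat.card (Face T.graph (T.dartE.permCongr T.rotE))
        = Nat.card (Quotient (SameCycle.setoid T.phiE)) := by
      rw [← Eul.card_quot_permCongr T.dartE T.phiE, ← T.rotE_mul]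
      unfold Face
      rw [T.revPerm_eq]
      have : T.dartE.permCongr T.rotE * T.dartE.permCongr T.revE
          = T.dartE.permCongr (T.rotE * T.revE) :=
        (map_mul (Equiv.permCongrHom T.dartE) T.rotE T.revE).symm
      rw [this]
    have hI : Nat.card {v : V // ∀ w, ¬ T.graph.Adj v w} = 0 := by
      have : IsEmpty {v : V // ∀ w, ¬ T.graph.Adj v w} :=
        ⟨fun x => by obtain ⟨w, hw⟩ := T.exists_adj x.1; exact x.2 w hw⟩
      exact Nat.card_of_isEmpty
    have hV : Nonempty V := by
      by_contra h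
      rw [not_nonempty_iff] at h
      rw [Nat.card_of_isEmpty (α := V)] at hc
      omega
    have hC : Nat.card T.graph.ConnectedComponent = 1 := by
      obtain ⟨v⟩ := hV
      rw [Nat.card_eq_one_iff_unique]
      exact ⟨T.preconnected.subsingleton_connectedComponent, ⟨T.graph.connectedComponentMk v⟩⟩
    rw [hF, hI, hC]
    omega

/-- every vertex has two different neighbours -/
theorem exists_two_adj (v : V) : ∃ w w', w ≠ w' ∧ T.graph.Adj v w ∧ T.graph.Adj v w' := by
  obtain ⟨d, rfl⟩ := T.surj v
  refine ⟨T.tail (T.phi d), T.tail (T.phi (T.phi d)), (T.ne (T.phi d)).symm, ⟨d, rfl, rfl⟩, ?_⟩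
  exact SimpleGraph.Adj.symm (G := T.graph) ⟨T.phi (T.phi d), rfl, by rw [T.phi3]⟩

end TriSys

theorem Eul.card_dart {V : Type} [Finite V] (G : SimpleGraph V) :
    Nat.card G.Dart = 2 * Nat.card G.edgeSet := by
  classical
  have := Fintype.ofFinite V
  rw [Nat.card_eq_fintype_card, Nat.card_eq_fintype_card,
    SimpleGraph.dart_card_eq_twice_card_edges, SimpleGraph.edgeFinset_card]

theorem Eul.three_le_face {V : Type} [Finite V] (G : SimpleGraph V) (σ : Equiv.Perm G.Dart)
    (hσ : IsRotation G σ) (h2 : ∀ v, ∃ w w', w ≠ w' ∧ G.Adj v w ∧ G.Adj v w') :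
    3 * Nat.card (Face G σ) ≤ Nat.card G.Dart := by
  classical
  have := Fintype.ofFinite V
  have hfst : ∀ x : G.Dart, ((σ * revPerm G) x).fst = x.snd := fun x => hσ.1 x.symm
  have hne : ∀ x : G.Dart, (σ * revPerm G) x ≠ x := fun x h => by
    have h1 := hfst x
    rw [h] at h1
    exact x.adj.ne h1
  have hne2 : ∀ x : G.Dart, (σ * revPerm G) ((σ * revPerm G) x) ≠ x := fun x h => by
    have h1 : ((σ * revPerm G) x).snd = x.fst := by
      rw [← hfst ((σ * revPerm G) x), h]
    have h3 : (σ * revPerm G) x = x.symm := SimpleGraph.Dart.ext _ _ (Prod.ext (hfst x) h1)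
    have h4 : σ x.symm = x.symm := h3
    have h5 : ∀ y : G.Dart, y.fst = x.symm.fst → y = x.symm := fun y hy => by
      obtain ⟨i, hi⟩ := hσ.2 x.symm y hy.symm
      rw [← hi]
      exact Equiv.Perm.zpow_apply_eq_self_of_apply_eq_self h4 i
    obtain ⟨w, w', hww, hw, hw'⟩ := h2 x.symm.fst
    have h6 := h5 ⟨(x.symm.fst, w), hw⟩ rfl
    have h7 := h5 ⟨(x.symm.fst, w'), hw'⟩ rfl
    exact hww (congrArg (fun z : G.Dart => z.snd) (h6.trans h7.symm))
  refine Eul.quot_le_card _ 3 fun x => ⟨{x, (σ * revPerm G) x,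
    (σ * revPerm G) ((σ * revPerm G) x)}, ?_, ?_⟩
  · rw [Finset.card_eq_three.2 ⟨x, (σ * revPerm G) x, (σ * revPerm G) ((σ * revPerm G) x),
      (hne x).symm, (hne2 x).symm, (hne _).symm, rfl⟩]
  · intro e he
    simp only [Finset.mem_insert, Finset.mem_singleton] at he
    show (σ * revPerm G).SameCycle e x
    rcases he with rfl | rfl | rfl
    · exact SameCycle.refl _ _
    · exact sameCycle_apply_left.2 (SameCycle.refl _ _)
    · exact sameCycle_apply_left.2 (sameCycle_apply_left.2 (SameCycle.refl _ _))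

/-- A triangulation with `6 |V| - 12` darts (genus zero) is a maximal planar graph. -/
theorem TriSys.maximalPlanar {V D : Type} [Fintype V] [Fintype D] (T : TriSys V D)
    (hc : Fintype.card D + 12 = 6 * Fintype.card V) : MaximalPlanar T.graph := by
  classical
  have hc' : Nat.card D + 12 = 6 * Nat.card V := by
    rw [Nat.card_eq_fintype_card, Nat.card_eq_fintype_card]; exact hc
  obtain ⟨hp, hD⟩ := T.isPlanar hc'
  refine ⟨hp, ?_⟩
  rintro u v huv hnadj ⟨σ, hσ, hE⟩
  have hle : T.graph ≤ T.graph ⊔ SimpleGraph.edge u v := le_sup_left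
  have hI : Nat.card {x : V // ∀ w, ¬ (T.graph ⊔ SimpleGraph.edge u v).Adj x w} = 0 := by
    have : IsEmpty {x : V // ∀ w, ¬ (T.graph ⊔ SimpleGraph.edge u v).Adj x w} :=
      ⟨fun x => by obtain ⟨w, hw⟩ := T.exists_adj x.1; exact x.2 w (hle hw)⟩
    exact Nat.card_of_isEmpty
  have hC : Nat.card (T.graph ⊔ SimpleGraph.edge u v).ConnectedComponent = 1 := by
    rw [Nat.card_eq_one_iff_unique]
    exact ⟨(T.preconnected.mono hle).subsingleton_connectedComponent,
      ⟨(T.graph ⊔ SimpleGraph.edge u v).connectedComponentMk u⟩⟩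
  have hE' : Nat.card (T.graph ⊔ SimpleGraph.edge u v).edgeSet
      = Nat.card T.graph.edgeSet + 1 := by
    rw [Nat.card_eq_fintype_card, Nat.card_eq_fintype_card, ← SimpleGraph.edgeFinset_card,
      ← SimpleGraph.edgeFinset_card]
    exact SimpleGraph.card_edgeFinset_sup_edge _ hnadj huv
  have hD' : Nat.card (T.graph ⊔ SimpleGraph.edge u v).Dart
      = 2 * Nat.card (T.graph ⊔ SimpleGraph.edge u v).edgeSet := Eul.card_dart _
  have h3 := Eul.three_le_face (T.graph ⊔ SimpleGraph.edge u v) σ hσ (fun x => by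
    obtain ⟨w, w', h, h1, h2⟩ := T.exists_two_adj x
    exact ⟨w, w', h, hle h1, hle h2⟩)
  rw [hI, hC] at hE
  omega

end Pool.Agent.H671R2.OOF
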