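import Pool.Agent.H671R2.OOF.Data

/-!
# The three tiles: facts checked by the kernel
-/

set_option autoImplicit false

namespace Pool.Agent.H671R2.OOF

/-- bounded universal quantification by evaluation -/
def allb (n : ℕ) (f : ℕ → Bool) : Bool := (List.range n).all f

theorem allb_iff (n : ℕ) (f : ℕ → Bool) : allb n f = true ↔ ∀ i < n, f i = true := by
  simp [allb, List.all_eq_true, List.mem_range]

/-- head of a directed edge -/
def hd (τ e : ℕ) : ℕ := tl τ (ph τ e)

/-- local checks at a directed edge -/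
def chkE (τ e : ℕ) : Bool :=
  Nat.blt (ph τ e) 1320 && Nat.beq (ph τ (ph τ (ph τ e))) e && Nat.blt (tl τ e) 229 &&
  !(Nat.beq (tl τ e) (hd τ e)) &&
  (Nat.beq e 1319 || Nat.blt (256 * tl τ e + hd τ e) (256 * tl τ (e + 1) + hd τ (e + 1))) &&
  (bif Nat.blt (rv τ e) 1320 then
      Nat.beq (rv τ (rv τ e)) e && Nat.beq (tl τ (rv τ e)) (hd τ e) &&
      (Nat.ble 16 (tl τ e) || Nat.ble 16 (hd τ e))
    else Nat.blt (rv τ e) 1336 && Nat.beq (bd τ (rv τ e - 1320)) e) &&
  (Nat.beq e (bd τ 0) || Nat.blt (ds τ (ph τ e)) (ds τ e) ||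
    Nat.blt (ds τ (ph τ (ph τ e))) (ds τ e) ||
    (Nat.blt (rv τ e) 1320 && Nat.blt (ds τ (rv τ e)) (ds τ e)))

/-- local checks at a boundary edge -/
def chkB (τ a : ℕ) : Bool :=
  Nat.blt (bd τ a) 1320 && Nat.beq (rv τ (bd τ a)) (1320 + a) && Nat.beq (tl τ (bd τ a)) a &&
  Nat.beq (hd τ (bd τ a)) ((a + 1) % 16)

/-- every vertex is a tail -/
def chkV (τ a : ℕ) : Bool := Nat.blt (st τ a) 1320 && Nat.beq (tl τ (st τ a)) a

theorem chkE_all : allb 3 (fun τ => allb 1320 (chkE τ)) = true := by decide +kernel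

theorem chkB_all : allb 3 (fun τ => allb 16 (chkB τ)) = true := by decide +kernel

theorem chkV_all : allb 3 (fun τ => allb 229 (chkV τ)) = true := by decide +kernel

end Pool.Agent.H671R2.OOF
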