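import Pool.Agent.H671R2.OOF.Basic
import Pool.Agent.H671R2.GraphEnc
import Pool.Agent.H671R2.PolyAuto
import Pool.Agent.H671R2.OrdNP2

/-!
# Membership in `NP`

The certificate is one number for every vertex: `0` and `1` are the colours of the two independent
sets, a number `k + 2` means colour `2` and place `k` in the elimination order.
-/

set_option autoImplicit false

namespace Pool.Agent.H671R2.OOF

open Pool.Agent.NPC Pool.Agent.NPC.R671
open Pool.Agent.H671R2.Ord

/-- A good numbering of the vertices. -/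
def Num {V : Type} (G : SimpleGraph V) (f : V → ℕ) : Prop :=
  (∀ u v, G.Adj u v → f u = f v → 2 ≤ f u) ∧
  ∀ v u w, G.Adj v u → G.Adj v w → 2 ≤ f v → f v ≤ f u → f v ≤ f w → u = w

theorem num_of_elim {V : Type} [Finite V] (G : SimpleGraph V) (c : V → Fin 3)
    (h : ∀ S : Finset V, S.Nonempty → (∀ v ∈ S, c v = 2) →
      ∃ v ∈ S, ∀ u ∈ S, ∀ w ∈ S, G.Adj v u → G.Adj v w → u = w) :
    ∀ (k : ℕ) (S : Finset V), S.card = k → (∀ v ∈ S, c v = 2) → ∃ g : V → ℕ,
      (∀ v ∈ S, g v < k) ∧ (∀ v ∈ S, ∀ w ∈ S, g v = g w → v = w) ∧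
      ∀ v ∈ S, ∀ u ∈ S, ∀ w ∈ S, G.Adj v u → G.Adj v w → g v ≤ g u → g v ≤ g w → u = w := by
  classical
  intro k
  induction k with
  | zero =>
    intro S hS _
    rw [Finset.card_eq_zero] at hS
    subst hS
    exact ⟨fun _ => 0, by simp, by simp, by simp⟩
  | succ k ih =>
    intro S hS hc
    have hne : S.Nonempty := by
      rw [← Finset.card_pos, hS]
      omega
    obtain ⟨x, hx, hx'⟩ := h S hne hc
    obtain ⟨g, h1, h2, h3⟩ := ih (S.erase x) (by rw [Finset.card_erase_of_mem hx, hS]; rfl)
      (fun v hv => hc v (Finset.mem_of_mem_erase hv))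
    refine ⟨fun v => if v = x then 0 else g v + 1, ?_, ?_, ?_⟩
    · intro v hv
      by_cases hvx : v = x
      · simp [hvx]
      · have := h1 v (Finset.mem_erase.2 ⟨hvx, hv⟩)
        simp only [hvx, if_false]
        omega
    · intro v hv w hw hvw
      by_cases hvx : v = x
      · by_cases hwx : w = x
        · rw [hvx, hwx]
        · simp [hvx, hwx] at hvw
      · by_cases hwx : w = x
        · simp [hvx, hwx] at hvw
        · simp only [hvx, hwx, if_false, Nat.add_right_cancel_iff] at hvw
          exact h2 v (Finset.mem_erase.2 ⟨hvx, hv⟩) w (Finset.mem_erase.2 ⟨hwx, hw⟩) hvw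
    · intro v hv u hu w hw a1 a2 b1 b2
      by_cases hvx : v = x
      · subst hvx
        exact hx' u hu w hw a1 a2
      · have hux : u ≠ x := by
          intro hux
          simp [hvx, hux] at b1
        have hwx : w ≠ x := by
          intro hwx
          simp [hvx, hwx] at b2
        simp only [hvx, hux, if_false, Nat.add_le_add_iff_right] at b1
        simp only [hvx, hwx, if_false, Nat.add_le_add_iff_right] at b2
        exact h3 v (Finset.mem_erase.2 ⟨hvx, hv⟩) u (Finset.mem_erase.2 ⟨hux, hu⟩) w
          (Finset.mem_erase.2 ⟨hwx, hw⟩) a1 a2 b1 b2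

theorem good_iff_num {n : ℕ} (G : SimpleGraph (Fin n)) :
    (∃ c, Good G c) ↔ ∃ f : Fin n → ℕ, (∀ v, f v ≤ n + 1) ∧ Num G f := by
  classical
  constructor
  · rintro ⟨c, h1, h2⟩
    obtain ⟨g, g1, _, g3⟩ := num_of_elim G c h2 _ (Finset.univ.filter (fun v => c v = 2)) rfl
      (fun v hv => (Finset.mem_filter.1 hv).2)
    have hcard : (Finset.univ.filter (fun v => c v = 2)).card ≤ n := by
      refine (Finset.card_filter_le _ _).trans ?_
      simp
    have hval : ∀ v, c v ≠ 2 → (c v).val < 2 := by
      intro v hv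
      have h3 : (c v).val ≠ 2 := fun h => hv (Fin.ext h)
      have := (c v).isLt
      omega
    refine ⟨fun v => if c v = 2 then g v + 2 else (c v).val, ?_, ?_, ?_⟩
    · intro v
      by_cases hv : c v = 2
      · have := g1 v (Finset.mem_filter.2 ⟨Finset.mem_univ _, hv⟩)
        simp only [hv, if_true]
        omega
      · have := hval v hv
        have := v.isLt
        simp only [hv, if_false]
        omega
    · intro u v huv he
      by_cases hu : c u = 2
      · simp [hu]
      · by_cases hv : c v = 2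
        · have := hval u hu
          simp only [hu, hv, if_false, if_true] at he
          omega
        · simp only [hu, hv, if_false] at he
          exact absurd (h1 u v huv (Fin.ext he)) hu
    · intro v u w a1 a2 b b1 b2
      have hv : c v = 2 := by
        by_contra hv
        have := hval v hv
        simp only [hv, if_false] at b
        omega
      simp only [hv, if_true] at b b1 b2
      have hu : c u = 2 := by
        by_contra hu
        have := hval u hu
        simp only [hu, if_false] at b1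
        omega
      have hw : c w = 2 := by
        by_contra hw
        have := hval w hw
        simp only [hw, if_false] at b2
        omega
      simp only [hu, if_true, Nat.add_le_add_iff_right] at b1
      simp only [hw, if_true, Nat.add_le_add_iff_right] at b2
      exact g3 v (Finset.mem_filter.2 ⟨Finset.mem_univ _, hv⟩) u
        (Finset.mem_filter.2 ⟨Finset.mem_univ _, hu⟩) w
        (Finset.mem_filter.2 ⟨Finset.mem_univ _, hw⟩) a1 a2 b1 b2
  · rintro ⟨f, _, h1, h2⟩
    refine ⟨fun v => ⟨min (f v) 2, by omega⟩, ?_, ?_⟩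
    · intro u v huv he
      have he' : min (f u) 2 = min (f v) 2 := congrArg Fin.val he
      apply Fin.ext
      change min (f u) 2 = 2
      by_contra hc
      have h3 : f u = f v := by omega
      have h4 := h1 u v huv h3
      omega
    · intro S hS hc
      obtain ⟨v, hv, hmin⟩ := S.exists_min_image f hS
      refine ⟨v, hv, fun u hu w hw a1 a2 => h2 v u w a1 a2 ?_ (hmin u hu) (hmin w hw)⟩
      have h3 : min (f v) 2 = 2 := congrArg Fin.val (hc v hv)
      omega

/-- no two adjacent vertices have the same number `0` or `1` -/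
def chk1 (M : List (List Bool)) (l : List ℕ) : Bool :=
  (List.range M.length).all (fun i => (List.range M.length).all (fun j =>
    !(me M i j && decide (l.getD i 0 = l.getD j 0)) || decide (2 ≤ l.getD i 0)))

/-- the condition on the elimination order -/
def chk2 (M : List (List Bool)) (l : List ℕ) : Bool :=
  (List.range M.length).all (fun i => (List.range M.length).all (fun j =>
    (List.range M.length).all (fun k =>
      !(me M i j && me M i k && decide (2 ≤ l.getD i 0) && decide (l.getD i 0 ≤ l.getD j 0) &&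
        decide (l.getD i 0 ≤ l.getD k 0)) || decide (j = k))))

/-- the verifier -/
def Rg (x : List (List Bool) × List ℕ) : Bool :=
  wf x.1 && (decide (x.2.length = x.1.length) &&
    (x.2.all (fun a => decide (a ≤ x.1.length + 1)) && (chk1 x.1 x.2 && chk2 x.1 x.2)))

theorem chk1_iff {n : ℕ} (G : SimpleGraph (Fin n)) (f : Fin n → ℕ) (l : List ℕ)
    (hl : ∀ i : Fin n, l.getD i 0 = f i) :
    chk1 (adjMatrix G) l = true ↔ ∀ u v, G.Adj u v → f u = f v → 2 ≤ f u := by
  simp only [chk1, length_adjMatrix, List.all_eq_true, List.mem_range, Bool.or_eq_true,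
    Bool.not_eq_true', Bool.and_eq_false_iff, decide_eq_true_eq, decide_eq_false_iff_not]
  constructor
  · intro h u v huv he
    have h1 := h u u.isLt v v.isLt
    rw [hl u, hl v] at h1
    rcases h1 with (h1 | h1) | h1
    · rw [(me_adj G u v).2 huv] at h1
      exact absurd h1 (by simp)
    · exact absurd he h1
    · exact h1
  · intro h i hi j hj
    have hi' := hl ⟨i, hi⟩
    have hj' := hl ⟨j, hj⟩
    simp only at hi' hj'
    rw [hi', hj']
    have hm := me_adj G ⟨i, hi⟩ ⟨j, hj⟩
    simp only at hm
    by_cases h1 : me (adjMatrix G) i j = true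
    · by_cases h2 : f ⟨i, hi⟩ = f ⟨j, hj⟩
      · exact Or.inr (h _ _ (hm.1 h1) h2)
      · exact Or.inl (Or.inr h2)
    · exact Or.inl (Or.inl (by simpa using h1))

theorem chk2_iff {n : ℕ} (G : SimpleGraph (Fin n)) (f : Fin n → ℕ) (l : List ℕ)
    (hl : ∀ i : Fin n, l.getD i 0 = f i) :
    chk2 (adjMatrix G) l = true ↔
      ∀ v u w, G.Adj v u → G.Adj v w → 2 ≤ f v → f v ≤ f u → f v ≤ f w → u = w := by
  simp only [chk2, length_adjMatrix, List.all_eq_true, List.mem_range, Bool.or_eq_true,
    Bool.not_eq_true', Bool.and_eq_false_iff, decide_eq_true_eq, decide_eq_false_iff_not]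
  constructor
  · intro h v u w a1 a2 b b1 b2
    have h1 := h v v.isLt u u.isLt w w.isLt
    rw [hl v, hl u, hl w] at h1
    rcases h1 with ((((h1 | h1) | h1) | h1) | h1) | h1
    · rw [(me_adj G v u).2 a1] at h1
      exact absurd h1 (by simp)
    · rw [(me_adj G v w).2 a2] at h1
      exact absurd h1 (by simp)
    · exact absurd b h1
    · exact absurd b1 h1
    · exact absurd b2 h1
    · exact Fin.ext h1
  · intro h i hi j hj k hk
    have hi' := hl ⟨i, hi⟩
    have hj' := hl ⟨j, hj⟩
    have hk' := hl ⟨k, hk⟩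
    simp only at hi' hj' hk'
    rw [hi', hj', hk']
    have hm := me_adj G ⟨i, hi⟩ ⟨j, hj⟩
    have hm' := me_adj G ⟨i, hi⟩ ⟨k, hk⟩
    simp only at hm hm'
    by_contra hcon
    push Not at hcon
    obtain ⟨⟨⟨⟨⟨c1, c2⟩, c3⟩, c4⟩, c5⟩, c6⟩ := hcon
    apply c6
    have := h ⟨i, hi⟩ ⟨j, hj⟩ ⟨k, hk⟩ (hm.1 (by simpa using c1)) (hm'.1 (by simpa using c2)) c3 c4 c5
    exact congrArg Fin.val this

theorem getD_ofFn {n : ℕ} (f : Fin n → ℕ) (i : Fin n) : (List.ofFn f).getD i 0 = f i := by
  rw [List.getD_eq_getElem?_getD, List.getElem?_eq_getElem (by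
    rw [List.length_ofFn]; exact i.isLt), List.getElem_ofFn]
  rfl

theorem good_iff_cert (M : List (List Bool)) :
    (∃ (n : ℕ) (G : SimpleGraph (Fin n)), adjMatrix G = M ∧ ∃ c, Good G c) ↔
      ∃ w : List ℕ, Rg (M, w) = true := by
  constructor
  · rintro ⟨n, G, rfl, hc⟩
    obtain ⟨f, h1, h2, h3⟩ := (good_iff_num G).1 hc
    refine ⟨List.ofFn f, ?_⟩
    simp only [Rg, Bool.and_eq_true]
    refine ⟨(wf_iff _).2 ⟨n, G, rfl⟩, ?_, ?_, ?_, ?_⟩
    · simp [length_adjMatrix]
    · rw [List.all_eq_true]
      intro a ha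
      rw [List.mem_ofFn] at ha
      obtain ⟨i, rfl⟩ := ha
      simpa [length_adjMatrix] using h1 i
    · exact (chk1_iff G f _ (getD_ofFn f)).2 h2
    · exact (chk2_iff G f _ (getD_ofFn f)).2 h3
  · rintro ⟨w, hw⟩
    simp only [Rg, Bool.and_eq_true, decide_eq_true_eq, List.all_eq_true] at hw
    obtain ⟨h1, h2, h3, h4, h5⟩ := hw
    obtain ⟨n, G, rfl⟩ := (wf_iff M).1 h1
    rw [length_adjMatrix] at h2
    have hl : ∀ i : Fin n, (i : ℕ) < w.length := fun i => by rw [h2]; exact i.isLt
    have hf : ∀ i : Fin n, w.getD i 0 = (fun i : Fin n => w[(i : ℕ)]'(hl i)) i := by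
      intro i
      rw [List.getD_eq_getElem?_getD, List.getElem?_eq_getElem (hl i)]
      rfl
    refine ⟨n, G, rfl, (good_iff_num G).2 ⟨_, ?_, (chk1_iff G _ w hf).1 h4,
      (chk2_iff G _ w hf).1 h5⟩⟩
    intro v
    have := h3 _ (List.getElem_mem (hl v))
    rw [length_adjMatrix] at this
    exact this

attribute [local irreducible] me

theorem all3_poly {α : Type} [TEnc α] {m : α → ℕ} (hm : UPoly m) {F : α → ℕ → ℕ → ℕ → Bool}
    (hF : Poly (fun x : ((α × ℕ) × ℕ) × ℕ => F x.1.1.1 x.1.1.2 x.1.2 x.2)) :
    Poly (fun a => (List.range (m a)).all (fun i => (List.range (m a)).all (fun j =>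
      (List.range (m a)).all (fun k => F a i j k)))) := by
  refine NPC.Poly.all (l := fun a => List.range (m a))
    (p := fun a i => (List.range (m a)).all (fun j => (List.range (m a)).all (F a i j)))
    hm.range ?_
  refine NPC.Poly.all (l := fun x : α × ℕ => List.range (m x.1))
    (p := fun x j => (List.range (m x.1)).all (F x.1 x.2 j))
    (hm.range.comp (NPC.Poly.fst NPC.Poly.id)) ?_
  exact NPC.Poly.all (l := fun x : (α × ℕ) × ℕ => List.range (m x.1.1))
    (p := fun x k => F x.1.1 x.1.2 x.2 k)
    (hm.range.comp (NPC.Poly.fst (NPC.Poly.fst NPC.Poly.id))) hF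

theorem chk1_poly : Poly (fun x : List (List Bool) × List ℕ => chk1 x.1 x.2) := by
  unfold chk1
  refine all2_poly (α := List (List Bool) × List ℕ) (m := fun x => x.1.length)
    (UPoly.length (by fun_prop)) (F := fun x i j =>
      !(me x.1 i j && decide (x.2.getD i 0 = x.2.getD j 0)) || decide (2 ≤ x.2.getD i 0)) ?_
  fun_prop

theorem chk2_poly : Poly (fun x : List (List Bool) × List ℕ => chk2 x.1 x.2) := by
  unfold chk2
  refine all3_poly (α := List (List Bool) × List ℕ) (m := fun x => x.1.length)
    (UPoly.length (by fun_prop)) (F := fun x i j k =>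
      !(me x.1 i j && me x.1 i k && decide (2 ≤ x.2.getD i 0) &&
        decide (x.2.getD i 0 ≤ x.2.getD j 0) &&
        decide (x.2.getD i 0 ≤ x.2.getD k 0)) || decide (j = k)) ?_
  fun_prop

theorem Rg_poly : Poly Rg := by
  unfold Rg
  refine NPC.Poly.and (wf_poly.comp (by fun_prop)) (NPC.Poly.and ?_ (NPC.Poly.and ?_
    (NPC.Poly.and chk1_poly chk2_poly)))
  · have h1 : Poly (fun x : List (List Bool) × List ℕ => x.2.length) :=
      NPC.Poly.length (by fun_prop)
    have h2 : Poly (fun x : List (List Bool) × List ℕ => x.1.length) :=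
      NPC.Poly.length (by fun_prop)
    exact NPC.Poly.dec_eq h1 h2
  · refine NPC.Poly.all (l := fun x : List (List Bool) × List ℕ => x.2)
      (p := fun x a => decide (a ≤ x.1.length + 1)) (by fun_prop) ?_
    have h2 : Poly (fun x : (List (List Bool) × List ℕ) × ℕ => x.1.1.length) :=
      NPC.Poly.length (by fun_prop)
    fun_prop

/-- certificates are short -/
theorem Rg_short {M : List (List Bool)} {w : List ℕ} (h : Rg (M, w) = true) :
    sz w ≤ (4 * Polynomial.X ^ 2 + 20 * Polynomial.X + 20 : Polynomial ℕ).eval (sz M) := by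
  simp only [Rg, Bool.and_eq_true, decide_eq_true_eq, List.all_eq_true] at h
  obtain ⟨_, h4, hlt, _⟩ := h
  have hsz : ∀ a ∈ w, sz a ≤ 4 * (M.length + 1) + 4 := by
    intro a ha
    have h1 := sz_nat_le a
    have h2 := Poly.size_le_self a
    have h3 := hlt a ha
    omega
  have h5 := sz_le_length_mul w _ hsz
  have h1 : M.length ≤ sz M := (length_lt_sz M).le
  simp only [Polynomial.eval_add, Polynomial.eval_mul, Polynomial.eval_pow, Polynomial.eval_X,
    Polynomial.eval_ofNat]
  rw [h4] at h5
  nlinarith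

/-- The partition problem for graphs is in `NP`. -/
theorem inNPP_good : InNPP (fun M : List (List Bool) =>
    ∃ (n : ℕ) (G : SimpleGraph (Fin n)), adjMatrix G = M ∧ ∃ c, Good G c) := by
  refine inNPP_of (R := Rg) Rg_poly (4 * Polynomial.X ^ 2 + 20 * Polynomial.X + 20) ?_
  intro M
  rw [good_iff_cert]
  exact exists_congr fun w => ⟨fun h => ⟨Rg_short h, h⟩, fun h => h.2⟩

end Pool.Agent.H671R2.OOF
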