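import Pool.Agent.H671R2.OOF.Basic

/-!
# Partitions and good colourings (task P)
-/

set_option autoImplicit false

namespace Pool.Agent.H671R2.OOF

open Classical in
/-- A finite graph has an `(𝒪, 𝒪, 𝒟₁)`-partition if and only if it has a good colouring. -/
theorem hasPartition_iff {V : Type} [Finite V] (G : SimpleGraph V) :
    HasPartition G ↔ ∃ c, Good G c := by
  constructor
  · rintro ⟨A, B, F, hU, hAB, hAF, hBF, hA, hB, hF⟩
    refine ⟨fun v => if v ∈ A then 0 else if v ∈ B then 1 else 2, ?_, ?_⟩
    · intro u v huv hc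
      by_cases huA : u ∈ A
      · exfalso
        simp only [huA, if_true] at hc
        have hvA : v ∈ A := by
          by_contra h
          rw [if_neg h] at hc
          split_ifs at hc <;> exact absurd hc (by decide)
        exact hA ⟨u, huA⟩ ⟨v, hvA⟩ huv
      · by_cases huB : u ∈ B
        · exfalso
          simp only [huA, huB, if_true, if_false] at hc
          have hvB : v ∈ B := by
            by_contra h
            rw [if_neg h] at hc
            split_ifs at hc <;> exact absurd hc (by decide)
          exact hB ⟨u, huB⟩ ⟨v, hvB⟩ huv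
        · simp [huA, huB]
    · intro S hS hc
      have hSF : ∀ v ∈ S, v ∈ F := by
        intro v hv
        have h := hc v hv
        have hvA : v ∉ A := by
          intro hv'
          simp [hv'] at h
        have hvB : v ∉ B := by
          intro hv'
          simp [hvA, hv'] at h
        have : v ∈ A ∪ B ∪ F := by rw [hU]; trivial
        rcases this with (h1 | h1) | h1
        · exact absurd h1 hvA
        · exact absurd h1 hvB
        · exact h1
      obtain ⟨v0, hv0⟩ := hS
      obtain ⟨v, hv, hsub⟩ := hF ((⊤ : (G.induce F).Subgraph).induce {x | x.1 ∈ S})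
        ⟨⟨v0, hSF v0 hv0⟩, hv0⟩
      refine ⟨v.1, hv, fun u hu w hw hvu hvw => ?_⟩
      have h1 : (⟨u, hSF u hu⟩ : F) ∈
          ((⊤ : (G.induce F).Subgraph).induce {x | x.1 ∈ S}).neighborSet v :=
        ⟨hv, hu, hvu⟩
      have h2 : (⟨w, hSF w hw⟩ : F) ∈
          ((⊤ : (G.induce F).Subgraph).induce {x | x.1 ∈ S}).neighborSet v :=
        ⟨hv, hw, hvw⟩
      exact congrArg Subtype.val (hsub h1 h2)
  · rintro ⟨c, h1, h2⟩
    have h3 : ∀ i : Fin 3, i = 0 ∨ i = 1 ∨ i = 2 := by decide
    refine ⟨{v | c v = 0}, {v | c v = 1}, {v | c v = 2}, ?_, ?_, ?_, ?_, ?_, ?_, ?_⟩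
    · ext v
      simp only [Set.mem_union, Set.mem_univ, iff_true]
      rcases h3 (c v) with h | h | h
      · exact Or.inl (Or.inl h)
      · exact Or.inl (Or.inr h)
      · exact Or.inr h
    · rw [Set.disjoint_left]
      intro v (hv : c v = 0) (hv' : c v = 1)
      rw [hv] at hv'; exact absurd hv' (by decide)
    · rw [Set.disjoint_left]
      intro v (hv : c v = 0) (hv' : c v = 2)
      rw [hv] at hv'; exact absurd hv' (by decide)
    · rw [Set.disjoint_left]
      intro v (hv : c v = 1) (hv' : c v = 2)
      rw [hv] at hv'; exact absurd hv' (by decide)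
    · rintro ⟨u, hu⟩ ⟨v, hv⟩ huv
      have hu' : c u = 0 := hu
      have hv' : c v = 0 := hv
      have := h1 u v huv (hu'.trans hv'.symm)
      rw [hu'] at this; exact absurd this (by decide)
    · rintro ⟨u, hu⟩ ⟨v, hv⟩ huv
      have hu' : c u = 1 := hu
      have hv' : c v = 1 := hv
      have := h1 u v huv (hu'.trans hv'.symm)
      rw [hu'] at this; exact absurd this (by decide)
    · intro K hK
      have hfin : (Subtype.val '' K.verts).Finite := Set.toFinite _
      obtain ⟨x, hx⟩ := hK
      obtain ⟨v, hv, hsub⟩ := h2 hfin.toFinset ⟨x.1, by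
        rw [Set.Finite.mem_toFinset]; exact ⟨x, hx, rfl⟩⟩ (by
        intro v hv
        rw [Set.Finite.mem_toFinset] at hv
        obtain ⟨y, _, rfl⟩ := hv
        exact y.2)
      rw [Set.Finite.mem_toFinset] at hv
      obtain ⟨y, hy, rfl⟩ := hv
      refine ⟨y, hy, ?_⟩
      intro a ha b hb
      have ha' : K.Adj y a := ha
      have hb' : K.Adj y b := hb
      apply Subtype.ext
      refine hsub a.1 ?_ b.1 ?_ (K.adj_sub ha') (K.adj_sub hb')
      · rw [Set.Finite.mem_toFinset]; exact ⟨a, K.edge_vert ha'.symm, rfl⟩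
      · rw [Set.Finite.mem_toFinset]; exact ⟨b, K.edge_vert hb'.symm, rfl⟩

end Pool.Agent.H671R2.OOF
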