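import Pool.Agent.H671R2.OOF.RedDefs
import Pool.Agent.H671R2.PolyAuto

/-!
# The reduction from 3-colourability: polynomial time
-/

set_option autoImplicit false

namespace Pool.Agent.H671R2.OOF

open Pool.Agent.NPC Pool.Agent.NPC.R671

/-- the directed edges of a tile -/
def tileC (τ : ℕ) : List (ℕ × ℕ) := (List.range 1320).map (fun e => (tl τ e, hd τ e))

/-- the directed edges of a tile, by cases -/
def tileE (τ : ℕ) : List (ℕ × ℕ) :=
  if τ = 0 then tileC 0 else if τ = 1 then tileC 1 else tileC 2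

theorem tileE_eq {τ : ℕ} (h : τ < 3) : tileE τ = tileC τ := by
  unfold tileE
  split_ifs with h1 h2
  · rw [h1]
  · rw [h2]
  · rw [show τ = 2 by omega]

/-- the directed edges of the caps in column `j` at side `s` -/
def capE (n m j s : ℕ) : List (ℕ × ℕ) :=
  [(vt n m 0 j (s + 1), vt n m 0 j s), (vt n m 0 j s, n * m * 220 + 4 * m),
    (n * m * 220 + 4 * m, vt n m 0 j (s + 1)),
    (vt n m (n - 1) j (12 - s), vt n m (n - 1) j (11 - s)),
    (vt n m (n - 1) j (11 - s), n * m * 220 + 4 * m + 1),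
    (n * m * 220 + 4 * m + 1, vt n m (n - 1) j (12 - s))]

/-- all directed edges -/
def edges (E : List (ℕ × ℕ)) : List (ℕ × ℕ) :=
  ((List.range (rows E)).flatMap (fun i => (List.range (colsN E)).flatMap (fun j =>
    (tileE (tyE E i j)).map (fun p => (vt (rows E) (colsN E) i j p.1,
      vt (rows E) (colsN E) i j p.2))))) ++
  ((List.range (colsN E)).flatMap (fun j =>
    capE (rows E) (colsN E) j 0 ++ (capE (rows E) (colsN E) j 1 ++
      (capE (rows E) (colsN E) j 2 ++ capE (rows E) (colsN E) j 3))))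

theorem mem_capE {n m : ℕ} {ty : ℕ → ℕ → ℕ} (hty : ∀ i j, ty i j < 3) (j : Fin m) (s : Fin 4)
    (x : ℕ × ℕ) : x ∈ capE n m j s ↔
      ∃ b t, tn n m ty (Sum.inr (b, j, s, t)) = x.1 ∧
        tn n m ty (pn n m ty hty (Sum.inr (b, j, s, t))) = x.2 := by
  obtain ⟨x1, x2⟩ := x
  unfold capE
  simp only [List.mem_cons, List.not_mem_nil, or_false, Prod.mk.injEq]
  constructor
  · rintro (⟨rfl, rfl⟩ | ⟨rfl, rfl⟩ | ⟨rfl, rfl⟩ | ⟨rfl, rfl⟩ | ⟨rfl, rfl⟩ | ⟨rfl, rfl⟩)
    · exact ⟨false, 0, tn_top j s, tn_top' j s⟩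
    · exact ⟨false, 1, tn_top' j s, tn_pole false j s⟩
    · exact ⟨false, 2, tn_pole false j s, tn_top j s⟩
    · exact ⟨true, 0, tn_bot j s, tn_bot' j s⟩
    · exact ⟨true, 1, tn_bot' j s, tn_pole true j s⟩
    · exact ⟨true, 2, tn_pole true j s, tn_bot j s⟩
  · rintro ⟨b, t, h⟩
    revert h
    cases b
    · refine case3 (P := fun t => tn n m ty (Sum.inr (false, j, s, t)) = x1 ∧
        tn n m ty (pn n m ty hty (Sum.inr (false, j, s, t))) = x2 → _) ?_ ?_ ?_ t
      · rw [pn0, tn_top, tn_top']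
        rintro ⟨rfl, rfl⟩
        tauto
      · rw [pn1, tn_top', tn_pole]
        rintro ⟨rfl, rfl⟩
        simp
      · rw [pn2, tn_top, tn_pole]
        rintro ⟨rfl, rfl⟩
        simp
    · refine case3 (P := fun t => tn n m ty (Sum.inr (true, j, s, t)) = x1 ∧
        tn n m ty (pn n m ty hty (Sum.inr (true, j, s, t))) = x2 → _) ?_ ?_ ?_ t
      · rw [pn0, tn_bot, tn_bot']
        rintro ⟨rfl, rfl⟩
        tauto
      · rw [pn1, tn_bot', tn_pole]
        rintro ⟨rfl, rfl⟩
        simp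
      · rw [pn2, tn_bot, tn_pole]
        rintro ⟨rfl, rfl⟩
        simp

theorem mem_edges (E : List (ℕ × ℕ)) (x : ℕ × ℕ) : x ∈ edges E ↔
    ∃ d, tn (rows E) (colsN E) (tyE E) d = x.1 ∧
      tn (rows E) (colsN E) (tyE E) (pn (rows E) (colsN E) (tyE E) (tyE_lt E) d) = x.2 := by
  obtain ⟨x1, x2⟩ := x
  unfold edges
  rw [List.mem_append, List.mem_flatMap, List.mem_flatMap]
  constructor
  · rintro (⟨i, hi, h⟩ | ⟨j, hj, h⟩)
    · rw [List.mem_flatMap] at h
      obtain ⟨j, hj, h⟩ := h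
      rw [List.mem_range] at hi hj
      rw [tileE_eq (tyE_lt E i j), tileC, List.mem_map] at h
      obtain ⟨p, hp, h⟩ := h
      rw [List.mem_map] at hp
      obtain ⟨e, he, rfl⟩ := hp
      rw [List.mem_range] at he
      simp only [Prod.mk.injEq] at h
      obtain ⟨rfl, rfl⟩ := h
      exact ⟨Sum.inl (⟨i, hi⟩, ⟨j, hj⟩, ⟨e, he⟩), rfl, rfl⟩
    · rw [List.mem_range] at hj
      simp only [List.mem_append] at h
      rcases h with h | h | h | h
      · obtain ⟨b, t, h1⟩ := (mem_capE (tyE_lt E) ⟨j, hj⟩ 0 _).1 h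
        exact ⟨_, h1⟩
      · obtain ⟨b, t, h1⟩ := (mem_capE (tyE_lt E) ⟨j, hj⟩ 1 _).1 h
        exact ⟨_, h1⟩
      · obtain ⟨b, t, h1⟩ := (mem_capE (tyE_lt E) ⟨j, hj⟩ 2 _).1 h
        exact ⟨_, h1⟩
      · obtain ⟨b, t, h1⟩ := (mem_capE (tyE_lt E) ⟨j, hj⟩ 3 _).1 h
        exact ⟨_, h1⟩
  · rintro ⟨⟨i, j, e⟩ | ⟨b, j, s, t⟩, h1, h2⟩
    · left
      refine ⟨i, List.mem_range.2 i.2, ?_⟩
      rw [List.mem_flatMap]
      refine ⟨j, List.mem_range.2 j.2, ?_⟩
      rw [tileE_eq (tyE_lt E i j), tileC, List.mem_map]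
      refine ⟨(tl (tyE E i j) e, hd (tyE E i j) e), ?_, ?_⟩
      · rw [List.mem_map]
        exact ⟨e, List.mem_range.2 e.2, rfl⟩
      · exact Prod.ext h1 h2
    · right
      refine ⟨j, List.mem_range.2 j.2, ?_⟩
      have h3 := (mem_capE (tyE_lt E) j s (x1, x2)).2 ⟨b, t, h1, h2⟩
      simp only [List.mem_append]
      have hs : s = 0 ∨ s = 1 ∨ s = 2 ∨ s = 3 := by
        have fin : ∀ s : Fin 4, s = 0 ∨ s = 1 ∨ s = 2 ∨ s = 3 := by decide
        exact fin s
      rcases hs with rfl | rfl | rfl | rfl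
      · exact Or.inl h3
      · exact Or.inr (Or.inl h3)
      · exact Or.inr (Or.inr (Or.inl h3))
      · exact Or.inr (Or.inr (Or.inr h3))

theorem gr_adj (E : List (ℕ × ℕ)) (u v : Fin (vn E)) :
    (redG E).Adj u v ↔ ((u : ℕ), (v : ℕ)) ∈ edges E := by
  rw [mem_edges]
  exact grid_adj _ _ _ _ _ _ u v

theorem gr_matrix (E : List (ℕ × ℕ)) : adjMatrix (redG E) =
    (List.range (vn E)).map (fun u => (List.range (vn E)).map (fun w =>
      decide ((u, w) ∈ edges E))) := by
  unfold adjMatrix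
  apply List.ext_getElem
  · simp
  · intro i h1 h2
    rw [List.getElem_ofFn, List.getElem_map, List.getElem_range]
    apply List.ext_getElem
    · simp
    · intro j h3 h4
      rw [List.getElem_ofFn, List.getElem_map, List.getElem_range]
      rw [decide_eq_decide]
      exact gr_adj E _ _

variable {α : Type} [TEnc α]

theorem di_poly {a : α → ℕ} (ha : Poly a) : Poly (fun x => di (a x)) := by
  unfold di
  fun_prop

theorem dj_poly {a : α → ℕ} (ha : Poly a) : Poly (fun x => dj (a x)) := by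
  unfold dj
  fun_prop

theorem ky_poly {a : α → ℕ} (ha : Poly a) : Poly (fun x => ky (a x)) := by
  unfold ky
  fun_prop

theorem cd_poly {n m i j k : α → ℕ} (hn : Poly n) (hm : Poly m) (hi : Poly i) (hj : Poly j)
    (hk : Poly k) : Poly (fun x => cd (n x) (m x) (i x) (j x) (k x)) := by
  unfold cd
  fun_prop

attribute [fun_prop] di_poly dj_poly ky_poly cd_poly

theorem vt_poly {n m i j a : α → ℕ} (hn : Poly n) (hm : Poly m) (hi : Poly i) (hj : Poly j)
    (ha : Poly a) : Poly (fun x => vt (n x) (m x) (i x) (j x) (a x)) := by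
  unfold vt
  fun_prop

attribute [fun_prop] vt_poly

theorem rows_poly {E : α → List (ℕ × ℕ)} (h : Poly E) : Poly (fun x => rows (E x)) := by
  unfold rows
  fun_prop

theorem colsN_poly {E : α → List (ℕ × ℕ)} (h : Poly E) : Poly (fun x => colsN (E x)) := by
  unfold colsN
  fun_prop

theorem ed_poly {E : α → List (ℕ × ℕ)} {j : α → ℕ} (h : Poly E) (hj : Poly j) :
    Poly (fun x => ed (E x) (j x)) := by
  unfold ed
  fun_prop

attribute [fun_prop] rows_poly colsN_poly ed_poly

theorem tyE_poly {E : α → List (ℕ × ℕ)} {i j : α → ℕ} (h : Poly E) (hi : Poly i) (hj : Poly j) :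
    Poly (fun x => tyE (E x) (i x) (j x)) := by
  unfold tyE
  fun_prop

attribute [fun_prop] tyE_poly
attribute [local irreducible] tileC vt di dj ky cd rows colsN ed tyE

theorem tileE_poly {τ : α → ℕ} (h : Poly τ) : Poly (fun x => tileE (τ x)) := by
  unfold tileE
  fun_prop

attribute [fun_prop] tileE_poly
attribute [local irreducible] tileE

theorem capE_poly {n m j s : α → ℕ} (hn : Poly n) (hm : Poly m) (hj : Poly j) (hs : Poly s) :
    Poly (fun x => capE (n x) (m x) (j x) (s x)) := by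
  unfold capE
  fun_prop

attribute [fun_prop] capE_poly
attribute [local irreducible] capE

theorem rows_upoly {E : α → List (ℕ × ℕ)} (h : Poly E) : UPoly (fun x => rows (E x)) := by
  unfold rows
  exact UPoly.add (UPoly.mul (UPoly.const 2) (UPoly.length h)) (UPoly.const 2)

theorem colsN_upoly {E : α → List (ℕ × ℕ)} (h : Poly E) : UPoly (fun x => colsN (E x)) := by
  unfold colsN
  exact UPoly.add (UPoly.length h) (UPoly.const 3)

theorem vn_upoly {E : α → List (ℕ × ℕ)} (h : Poly E) : UPoly (fun x => vn (E x)) := by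
  unfold vn
  exact UPoly.add (UPoly.add (UPoly.mul (UPoly.mul (rows_upoly h) (colsN_upoly h)) (UPoly.const _))
    (UPoly.mul (UPoly.const _) (colsN_upoly h))) (UPoly.const _)

theorem edges_poly : Poly edges := by
  unfold edges
  refine NPC.Poly.append ?_ ?_
  · refine NPC.Poly.flatMap (l := fun E => List.range (rows E))
      (F := fun E i => (List.range (colsN E)).flatMap (fun j =>
        (tileE (tyE E i j)).map (fun p => (vt (rows E) (colsN E) i j p.1,
          vt (rows E) (colsN E) i j p.2)))) (rows_upoly NPC.Poly.id).range ?_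
    refine NPC.Poly.flatMap (l := fun x : List (ℕ × ℕ) × ℕ => List.range (colsN x.1))
      (F := fun x j => (tileE (tyE x.1 x.2 j)).map (fun p => (vt (rows x.1) (colsN x.1) x.2 j p.1,
          vt (rows x.1) (colsN x.1) x.2 j p.2)))
      (colsN_upoly (NPC.Poly.fst NPC.Poly.id)).range ?_
    fun_prop
  · refine NPC.Poly.flatMap (l := fun E => List.range (colsN E))
      (F := fun E j => capE (rows E) (colsN E) j 0 ++ (capE (rows E) (colsN E) j 1 ++
      (capE (rows E) (colsN E) j 2 ++ capE (rows E) (colsN E) j 3)))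
      (colsN_upoly NPC.Poly.id).range ?_
    fun_prop

attribute [local irreducible] edges

theorem gr_poly : Poly (fun E : List (ℕ × ℕ) => adjMatrix (redG E)) := by
  have h1 : Poly (fun E : List (ℕ × ℕ) => (List.range (vn E)).map (fun u =>
      (List.range (vn E)).map (fun w => decide ((u, w) ∈ edges E)))) := by
    refine NPC.Poly.map (l := fun E => List.range (vn E))
      (F := fun E u => (List.range (vn E)).map (fun w => decide ((u, w) ∈ edges E)))
      (vn_upoly NPC.Poly.id).range ?_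
    refine NPC.Poly.map (l := fun x : List (ℕ × ℕ) × ℕ => List.range (vn x.1))
      (F := fun x w => decide ((x.2, w) ∈ edges x.1))
      (vn_upoly (NPC.Poly.fst NPC.Poly.id)).range ?_
    exact NPC.Poly.dec_mem (NPC.Poly.pair (NPC.Poly.snd (NPC.Poly.fst NPC.Poly.id))
      (NPC.Poly.snd NPC.Poly.id)) (edges_poly.comp (NPC.Poly.fst (NPC.Poly.fst NPC.Poly.id)))
  exact h1.congr fun E => (gr_matrix E).symm

end Pool.Agent.H671R2.OOF
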