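import Pool.Agent.H671R2.OOF.Red
import Pool.Agent.H671R2.OOF.RedPoly
import Pool.Agent.H671R2.OOF.Complete
import Pool.Agent.H671R2.OOF.Part
import Pool.Agent.H671R2.OOF.NP

/-!
# `(𝒪, 𝒪, 𝒟₁)`-partition is NP-complete on maximal planar graphs
-/

set_option autoImplicit false

namespace Pool.Agent.H671R2.OOF

open Pool.Agent.NPC Pool.Agent.NPC.R671 Pool.Agent.H692R2

theorem gr_iff (E : List (ℕ × ℕ)) (hE : PrB E) : Col 3 E ↔ HasPartition (redG E) := by
  rw [hasPartition_iff]
  constructor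
  · intro h
    obtain ⟨a, v, H⟩ := gr_complete_aux E hE h
    exact grid_complete _ _ _ _ _ _ a v H
  · exact gr_sound E hE

theorem inNPP_partition : InNPP (fun M : List (List Bool) =>
    ∃ (n : ℕ) (G : SimpleGraph (Fin n)), adjMatrix G = M ∧ HasPartition G) := by
  have h := inNPP_good
  have h1 : (fun M : List (List Bool) =>
      ∃ (n : ℕ) (G : SimpleGraph (Fin n)), adjMatrix G = M ∧ HasPartition G) =
      (fun M : List (List Bool) =>
      ∃ (n : ℕ) (G : SimpleGraph (Fin n)), adjMatrix G = M ∧ ∃ c, Good G c) := by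
    funext M
    simp only [hasPartition_iff]
  rw [h1]
  exact h

theorem hard_maximalPlanar (L : Set (List Bool)) (hL : InNP L) :
    ∃ f : List Bool → List Bool, PolyTime f ∧ ∀ w, ∃ (n : ℕ) (G : SimpleGraph (Fin n)),
      f w = bits (adjMatrix G) ∧ MaximalPlanar G ∧ (w ∈ L ↔ HasPartition G) := by
  obtain ⟨g, hg, hp, hgL⟩ := hardPr_colB L hL
  refine ⟨fun w => bits (adjMatrix (redG (g w))), PC.toPolyTime_bits gr_poly g hg, fun w => ?_⟩
  exact ⟨_, redG (g w), rfl, gr_maximalPlanar _, by rw [hgL w, gr_iff _ (hp w)]⟩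

end Pool.Agent.H671R2.OOF
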