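import Pool.Agent.H671R2.OOF.Code

/-!
# The triangulation made of a cylinder of tiles and two caps
-/

set_option autoImplicit false

namespace Pool.Agent.H671R2.OOF

/-- A triangulation, given without the reversal map. -/
noncomputable def TriSys.mk' {V D : Type} (tail : D → V) (phi : D → D)
    (phi3 : ∀ d, phi (phi (phi d)) = d)
    (inj : ∀ d d', tail d = tail d' → tail (phi d) = tail (phi d') → d = d')
    (ne : ∀ d, tail (phi d) ≠ tail d) (surj : ∀ v, ∃ d, tail d = v)
    (hrev : ∀ d, ∃ d', tail d' = tail (phi d) ∧ tail (phi d') = tail d)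
    (conn : ∀ d d', Relation.EqvGen
      (fun a b => b = phi a ∨ (tail b = tail (phi a) ∧ tail (phi b) = tail a)) d d') :
    TriSys V D where
  tail := tail
  phi := phi
  rev d := (hrev d).choose
  phi3 := phi3
  rev2 d := by
    apply inj
    · rw [(hrev _).choose_spec.1, (hrev _).choose_spec.2]
    · rw [(hrev _).choose_spec.2, (hrev _).choose_spec.1]
  tail_rev d := (hrev d).choose_spec.1
  inj := inj
  ne := ne
  surj := surj
  conn d d' := by
    refine Relation.EqvGen.mono ?_ _ _ (conn d d')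
    rintro a b (h | ⟨h1, h2⟩)
    · exact Or.inl h
    · right
      apply inj
      · rw [(hrev _).choose_spec.1, h1]
      · rw [(hrev _).choose_spec.2, h2]

/-- the directed edges: those of the tiles and those of the caps -/
abbrev Da (n m : ℕ) : Type := (Fin n × Fin m × Fin 1320) ⊕ (Bool × Fin m × Fin 4 × Fin 3)

section

variable (n m : ℕ) (ty : ℕ → ℕ → ℕ)

/-- the number of the tail -/
def tn : Da n m → ℕ
  | Sum.inl (i, j, e) => vt n m i j (tl (ty i j) e)
  | Sum.inr (b, j, s, t) =>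
    if (t : ℕ) = 2 then n * m * 220 + 4 * m + (if b then 1 else 0)
    else if b then vt n m (n - 1) j (12 - s - t) else vt n m 0 j (s + 1 - t)

/-- the next directed edge -/
def pn (hty : ∀ i j, ty i j < 3) : Da n m → Da n m
  | Sum.inl (i, j, e) => Sum.inl (i, j, ⟨ph (ty i j) e, ph_lt (hty _ _) e.2⟩)
  | Sum.inr (b, j, s, t) => Sum.inr (b, j, s, t + 1)

variable {n m ty}

theorem tn_lt (hn : 0 < n) (hty : ∀ i j, ty i j < 3) (d : Da n m) :
    tn n m ty d < n * m * 220 + 4 * m + 2 := by
  rcases d with ⟨i, j, e⟩ | ⟨b, j, s, t⟩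
  · have := vt_lt i.2 j.2 (tl_lt (hty i j) e.2)
    simp only [tn]
    omega
  · have hs := s.2
    have ht := t.2
    have h1 := vt_lt (n := n) (m := m) (i := n - 1) (a := 12 - s - t) (by omega) j.2 (by omega)
    have h2 := vt_lt (n := n) (m := m) (i := 0) (a := s + 1 - t) (by omega) j.2 (by omega)
    simp only [tn]
    split_ifs <;> omega

theorem tn_tile (i : Fin n) (j : Fin m) (e : Fin 1320) :
    tn n m ty (Sum.inl (i, j, e)) = vt n m i j (tl (ty i j) e) := rfl

theorem tn_tile' (hty : ∀ i j, ty i j < 3) (i : Fin n) (j : Fin m) (e : Fin 1320) :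
    tn n m ty (pn n m ty hty (Sum.inl (i, j, e))) = vt n m i j (hd (ty i j) e) := rfl

theorem tn_pole (b : Bool) (j : Fin m) (s : Fin 4) :
    tn n m ty (Sum.inr (b, j, s, 2)) = n * m * 220 + 4 * m + (if b then 1 else 0) := rfl

theorem tn_bot (j : Fin m) (s : Fin 4) :
    tn n m ty (Sum.inr (true, j, s, 0)) = vt n m (n - 1) j (12 - s) := rfl

theorem tn_bot' (j : Fin m) (s : Fin 4) :
    tn n m ty (Sum.inr (true, j, s, 1)) = vt n m (n - 1) j (11 - s) := by
  have : 12 - (s : ℕ) - 1 = 11 - s := by omega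
  simp only [tn]
  rw [if_neg (by decide), if_pos trivial, ← this]
  rfl

theorem tn_top (j : Fin m) (s : Fin 4) :
    tn n m ty (Sum.inr (false, j, s, 0)) = vt n m 0 j (s + 1) := rfl

theorem tn_top' (j : Fin m) (s : Fin 4) :
    tn n m ty (Sum.inr (false, j, s, 1)) = vt n m 0 j s := rfl

theorem pn0 (hty : ∀ i j, ty i j < 3) (b : Bool) (j : Fin m) (s : Fin 4) :
    pn n m ty hty (Sum.inr (b, j, s, 0)) = Sum.inr (b, j, s, 1) := rfl

theorem pn1 (hty : ∀ i j, ty i j < 3) (b : Bool) (j : Fin m) (s : Fin 4) :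
    pn n m ty hty (Sum.inr (b, j, s, 1)) = Sum.inr (b, j, s, 2) := rfl

theorem pn2 (hty : ∀ i j, ty i j < 3) (b : Bool) (j : Fin m) (s : Fin 4) :
    pn n m ty hty (Sum.inr (b, j, s, 2)) = Sum.inr (b, j, s, 0) := rfl

theorem pn3 (hty : ∀ i j, ty i j < 3) (d : Da n m) :
    pn n m ty hty (pn n m ty hty (pn n m ty hty d)) = d := by
  rcases d with ⟨i, j, e⟩ | ⟨b, j, s, t⟩
  · simp only [pn]
    congr 3
    exact Fin.ext (ph3 (hty i j) e.2)
  · simp only [pn]
    congr 4
    revert t
    decide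

theorem case3 {P : Fin 3 → Prop} (h0 : P 0) (h1 : P 1) (h2 : P 2) (t : Fin 3) : P t := by
  have h : t = 0 ∨ t = 1 ∨ t = 2 := by revert t; decide
  rcases h with rfl | rfl | rfl
  · exact h0
  · exact h1
  · exact h2

/-- labels of the rim vertices: top -/
theorem top_label {i j j' s a : ℕ} (hn : 0 < n) (hi : i < n) (hj : j < m) (ha : a < 229)
    (hj' : j' < m) (hs : s < 5) (h : vt n m i j a = vt n m 0 j' s) :
    i + di a = 0 ∧ (j + dj a) % m = (j' + dj s) % m ∧ ky a = ky s := by
  obtain ⟨h1, h2, h3⟩ := vt_label hi hj ha hn hj' (show s < 229 by omega) h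
  refine ⟨?_, h2, h3⟩
  rw [h1]
  unfold di
  rw [if_neg (by omega)]

/-- labels of the rim vertices: bottom -/
theorem bot_label {i j j' s a : ℕ} (hn : 0 < n) (hi : i < n) (hj : j < m) (ha : a < 229)
    (hj' : j' < m) (hs : 8 ≤ s ∧ s < 13) (h : vt n m i j a = vt n m (n - 1) j' s) :
    i + di a = n ∧ (j + dj a) % m = (j' + dj s) % m ∧ ky a = ky s := by
  obtain ⟨h1, h2, h3⟩ := vt_label hi hj ha (show n - 1 < n by omega) hj' (show s < 229 by omega) h
  refine ⟨?_, h2, h3⟩
  rw [h1]
  unfold di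
  rw [if_pos (by omega)]
  omega

theorem tn_pole_ne (hn : 0 < n) (hty : ∀ i j, ty i j < 3) (b : Bool) (j : Fin m) (s : Fin 4)
    (d : Da n m) (h : tn n m ty d = tn n m ty (Sum.inr (b, j, s, 2))) :
    ∃ j' s', d = Sum.inr (b, j', s', 2) := by
  rw [tn_pole] at h
  rcases d with ⟨i, j', e⟩ | ⟨b', j', s', t⟩
  · have := vt_lt i.2 j'.2 (tl_lt (hty i j') e.2)
    rw [tn_tile] at h
    omega
  · refine ⟨j', s', ?_⟩
    have hs := s'.2
    revert h
    refine case3 (P := fun t => tn n m ty (Sum.inr (b', j', s', t)) =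
      n * m * 220 + 4 * m + (if b then 1 else 0) →
      (Sum.inr (b', j', s', t) : Da n m) = Sum.inr (b, j', s', 2)) ?_ ?_ ?_ t
    · intro h
      cases b'
      · rw [tn_top] at h
        have := vt_lt (n := n) (m := m) (i := 0) (a := (s' : ℕ) + 1) hn j'.2 (by omega)
        omega
      · rw [tn_bot] at h
        have := vt_lt (n := n) (m := m) (i := n - 1) (a := 12 - (s' : ℕ)) (by omega) j'.2 (by omega)
        omega
    · intro h
      cases b'
      · rw [tn_top'] at h
        have := vt_lt (n := n) (m := m) (i := 0) (a := (s' : ℕ)) hn j'.2 (by omega)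
        omega
      · rw [tn_bot'] at h
        have := vt_lt (n := n) (m := m) (i := n - 1) (a := 11 - (s' : ℕ)) (by omega) j'.2 (by omega)
        omega
    · intro h
      rw [tn_pole] at h
      cases b <;> cases b' <;> simp at h ⊢

end

end Pool.Agent.H671R2.OOF
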