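import Pool.Agent.H671R2.OOF.Grid

/-!
# The triangulation made of a cylinder of tiles and two caps: injectivity, surjectivity, reversal
-/

set_option autoImplicit false

namespace Pool.Agent.H671R2.OOF

variable {n m : ℕ} {ty : ℕ → ℕ → ℕ}

theorem small_of_ky {a s : ℕ} (hs : s < 16) (h : ky a = ky s) : a < 16 := by
  by_contra h1
  have h2 := ky_small hs
  rw [← h, ky_big (by omega)] at h2
  omega

theorem tile_tile (hm : 2 ≤ m) (hty : ∀ i j, ty i j < 3) (i i' : Fin n) (j j' : Fin m)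
    (e e' : Fin 1320)
    (h1 : vt n m i j (tl (ty i j) e) = vt n m i' j' (tl (ty i' j') e'))
    (h2 : vt n m i j (hd (ty i j) e) = vt n m i' j' (hd (ty i' j') e')) :
    (i, j, e) = (i', j', e') := by
  have b1 := tl_lt (hty i j) e.2
  have b2 := hd_lt (hty i j) e.2
  have b1' := tl_lt (hty i' j') e'.2
  have b2' := hd_lt (hty i' j') e'.2
  have key : (i : ℕ) = i' ∧ (j : ℕ) = j' := by
    by_cases c1 : 16 ≤ tl (ty i j) e
    · have := vt_big i.2 j.2 b1 i'.2 j'.2 b1' h1 c1
      exact ⟨this.1, this.2.1⟩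
    by_cases c2 : 16 ≤ hd (ty i j) e
    · have := vt_big i.2 j.2 b2 i'.2 j'.2 b2' h2 c2
      exact ⟨this.1, this.2.1⟩
    by_cases c3 : 16 ≤ tl (ty i' j') e'
    · have := vt_big i'.2 j'.2 b1' i.2 j.2 b1 h1.symm c3
      omega
    by_cases c4 : 16 ≤ hd (ty i' j') e'
    · have := vt_big i'.2 j'.2 b2' i.2 j.2 b2 h2.symm c4
      omega
    obtain ⟨a, ha, hea⟩ := eq_bd (hty i j) e.2 (by omega) (by omega)
    obtain ⟨a', ha', hea'⟩ := eq_bd (hty i' j') e'.2 (by omega) (by omega)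
    rw [hea, hea', tl_bd (hty _ _) ha, tl_bd (hty _ _) ha'] at h1
    rw [hea, hea', hd_bd (hty _ _) ha, hd_bd (hty _ _) ha'] at h2
    have := vt_bdry i.2 j.2 ha i'.2 j'.2 ha' h1 h2
    exact ⟨this.1, this.2.1⟩
  have hi := Fin.ext key.1
  have hj := Fin.ext key.2
  subst hi
  subst hj
  have h3 := vt_inj hm i.2 j.2 b1 b1' h1
  have h4 := vt_inj hm i.2 j.2 b2 b2' h2
  rw [Fin.ext (dart_inj (hty i j) e.2 e'.2 h3 h4)]

theorem tile_top (hn : 0 < n) (hty : ∀ i j, ty i j < 3) (i : Fin n) (j j' : Fin m)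
    (e : Fin 1320) (s : Fin 4) (h1 : vt n m i j (tl (ty i j) e) = vt n m 0 j' (s + 1))
    (h2 : vt n m i j (hd (ty i j) e) = vt n m 0 j' s) : False := by
  have b1 := tl_lt (hty i j) e.2
  have b2 := hd_lt (hty i j) e.2
  have hs := s.2
  obtain ⟨r1, _, k1⟩ := top_label hn i.2 j.2 b1 j'.2 (by omega) h1
  obtain ⟨_, _, k2⟩ := top_label hn i.2 j.2 b2 j'.2 (by omega) h2
  obtain ⟨a, ha, hea⟩ := eq_bd (hty i j) e.2 (small_of_ky (by omega) k1)
    (small_of_ky (by omega) k2)
  rw [hea, tl_bd (hty _ _) ha] at r1 k1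
  rw [hea, hd_bd (hty _ _) ha] at k2
  have fin : ∀ s < 4, ∀ a < 16, ky a = ky (s + 1) → ky ((a + 1) % 16) = ky s → di a = 1 := by
    decide
  have := fin s hs a ha k1 k2
  omega

theorem tile_bot (hn : 0 < n) (hty : ∀ i j, ty i j < 3) (i : Fin n) (j j' : Fin m)
    (e : Fin 1320) (s : Fin 4) (h1 : vt n m i j (tl (ty i j) e) = vt n m (n - 1) j' (12 - s))
    (h2 : vt n m i j (hd (ty i j) e) = vt n m (n - 1) j' (11 - s)) : False := by
  have b1 := tl_lt (hty i j) e.2
  have b2 := hd_lt (hty i j) e.2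
  have hs := s.2
  obtain ⟨r1, _, k1⟩ := bot_label hn i.2 j.2 b1 j'.2 (by omega) h1
  obtain ⟨_, _, k2⟩ := bot_label hn i.2 j.2 b2 j'.2 (by omega) h2
  obtain ⟨a, ha, hea⟩ := eq_bd (hty i j) e.2 (small_of_ky (by omega) k1)
    (small_of_ky (by omega) k2)
  rw [hea, tl_bd (hty _ _) ha] at r1 k1
  rw [hea, hd_bd (hty _ _) ha] at k2
  have fin : ∀ s < 4, ∀ a < 16, ky a = ky (12 - s) → ky ((a + 1) % 16) = ky (11 - s) →
      di a = 0 := by decide
  have := fin s hs a ha k1 k2
  have := i.2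
  omega

theorem top_inj0 (hn : 0 < n) (j j' : Fin m) (s s' : Fin 4)
    (h : vt n m 0 j (s + 1) = vt n m 0 j' (s' + 1)) : j = j' ∧ s = s' := by
  have hs := s.2
  have hs' := s'.2
  obtain ⟨_, h2, h3⟩ := top_label hn hn j.2 (by omega) j'.2 (by omega) h
  have fin : ∀ s < 4, ∀ s' < 4, ky (s + 1) = ky (s' + 1) → s = s' := by decide
  have h4 := fin s hs s' hs' h3
  rw [h4] at h2
  exact ⟨Fin.ext (mod_inj j.2 j'.2 (dj_le _) h2), Fin.ext h4⟩

theorem top_inj1 (hn : 0 < n) (j j' : Fin m) (s s' : Fin 4)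
    (h : vt n m 0 j s = vt n m 0 j' s') : j = j' ∧ s = s' := by
  have hs := s.2
  have hs' := s'.2
  obtain ⟨_, h2, h3⟩ := top_label hn hn j.2 (by omega) j'.2 (by omega) h
  have fin : ∀ s < 4, ∀ s' < 4, ky s = ky s' → s = s' := by decide
  have h4 := fin s hs s' hs' h3
  rw [h4] at h2
  exact ⟨Fin.ext (mod_inj j.2 j'.2 (dj_le _) h2), Fin.ext h4⟩

theorem bot_inj0 (hn : 0 < n) (j j' : Fin m) (s s' : Fin 4)
    (h : vt n m (n - 1) j (12 - s) = vt n m (n - 1) j' (12 - s')) : j = j' ∧ s = s' := by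
  have hs := s.2
  have hs' := s'.2
  obtain ⟨_, h2, h3⟩ := bot_label hn (show n - 1 < n by omega) j.2 (by omega) j'.2 (by omega) h
  have fin : ∀ s < 4, ∀ s' < 4, ky (12 - s) = ky (12 - s') → s = s' := by decide
  have h4 := fin s hs s' hs' h3
  rw [h4] at h2
  exact ⟨Fin.ext (mod_inj j.2 j'.2 (dj_le _) h2), Fin.ext h4⟩

theorem bot_inj1 (hn : 0 < n) (j j' : Fin m) (s s' : Fin 4)
    (h : vt n m (n - 1) j (11 - s) = vt n m (n - 1) j' (11 - s')) : j = j' ∧ s = s' := by
  have hs := s.2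
  have hs' := s'.2
  obtain ⟨_, h2, h3⟩ := bot_label hn (show n - 1 < n by omega) j.2 (by omega) j'.2 (by omega) h
  have fin : ∀ s < 4, ∀ s' < 4, ky (11 - s) = ky (11 - s') → s = s' := by decide
  have h4 := fin s hs s' hs' h3
  rw [h4] at h2
  exact ⟨Fin.ext (mod_inj j.2 j'.2 (dj_le _) h2), Fin.ext h4⟩

theorem top_bot (hn : 0 < n) (j j' : Fin m) (s s' : Fin 4)
    (h : vt n m 0 j (s + 1) = vt n m (n - 1) j' (12 - s')) : False := by
  have hs := s.2
  have hs' := s'.2
  obtain ⟨h1, _, _⟩ := bot_label hn hn j.2 (show (s : ℕ) + 1 < 229 by omega) j'.2 (by omega) h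
  have h2 : di ((s : ℕ) + 1) = 0 := by
    unfold di
    rw [if_neg (by omega)]
  omega

theorem tn_inj (hn : 0 < n) (hm : 2 ≤ m) (hty : ∀ i j, ty i j < 3) (d d' : Da n m)
    (h1 : tn n m ty d = tn n m ty d')
    (h2 : tn n m ty (pn n m ty hty d) = tn n m ty (pn n m ty hty d')) : d = d' := by
  rcases d with ⟨i, j, e⟩ | ⟨b, j, s, t⟩ <;> rcases d' with ⟨i', j', e'⟩ | ⟨b', j', s', t'⟩
  · rw [tn_tile, tn_tile] at h1
    rw [tn_tile', tn_tile'] at h2
    rw [tile_tile hm hty i i' j j' e e' h1 h2]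
  · exfalso
    revert h1 h2
    refine case3 (P := fun t' => tn n m ty (Sum.inl (i, j, e)) = tn n m ty (Sum.inr (b', j', s', t'))
      → tn n m ty (pn n m ty hty (Sum.inl (i, j, e))) =
        tn n m ty (pn n m ty hty (Sum.inr (b', j', s', t'))) → False) ?_ ?_ ?_ t'
    · intro h1 h2
      rw [pn0] at h2
      rw [tn_tile'] at h2
      rw [tn_tile] at h1
      cases b'
      · rw [tn_top] at h1
        rw [tn_top'] at h2
        exact tile_top hn hty _ _ _ _ _ h1 h2
      · rw [tn_bot] at h1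
        rw [tn_bot'] at h2
        exact tile_bot hn hty _ _ _ _ _ h1 h2
    · intro _ h2
      rw [pn1] at h2
      obtain ⟨_, _, h3⟩ := tn_pole_ne hn hty _ _ _ _ h2
      simp [pn] at h3
    · intro h1 _
      obtain ⟨_, _, h3⟩ := tn_pole_ne hn hty _ _ _ _ h1
      simp at h3
  · exfalso
    revert h1 h2
    refine case3 (P := fun t => tn n m ty (Sum.inr (b, j, s, t)) = tn n m ty (Sum.inl (i', j', e'))
      → tn n m ty (pn n m ty hty (Sum.inr (b, j, s, t))) =
        tn n m ty (pn n m ty hty (Sum.inl (i', j', e'))) → False) ?_ ?_ ?_ t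
    · intro h1 h2
      rw [pn0] at h2
      rw [tn_tile'] at h2
      rw [tn_tile] at h1
      cases b
      · rw [tn_top] at h1
        rw [tn_top'] at h2
        exact tile_top hn hty _ _ _ _ _ h1.symm h2.symm
      · rw [tn_bot] at h1
        rw [tn_bot'] at h2
        exact tile_bot hn hty _ _ _ _ _ h1.symm h2.symm
    · intro _ h2
      rw [pn1] at h2
      obtain ⟨_, _, h3⟩ := tn_pole_ne hn hty _ _ _ _ h2.symm
      simp [pn] at h3
    · intro h1 _
      obtain ⟨_, _, h3⟩ := tn_pole_ne hn hty _ _ _ _ h1.symm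
      simp at h3
  · revert h1 h2
    refine case3 (P := fun t => tn n m ty (Sum.inr (b, j, s, t)) =
        tn n m ty (Sum.inr (b', j', s', t'))
      → tn n m ty (pn n m ty hty (Sum.inr (b, j, s, t))) =
        tn n m ty (pn n m ty hty (Sum.inr (b', j', s', t'))) →
        (Sum.inr (b, j, s, t) : Da n m) = Sum.inr (b', j', s', t')) ?_ ?_ ?_ t
    · refine case3 (P := fun t' => tn n m ty (Sum.inr (b, j, s, 0)) =
        tn n m ty (Sum.inr (b', j', s', t'))
        → tn n m ty (pn n m ty hty (Sum.inr (b, j, s, 0))) =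
          tn n m ty (pn n m ty hty (Sum.inr (b', j', s', t'))) →
          (Sum.inr (b, j, s, 0) : Da n m) = Sum.inr (b', j', s', t')) ?_ ?_ ?_ t'
      · intro h1 h2
        cases b <;> cases b'
        · rw [tn_top, tn_top] at h1
          obtain ⟨rfl, rfl⟩ := top_inj0 hn _ _ _ _ h1
          rfl
        · rw [tn_top, tn_bot] at h1
          exact (top_bot hn _ _ _ _ h1).elim
        · rw [tn_top, tn_bot] at h1
          exact (top_bot hn _ _ _ _ h1.symm).elim
        · rw [tn_bot, tn_bot] at h1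
          obtain ⟨rfl, rfl⟩ := bot_inj0 hn _ _ _ _ h1
          rfl
      · intro h1 h2
        rw [pn1] at h2
        obtain ⟨_, _, h3⟩ := tn_pole_ne hn hty _ _ _ _ h2
        rw [pn0] at h3
        simp at h3
      · intro h1 h2
        obtain ⟨_, _, h3⟩ := tn_pole_ne hn hty _ _ _ _ h1
        simp at h3
    · intro h1 h2
      rw [pn1] at h2
      obtain ⟨j₁, s₁, h3⟩ := tn_pole_ne hn hty _ _ _ _ h2.symm
      have h4 : b' = b ∧ t' = 1 := by
        simp only [pn, Sum.inr.injEq, Prod.mk.injEq] at h3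
        refine ⟨h3.1, ?_⟩
        have h5 := h3.2.2.2
        have fin : ∀ t : Fin 3, t + 1 = 2 → t = 1 := by decide
        exact fin t' h5
      obtain ⟨rfl, rfl⟩ := h4
      cases b'
      · rw [tn_top', tn_top'] at h1
        obtain ⟨rfl, rfl⟩ := top_inj1 hn _ _ _ _ h1
        rfl
      · rw [tn_bot', tn_bot'] at h1
        obtain ⟨rfl, rfl⟩ := bot_inj1 hn _ _ _ _ h1
        rfl
    · intro h1 h2
      obtain ⟨j₁, s₁, h3⟩ := tn_pole_ne hn hty _ _ _ _ h1.symm
      have h4 : b' = b ∧ t' = 2 := by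
        simp only [Sum.inr.injEq, Prod.mk.injEq] at h3
        exact ⟨h3.1, h3.2.2.2⟩
      obtain ⟨rfl, rfl⟩ := h4
      rw [pn2, pn2] at h2
      cases b'
      · rw [tn_top, tn_top] at h2
        obtain ⟨rfl, rfl⟩ := top_inj0 hn _ _ _ _ h2
        rfl
      · rw [tn_bot, tn_bot] at h2
        obtain ⟨rfl, rfl⟩ := bot_inj0 hn _ _ _ _ h2
        rfl

theorem tn_ne (hn : 0 < n) (hm : 2 ≤ m) (hty : ∀ i j, ty i j < 3) (d : Da n m) :
    tn n m ty (pn n m ty hty d) ≠ tn n m ty d := by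
  intro h
  rcases d with ⟨i, j, e⟩ | ⟨b, j, s, t⟩
  · rw [tn_tile, tn_tile'] at h
    exact tl_ne (hty i j) e.2
      (vt_inj hm i.2 j.2 (tl_lt (hty _ _) e.2) (hd_lt (hty _ _) e.2) h.symm)
  · have hs := s.2
    revert h
    refine case3 (P := fun t => tn n m ty (pn n m ty hty (Sum.inr (b, j, s, t))) =
        tn n m ty (Sum.inr (b, j, s, t)) → False) ?_ ?_ ?_ t
    · intro h
      rw [pn0] at h
      cases b
      · rw [tn_top, tn_top'] at h
        have := vt_inj hm hn j.2 (show (s : ℕ) < 229 by omega) (by omega) h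
        omega
      · rw [tn_bot, tn_bot'] at h
        have := vt_inj hm (show n - 1 < n by omega) j.2 (show 11 - (s : ℕ) < 229 by omega)
          (by omega) h
        omega
    · intro h
      rw [pn1] at h
      obtain ⟨_, _, h3⟩ := tn_pole_ne hn hty _ _ _ _ h.symm
      simp at h3
    · intro h
      rw [pn2] at h
      obtain ⟨_, _, h3⟩ := tn_pole_ne hn hty _ _ _ _ h
      simp at h3

theorem tn_surj (hn : 0 < n) (hm : 2 ≤ m) (hty : ∀ i j, ty i j < 3) {x : ℕ}
    (hx : x < n * m * 220 + 4 * m + 2) : ∃ d : Da n m, tn n m ty d = x := by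
  have hm0 : 0 < m := by omega
  rcases Nat.lt_or_ge x (n * m * 220 + 4 * m) with h | h
  · obtain ⟨i, j, k, ⟨hj, hv⟩, hk⟩ := cd_surj h
    have key : ∃ i' a, i' < n ∧ a < 229 ∧ vt n m i' j a = x := by
      rcases hv with ⟨hi, hk2⟩ | ⟨rfl, hk2⟩
      · rcases Nat.lt_or_ge k 4 with c1 | c1
        · refine ⟨i, k, hi, by omega, ?_⟩
          rw [← hk, vt]
          have h1 : di k = 0 := by unfold di; rw [if_neg (by omega)]
          have h2 : dj k = 0 := by unfold dj; rw [if_neg (by omega)]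
          have h3 : ky k = k := by unfold ky; rw [if_pos (by omega)]
          rw [h1, h2, h3, Nat.add_zero, Nat.add_zero, Nat.mod_eq_of_lt hj]
        · rcases Nat.lt_or_ge k 7 with c2 | c2
          · refine ⟨i, 19 - k, hi, by omega, ?_⟩
            rw [← hk, vt]
            have h1 : di (19 - k) = 0 := by unfold di; rw [if_neg (by omega)]
            have h2 : dj (19 - k) = 0 := by unfold dj; rw [if_neg (by omega)]
            have h3 : ky (19 - k) = k := by
              unfold ky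
              split_ifs <;> omega
            rw [h1, h2, h3, Nat.add_zero, Nat.add_zero, Nat.mod_eq_of_lt hj]
          · refine ⟨i, k + 9, hi, by omega, ?_⟩
            rw [← hk, vt, di_big (by omega), dj_big (by omega), ky_big (by omega),
              Nat.add_zero, Nat.add_zero, Nat.mod_eq_of_lt hj]
            congr 1
      · refine ⟨i - 1, 12 - k, by omega, by omega, ?_⟩
        rw [← hk, vt]
        have h1 : di (12 - k) = 1 := by unfold di; rw [if_pos (by omega)]
        have h2 : dj (12 - k) = 0 := by unfold dj; rw [if_neg (by omega)]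
        have h3 : ky (12 - k) = k := by
          unfold ky
          split_ifs <;> omega
        rw [h1, h2, h3, Nat.add_zero j, Nat.mod_eq_of_lt hj]
        congr 1
        omega
    obtain ⟨i', a, hi', ha, hv'⟩ := key
    refine ⟨Sum.inl (⟨i', hi'⟩, ⟨j, hj⟩, ⟨st (ty i' j) a, st_lt (hty _ _) ha⟩), ?_⟩
    rw [tn_tile]
    change vt n m i' j (tl (ty i' j) (st (ty i' j) a)) = x
    rw [tl_st (hty _ _) ha, hv']
  · rcases Nat.lt_or_ge x (n * m * 220 + 4 * m + 1) with h1 | h1
    · refine ⟨Sum.inr (false, ⟨0, hm0⟩, 0, 2), ?_⟩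
      rw [tn_pole]
      simp only [Bool.false_eq_true, if_false]
      omega
    · refine ⟨Sum.inr (true, ⟨0, hm0⟩, 0, 2), ?_⟩
      rw [tn_pole]
      simp only [if_true]
      omega

end Pool.Agent.H671R2.OOF
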