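import Pool.Agent.H671R2.OOF.Grid2

/-!
# The triangulation made of a cylinder of tiles and two caps: reversal, connectivity, counting
-/

set_option autoImplicit false

namespace Pool.Agent.H671R2.OOF

variable {n m : ℕ} {ty : ℕ → ℕ → ℕ}

theorem vt_up {i j a : ℕ} (ha : a ≤ 4) : vt n m i j (12 - a) = vt n m (i + 1) j a := by
  have fin : ∀ a < 5, di (12 - a) = 1 ∧ di a = 0 ∧ dj (12 - a) = dj a ∧ ky (12 - a) = ky a := by
    decide
  obtain ⟨h1, h2, h3, h4⟩ := fin a (by omega)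
  rw [vt, vt, h1, h2, h3, h4]

theorem vt_right {i j a : ℕ} (ha : 4 ≤ a) (ha' : a ≤ 8) :
    vt n m i ((j + 1) % m) ((20 - a) % 16) = vt n m i j a := by
  have fin : ∀ a < 9, 4 ≤ a → di ((20 - a) % 16) = di a ∧ dj ((20 - a) % 16) = 0 ∧ dj a = 1 ∧
      ky ((20 - a) % 16) = ky a := by decide
  obtain ⟨h1, h2, h3, h4⟩ := fin a (by omega) ha
  rw [vt, vt, h1, h2, h3, h4, Nat.add_zero, Nat.mod_mod]

/-- the next column -/
def nx (j : Fin m) : Fin m := ⟨(j + 1) % m, Nat.mod_lt _ (by have := j.2; omega)⟩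

/-- the previous column -/
def pv (j : Fin m) : Fin m := ⟨(j + (m - 1)) % m, Nat.mod_lt _ (by have := j.2; omega)⟩

theorem nx_pv (j : Fin m) : nx (pv j) = j := by
  apply Fin.ext
  simp only [nx, pv]
  have := j.2
  rw [Nat.mod_add_mod, show (j : ℕ) + (m - 1) + 1 = j + m by omega, Nat.add_mod_right,
    Nat.mod_eq_of_lt this]

theorem vt_right' {i a : ℕ} (j : Fin m) (ha : 4 ≤ a) (ha' : a ≤ 8) :
    vt n m i (nx j) ((20 - a) % 16) = vt n m i j a := vt_right ha ha'

theorem vt_left {i a : ℕ} (j : Fin m) (ha : 4 ≤ a) (ha' : a ≤ 8) :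
    vt n m i j ((20 - a) % 16) = vt n m i (pv j) a := by
  rw [← vt_right' (pv j) ha ha', nx_pv]

/-- the two darts have swapped ends -/
def Sw (n m : ℕ) (ty : ℕ → ℕ → ℕ) (hty : ∀ i j, ty i j < 3) (d d' : Da n m) : Prop :=
  tn n m ty d' = tn n m ty (pn n m ty hty d) ∧ tn n m ty (pn n m ty hty d') = tn n m ty d

theorem Sw.symm {hty : ∀ i j, ty i j < 3} {d d' : Da n m} (h : Sw n m ty hty d d') :
    Sw n m ty hty d' d := ⟨h.2.symm, h.1.symm⟩

/-- the dart `bd a` of a tile -/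
def bdart (n m : ℕ) (ty : ℕ → ℕ → ℕ) (hty : ∀ i j, ty i j < 3) (i : Fin n) (j : Fin m) (a : ℕ)
    (ha : a < 16) : Da n m := Sum.inl (i, j, ⟨bd (ty i j) a, bd_lt (hty i j) ha⟩)

theorem tn_bdart (hty : ∀ i j, ty i j < 3) (i : Fin n) (j : Fin m) (a : ℕ) (ha : a < 16) :
    tn n m ty (bdart n m ty hty i j a ha) = vt n m i j a := by
  rw [bdart, tn_tile]
  change vt n m i j (tl (ty i j) (bd (ty i j) a)) = _
  rw [tl_bd (hty i j) ha]

theorem tn_bdart' (hty : ∀ i j, ty i j < 3) (i : Fin n) (j : Fin m) (a : ℕ) (ha : a < 16) :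
    tn n m ty (pn n m ty hty (bdart n m ty hty i j a ha)) = vt n m i j ((a + 1) % 16) := by
  rw [bdart, tn_tile']
  change vt n m i j (hd (ty i j) (bd (ty i j) a)) = _
  rw [hd_bd (hty i j) ha]

theorem sw_vert (hty : ∀ i j, ty i j < 3) (i i' : Fin n) (hi : (i' : ℕ) = i + 1) (j : Fin m)
    (a : ℕ) (ha : a < 4) :
    Sw n m ty hty (bdart n m ty hty i' j a (by omega))
      (bdart n m ty hty i j (11 - a) (by omega)) := by
  unfold Sw
  rw [tn_bdart, tn_bdart, tn_bdart', tn_bdart', hi, Nat.mod_eq_of_lt (show a + 1 < 16 by omega),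
    Nat.mod_eq_of_lt (show 11 - a + 1 < 16 by omega), ← vt_up (show a + 1 ≤ 4 by omega),
    ← vt_up (show a ≤ 4 by omega)]
  constructor <;> congr 1 <;> omega

theorem sw_horiz (hty : ∀ i j, ty i j < 3) (i : Fin n) (j : Fin m)
    (a : ℕ) (ha : 4 ≤ a) (ha' : a < 8) :
    Sw n m ty hty (bdart n m ty hty i j a (by omega))
      (bdart n m ty hty i (nx j) (19 - a) (by omega)) := by
  unfold Sw
  rw [tn_bdart, tn_bdart, tn_bdart', tn_bdart', Nat.mod_eq_of_lt (show a + 1 < 16 by omega),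
    ← vt_right' j (show 4 ≤ a + 1 by omega) (show a + 1 ≤ 8 by omega),
    ← vt_right' j ha (by omega)]
  constructor <;> congr 1 <;> omega

theorem sw_top (hn : 0 < n) (hty : ∀ i j, ty i j < 3) (j : Fin m) (s : Fin 4) :
    Sw n m ty hty (bdart n m ty hty ⟨0, hn⟩ j s (by have := s.2; omega))
      (Sum.inr (false, j, s, 0)) := by
  have := s.2
  unfold Sw
  rw [tn_bdart, tn_bdart', pn0, tn_top, tn_top', Nat.mod_eq_of_lt (show (s : ℕ) + 1 < 16 by omega)]
  exact ⟨rfl, rfl⟩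

theorem sw_bot (hn : 0 < n) (hty : ∀ i j, ty i j < 3) (j : Fin m) (s : Fin 4) :
    Sw n m ty hty (bdart n m ty hty ⟨n - 1, by omega⟩ j (11 - s) (by omega))
      (Sum.inr (true, j, s, 0)) := by
  have := s.2
  unfold Sw
  rw [tn_bdart, tn_bdart', pn0, tn_bot, tn_bot',
    Nat.mod_eq_of_lt (show 11 - (s : ℕ) + 1 < 16 by omega)]
  constructor
  · congr 1
    omega
  · rfl

theorem sw_spoke_top (hty : ∀ i j, ty i j < 3) (j : Fin m) (s s' : Fin 4)
    (h : (s' : ℕ) = s + 1) :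
    Sw n m ty hty (Sum.inr (false, j, s, 2)) (Sum.inr (false, j, s', 1)) := by
  unfold Sw
  rw [pn2, pn1, tn_top, tn_top', tn_pole, tn_pole, h]
  exact ⟨rfl, rfl⟩

theorem sw_spoke_top' (hty : ∀ i j, ty i j < 3) (j : Fin m) :
    Sw n m ty hty (Sum.inr (false, j, 3, 2)) (Sum.inr (false, nx j, 0, 1)) := by
  unfold Sw
  rw [pn2, pn1, tn_top, tn_top', tn_pole, tn_pole]
  refine ⟨?_, rfl⟩
  exact vt_right' (i := 0) j (le_refl 4) (by norm_num)

theorem sw_spoke_bot (hty : ∀ i j, ty i j < 3) (j : Fin m) (s s' : Fin 4)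
    (h : (s : ℕ) = s' + 1) :
    Sw n m ty hty (Sum.inr (true, j, s, 2)) (Sum.inr (true, j, s', 1)) := by
  unfold Sw
  rw [pn2, pn1, tn_bot, tn_bot', tn_pole, tn_pole, h]
  refine ⟨?_, rfl⟩
  congr 1
  omega

theorem sw_spoke_bot' (hty : ∀ i j, ty i j < 3) (j : Fin m) :
    Sw n m ty hty (Sum.inr (true, j, 0, 2)) (Sum.inr (true, pv j, 3, 1)) := by
  unfold Sw
  rw [pn2, pn1, tn_bot, tn_bot', tn_pole, tn_pole]
  refine ⟨?_, rfl⟩
  exact (vt_left (i := n - 1) (a := 8) j (by norm_num) (le_refl 8)).symm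

theorem tn_rev (hn : 0 < n) (hty : ∀ i j, ty i j < 3) (d : Da n m) :
    ∃ d', Sw n m ty hty d d' := by
  rcases d with ⟨i, j, e⟩ | ⟨b, j, s, t⟩
  · rcases rv_cases (hty i j) e.2 with ⟨h1, _, h3, h4, _⟩ | ⟨a, ha, _, h2⟩
    · refine ⟨Sum.inl (i, j, ⟨rv (ty i j) e, h1⟩), ?_⟩
      unfold Sw
      rw [tn_tile, tn_tile, tn_tile', tn_tile']
      change vt n m i j (tl (ty i j) (rv (ty i j) e)) = _ ∧
        vt n m i j (hd (ty i j) (rv (ty i j) e)) = _
      rw [h3, h4]
      exact ⟨rfl, rfl⟩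
    · have he : (Sum.inl (i, j, e) : Da n m) = bdart n m ty hty i j a ha := by
        rw [bdart]
        congr 3
        exact Fin.ext h2.symm
      rw [he]
      rcases Nat.lt_or_ge a 4 with c1 | c1
      · rcases Nat.eq_zero_or_pos (i : ℕ) with c2 | c2
        · refine ⟨Sum.inr (false, j, ⟨a, c1⟩, 0), ?_⟩
          have h5 := sw_top hn hty j ⟨a, c1⟩
          have h6 : i = ⟨0, hn⟩ := Fin.ext c2
          rw [h6]
          exact h5
        · exact ⟨_, sw_vert hty ⟨i - 1, by omega⟩ i (by simp only; omega) j a c1⟩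
      rcases Nat.lt_or_ge a 8 with c2 | c2
      · exact ⟨_, sw_horiz hty i j a c1 c2⟩
      rcases Nat.lt_or_ge a 12 with c3 | c3
      · by_cases c4 : (i : ℕ) + 1 < n
        · have h5 := (sw_vert hty i ⟨i + 1, c4⟩ rfl j (11 - a) (by omega)).symm
          have h6 : 11 - (11 - a) = a := by omega
          simp only [h6] at h5
          exact ⟨_, h5⟩
        · have h5 := sw_bot hn hty j ⟨11 - a, by omega⟩
          have h6 : 11 - (11 - a) = a := by omega
          simp only [h6] at h5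
          have h7 : i = ⟨n - 1, by omega⟩ := Fin.ext (by have := i.2; simp only; omega)
          rw [h7]
          exact ⟨_, h5⟩
      · have h5 := (sw_horiz hty i (pv j) (19 - a) (by omega) (by omega)).symm
        have h6 : 19 - (19 - a) = a := by omega
        simp only [h6, nx_pv] at h5
        exact ⟨_, h5⟩
  · have hs := s.2
    revert t
    refine case3 ?_ ?_ ?_
    · cases b
      · exact ⟨_, (sw_top hn hty j s).symm⟩
      · exact ⟨_, (sw_bot hn hty j s).symm⟩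
    · cases b
      · by_cases c : (s : ℕ) = 0
        · have h5 := (sw_spoke_top' (n := n) (ty := ty) hty (pv j)).symm
          rw [nx_pv] at h5
          have h6 : s = 0 := Fin.ext c
          rw [h6]
          exact ⟨_, h5⟩
        · exact ⟨_, (sw_spoke_top hty j ⟨s - 1, by omega⟩ s (by simp only; omega)).symm⟩
      · by_cases c : (s : ℕ) = 3
        · have h5 := (sw_spoke_bot' (n := n) (ty := ty) hty (nx j)).symm
          have h6 : s = 3 := Fin.ext c
          have h7 : pv (nx j) = j := by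
            apply Fin.ext
            simp only [nx, pv]
            have := j.2
            rw [Nat.mod_add_mod, show (j : ℕ) + 1 + (m - 1) = j + m by omega, Nat.add_mod_right,
              Nat.mod_eq_of_lt this]
          rw [h7] at h5
          rw [h6]
          exact ⟨_, h5⟩
        · exact ⟨_, (sw_spoke_bot hty j ⟨s + 1, by omega⟩ s rfl).symm⟩
    · cases b
      · by_cases c : (s : ℕ) = 3
        · have h6 : s = 3 := Fin.ext c
          rw [h6]
          exact ⟨_, sw_spoke_top' hty j⟩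
        · exact ⟨_, sw_spoke_top hty j s ⟨s + 1, by omega⟩ rfl⟩
      · by_cases c : (s : ℕ) = 0
        · have h6 : s = 0 := Fin.ext c
          rw [h6]
          exact ⟨_, sw_spoke_bot' hty j⟩
        · exact ⟨_, sw_spoke_bot hty j s ⟨s - 1, by omega⟩ (by simp only; omega)⟩

/-- generated equivalence -/
def Cn (n m : ℕ) (ty : ℕ → ℕ → ℕ) (hty : ∀ i j, ty i j < 3) : Da n m → Da n m → Prop :=
  Relation.EqvGen (fun a b => b = pn n m ty hty a ∨ Sw n m ty hty a b)

theorem cn_pn (hty : ∀ i j, ty i j < 3) (d : Da n m) : Cn n m ty hty d (pn n m ty hty d) :=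
  Relation.EqvGen.rel _ _ (Or.inl rfl)

theorem cn_sw {hty : ∀ i j, ty i j < 3} {d d' : Da n m} (h : Sw n m ty hty d d') :
    Cn n m ty hty d d' := Relation.EqvGen.rel _ _ (Or.inr h)

theorem cn_tile (hty : ∀ i j, ty i j < 3) (i : Fin n) (j : Fin m) : ∀ N : ℕ, ∀ e : Fin 1320,
    ds (ty i j) e < N → Cn n m ty hty (Sum.inl (i, j, e)) (bdart n m ty hty i j 0 (by omega)) := by
  intro N
  induction N with
  | zero => intro e h; omega
  | succ N ih =>
    intro e h
    rcases ds_cases (hty i j) e.2 with h1 | h1 | h1 | ⟨h2, h1⟩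
    · have : (Sum.inl (i, j, e) : Da n m) = bdart n m ty hty i j 0 (by omega) := by
        rw [bdart]
        congr 3
        exact Fin.ext h1
      rw [this]
      exact Relation.EqvGen.refl _
    · exact Relation.EqvGen.trans _ _ _ (cn_pn hty _)
        (ih ⟨ph (ty i j) e, ph_lt (hty _ _) e.2⟩ (by change ds (ty i j) (ph (ty i j) e) < N; omega))
    · refine Relation.EqvGen.trans _ _ _ (cn_pn hty _)
        (Relation.EqvGen.trans _ _ _ (cn_pn hty _) ?_)
      exact (ih ⟨ph (ty i j) (ph (ty i j) e), ph_lt (hty _ _) (ph_lt (hty _ _) e.2)⟩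
        (by change ds (ty i j) (ph (ty i j) (ph (ty i j) e)) < N; omega))
    · have h9 : Cn n m ty hty (Sum.inl (i, j, ⟨rv (ty i j) e, h2⟩))
          (bdart n m ty hty i j 0 (by omega)) :=
        ih ⟨rv (ty i j) e, h2⟩ (by change ds (ty i j) (rv (ty i j) e) < N; omega)
      refine Relation.EqvGen.trans _ _ _ (cn_sw ?_) h9
      rcases rv_cases (hty i j) e.2 with ⟨h1, _, h3, h4, _⟩ | ⟨a, ha, h5, _⟩
      · unfold Sw
        rw [tn_tile, tn_tile, tn_tile', tn_tile']
        change vt n m i j (tl (ty i j) (rv (ty i j) e)) = _ ∧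
          vt n m i j (hd (ty i j) (rv (ty i j) e)) = _
        rw [h3, h4]
        exact ⟨rfl, rfl⟩
      · omega

theorem cn_tile' (hty : ∀ i j, ty i j < 3) (i : Fin n) (j : Fin m) (e e' : Fin 1320) :
    Cn n m ty hty (Sum.inl (i, j, e)) (Sum.inl (i, j, e')) :=
  Relation.EqvGen.trans _ _ _ (cn_tile hty i j _ e (Nat.lt_succ_self _))
    (Relation.EqvGen.symm _ _ (cn_tile hty i j _ e' (Nat.lt_succ_self _)))

theorem cn_row (hty : ∀ i j, ty i j < 3) (i : Fin n) (j j' : Fin m) (e e' : Fin 1320) :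
    Cn n m ty hty (Sum.inl (i, j, e)) (Sum.inl (i, j', e')) := by
  have step : ∀ (j : Fin m) (e e' : Fin 1320),
      Cn n m ty hty (Sum.inl (i, j, e)) (Sum.inl (i, nx j, e')) := by
    intro j e e'
    exact Relation.EqvGen.trans _ _ _ (cn_tile' hty i j e _)
      (Relation.EqvGen.trans _ _ _ (cn_sw (sw_horiz hty i j 4 (le_refl _) (by norm_num)))
        (cn_tile' hty i (nx j) _ e'))
  have all : ∀ k (hk : k < m) (e e' : Fin 1320),
      Cn n m ty hty (Sum.inl (i, ⟨0, by omega⟩, e)) (Sum.inl (i, ⟨k, hk⟩, e')) := by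
    intro k
    induction k with
    | zero => intro hk e e'; exact cn_tile' hty i _ e e'
    | succ k ih =>
      intro hk e e'
      have h1 := step ⟨k, by omega⟩ e e'
      have h2 : nx (⟨k, by omega⟩ : Fin m) = ⟨k + 1, hk⟩ :=
        Fin.ext (Nat.mod_eq_of_lt hk)
      rw [h2] at h1
      exact Relation.EqvGen.trans _ _ _ (ih (by omega) e e) h1
  exact Relation.EqvGen.trans _ _ _ (Relation.EqvGen.symm _ _ (all j j.2 e e)) (all j' j'.2 e e')

theorem cn_all_tiles (hty : ∀ i j, ty i j < 3) (i i' : Fin n) (j j' : Fin m)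
    (e e' : Fin 1320) : Cn n m ty hty (Sum.inl (i, j, e)) (Sum.inl (i', j', e')) := by
  have all : ∀ k (hk : k < n) (e e' : Fin 1320),
      Cn n m ty hty (Sum.inl (⟨0, by omega⟩, j, e)) (Sum.inl (⟨k, hk⟩, j, e')) := by
    intro k
    induction k with
    | zero => intro hk e e'; exact cn_tile' hty _ _ e e'
    | succ k ih =>
      intro hk e e'
      have h1 := sw_vert (m := m) hty ⟨k, by omega⟩ ⟨k + 1, hk⟩ rfl j 0 (by norm_num)
      have h2 : Cn n m ty hty (Sum.inl (⟨k, by omega⟩, j, e))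
          (bdart n m ty hty ⟨k, by omega⟩ j (11 - 0) (by omega)) := cn_tile' hty _ _ e _
      have h3 : Cn n m ty hty (bdart n m ty hty ⟨k + 1, hk⟩ j 0 (by omega))
          (Sum.inl (⟨k + 1, hk⟩, j, e')) := cn_tile' hty _ _ _ e'
      exact Relation.EqvGen.trans _ _ _ (ih (by omega) e e)
        (Relation.EqvGen.trans _ _ _ h2 (Relation.EqvGen.trans _ _ _ (cn_sw h1.symm) h3))
  exact Relation.EqvGen.trans _ _ _ (Relation.EqvGen.symm _ _ (all i i.2 e e))
    (Relation.EqvGen.trans _ _ _ (all i' i'.2 e e) (cn_row hty i' j j' e e'))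

theorem cn_to_tile (hn : 0 < n) (hty : ∀ i j, ty i j < 3) (d : Da n m) :
    ∃ i j e, Cn n m ty hty d (Sum.inl (i, j, e)) := by
  rcases d with ⟨i, j, e⟩ | ⟨b, j, s, t⟩
  · exact ⟨i, j, e, Relation.EqvGen.refl _⟩
  · have h0 : ∃ i₁ j₁ e₁, Cn n m ty hty (Sum.inr (b, j, s, 0)) (Sum.inl (i₁, j₁, e₁)) := by
      cases b
      · exact ⟨_, _, _, cn_sw (sw_top hn hty j s).symm⟩
      · exact ⟨_, _, _, cn_sw (sw_bot hn hty j s).symm⟩
    obtain ⟨i, j', e, h0⟩ := h0
    refine ⟨i, j', e, ?_⟩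
    refine case3 (P := fun t => Cn n m ty hty (Sum.inr (b, j, s, t)) (Sum.inl (i, j', e)))
      h0 ?_ ?_ t
    · exact Relation.EqvGen.trans _ _ _ (cn_pn hty _)
        (Relation.EqvGen.trans _ _ _ (cn_pn hty _) h0)
    · exact Relation.EqvGen.trans _ _ _ (cn_pn hty _) h0

theorem cn_all (hn : 0 < n) (hty : ∀ i j, ty i j < 3) (d d' : Da n m) :
    Cn n m ty hty d d' := by
  obtain ⟨i, j, e, h⟩ := cn_to_tile hn hty d
  obtain ⟨i', j', e', h'⟩ := cn_to_tile hn hty d'
  exact Relation.EqvGen.trans _ _ _ h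
    (Relation.EqvGen.trans _ _ _ (cn_all_tiles hty i i' j j' e e') (Relation.EqvGen.symm _ _ h'))

/-- the triangulation -/
noncomputable def grid (n m : ℕ) (ty : ℕ → ℕ → ℕ) (hn : 0 < n) (hm : 2 ≤ m)
    (hty : ∀ i j, ty i j < 3) : TriSys (Fin (n * m * 220 + 4 * m + 2)) (Da n m) :=
  TriSys.mk' (fun d => ⟨tn n m ty d, tn_lt hn hty d⟩) (pn n m ty hty) (pn3 hty)
    (fun d d' h1 h2 => tn_inj hn hm hty d d' (Fin.val_eq_of_eq h1) (Fin.val_eq_of_eq h2))
    (fun d h => tn_ne hn hm hty d (Fin.val_eq_of_eq h))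
    (fun v => by
      obtain ⟨d, hd⟩ := tn_surj hn hm hty v.2
      exact ⟨d, Fin.ext hd⟩)
    (fun d => by
      obtain ⟨d', h1, h2⟩ := tn_rev hn hty d
      exact ⟨d', Fin.ext h1, Fin.ext h2⟩)
    (fun d d' => by
      refine Relation.EqvGen.mono ?_ _ _ (cn_all hn hty d d')
      rintro a b (h | ⟨h1, h2⟩)
      · exact Or.inl h
      · exact Or.inr ⟨Fin.ext h1, Fin.ext h2⟩)

theorem grid_card (n m : ℕ) :
    Fintype.card (Da n m) + 12 = 6 * Fintype.card (Fin (n * m * 220 + 4 * m + 2)) := by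
  simp only [Da, Fintype.card_sum, Fintype.card_prod, Fintype.card_fin, Fintype.card_bool]
  ring

theorem grid_adj (n m : ℕ) (ty : ℕ → ℕ → ℕ) (hn : 0 < n) (hm : 2 ≤ m)
    (hty : ∀ i j, ty i j < 3) (u v : Fin (n * m * 220 + 4 * m + 2)) :
    (grid n m ty hn hm hty).graph.Adj u v ↔
      ∃ d, tn n m ty d = u ∧ tn n m ty (pn n m ty hty d) = v := by
  constructor
  · rintro ⟨d, h1, h2⟩
    exact ⟨d, Fin.val_eq_of_eq h1, Fin.val_eq_of_eq h2⟩
  · rintro ⟨d, h1, h2⟩
    exact ⟨d, Fin.ext h1, Fin.ext h2⟩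

end Pool.Agent.H671R2.OOF
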