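import Pool.Agent.H671R2.OOF.Basic
import Pool.Agent.H671R2.OOF.Facts

/-!
# Soundness of a tile (task S, helper825)
-/

set_option autoImplicit false
set_option synthInstance.maxSize 100000

namespace Pool.Agent.H671R2.OOF

/-! ### the fragment -/

/-- the edges of the fragment -/
def sEA : List (ℕ × ℕ) :=
  [(0, 2), (0, 3), (0, 4), (0, 5), (0, 8), (1, 2), (1, 6), (1, 8), (1, 9), (2, 4), (2, 6), (2, 8),
   (3, 5), (3, 8), (3, 9), (4, 5), (4, 6), (4, 7), (5, 7), (5, 9), (6, 7), (6, 9), (7, 9), (8, 9)]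

/-- some cycles of the fragment -/
def sCA : List (List ℕ) :=
  [[0, 2, 5, 6, 9], [0, 4, 6, 8, 9], [0, 5, 8, 9], [1, 6, 9], [2, 4, 6], [2, 6, 8, 9], [3, 5, 9],
   [3, 8, 9], [4, 5, 6, 9], [6, 7, 9]]

theorem sCA_ok : ∀ z ∈ sCA, z ≠ [] ∧ (∀ v ∈ z, v < 10) ∧ ∀ v ∈ z, ∃ u ∈ z, ∃ w ∈ z, u ≠ w ∧
    ((v, u) ∈ sEA ∨ (u, v) ∈ sEA) ∧ ((v, w) ∈ sEA ∨ (w, v) ∈ sEA) := by
  decide

theorem frag_check :
    ∀ x1 : Fin 3, ¬(x1 = 2) →
    ∀ x7 : Fin 3, ¬(x7 = 2) →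
    ∀ x2 : Fin 3, (x1 = x2 → x1 = 2) →
    ∀ x8 : Fin 3, (x1 = x8 → x1 = 2) → (x2 = x8 → x2 = 2) → ¬(x2 = 2 ∧ x8 = 2) →
    ∀ x4 : Fin 3, (x2 = x4 → x2 = 2) → (x4 = x7 → x4 = 2) → ¬(x2 = 2 ∧ x4 = 2) →
    ∀ x5 : Fin 3, (x4 = x5 → x4 = 2) → (x5 = x7 → x5 = 2) → ¬(x4 = 2 ∧ x5 = 2) →
    ∀ x0 : Fin 3, (x0 = x2 → x0 = 2) → (x0 = x4 → x0 = 2) → (x0 = x5 → x0 = 2) →
      (x0 = x8 → x0 = 2) → ¬(x0 = 2 ∧ x2 = 2 ∧ x5 = 2) → ¬(x0 = 2 ∧ x4 = 2 ∧ x8 = 2) →
      ¬(x0 = 2 ∧ x5 = 2 ∧ x8 = 2) →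
    ∀ x3 : Fin 3, (x0 = x3 → x0 = 2) → (x3 = x5 → x3 = 2) → (x3 = x8 → x3 = 2) →
      ¬(x3 = 2 ∧ x5 = 2) → ¬(x3 = 2 ∧ x8 = 2) →
    False := by decide +kernel

theorem cyc_lemma {V : Type} (G : SimpleGraph V) (c : V → Fin 3) (hc : Good G c) (q : ℕ → V)
    (z : List ℕ) (hne : z ≠ [])
    (h2 : ∀ v ∈ z, ∃ u ∈ z, ∃ w ∈ z, q u ≠ q w ∧ G.Adj (q v) (q u) ∧ G.Adj (q v) (q w)) :
    ¬ ∀ v ∈ z, c (q v) = 2 := by
  classical
  intro hall
  obtain ⟨x, hx⟩ := List.exists_mem_of_ne_nil z hne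
  obtain ⟨v, hv, huw⟩ := hc.2 ((z.map q).toFinset)
    ⟨q x, by rw [List.mem_toFinset]; exact List.mem_map_of_mem hx⟩ (by
      intro v hv
      rw [List.mem_toFinset, List.mem_map] at hv
      obtain ⟨a, ha, rfl⟩ := hv
      exact hall a ha)
  rw [List.mem_toFinset, List.mem_map] at hv
  obtain ⟨a, ha, rfl⟩ := hv
  obtain ⟨u, hu, w, hw, hne, h1, h2⟩ := h2 a ha
  exact hne (huw (q u) (by rw [List.mem_toFinset]; exact List.mem_map_of_mem hu) (q w)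
    (by rw [List.mem_toFinset]; exact List.mem_map_of_mem hw) h1 h2)

theorem frag_lemma {V : Type} (G : SimpleGraph V) (c : V → Fin 3) (hc : Good G c) (q : ℕ → V)
    (hinj : ∀ a < 10, ∀ b < 10, q a = q b → a = b)
    (hA : ∀ p ∈ sEA, G.Adj (q p.1) (q p.2)) : ¬ (c (q 6) = 2 ∧ c (q 9) = 2) := by
  rintro ⟨h6, h9⟩
  have hE : ∀ p ∈ sEA, c (q p.1) = c (q p.2) → c (q p.1) = 2 := fun p hp h =>
    hc.1 _ _ (hA p hp) h
  have hZ : ∀ z ∈ sCA, ¬ ∀ v ∈ z, c (q v) = 2 := by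
    intro z hz
    obtain ⟨h1, h2, h3⟩ := sCA_ok z hz
    refine cyc_lemma G c hc q z h1 ?_
    intro v hv
    obtain ⟨u, hu, w, hw, hne, ha, hb⟩ := h3 v hv
    refine ⟨u, hu, w, hw, fun h => hne (hinj u (h2 u hu) w (h2 w hw) h), ?_, ?_⟩
    · rcases ha with h | h
      · exact hA _ h
      · exact (hA _ h).symm
    · rcases hb with h | h
      · exact hA _ h
      · exact (hA _ h).symm
  have Z02569 := hZ [0, 2, 5, 6, 9] (by decide)
  have Z04689 := hZ [0, 4, 6, 8, 9] (by decide)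
  have Z0589 := hZ [0, 5, 8, 9] (by decide)
  have Z169 := hZ [1, 6, 9] (by decide)
  have Z246 := hZ [2, 4, 6] (by decide)
  have Z2689 := hZ [2, 6, 8, 9] (by decide)
  have Z359 := hZ [3, 5, 9] (by decide)
  have Z389 := hZ [3, 8, 9] (by decide)
  have Z4569 := hZ [4, 5, 6, 9] (by decide)
  have Z679 := hZ [6, 7, 9] (by decide)
  simp only [List.mem_cons, List.not_mem_nil, or_false, forall_eq_or_imp, forall_eq, h6, h9,
    true_and, and_true] at Z02569 Z04689 Z0589 Z169 Z246 Z2689 Z359 Z389 Z4569 Z679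
  exact frag_check _ Z169 _ Z679 _ (hE (1, 2) (by decide)) _ (hE (1, 8) (by decide))
    (hE (2, 8) (by decide)) Z2689 _ (hE (2, 4) (by decide)) (hE (4, 7) (by decide)) Z246 _
    (hE (4, 5) (by decide)) (hE (5, 7) (by decide)) Z4569 _ (hE (0, 2) (by decide))
    (hE (0, 4) (by decide)) (hE (0, 5) (by decide)) (hE (0, 8) (by decide)) Z02569 Z04689 Z0589 _
    (hE (0, 3) (by decide)) (hE (3, 5) (by decide)) (hE (3, 8) (by decide)) Z359 Z389

/-! ### the fragments of a tile -/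

/-- is `(u, v)` a directed edge of the tile? -/
def sfe (τ u v : ℕ) : Bool :=
  (List.range 64).any (fun k => Nat.beq (tl τ (st τ u + k)) u && Nat.beq (hd τ (st τ u + k)) v &&
    Nat.blt (st τ u + k) 1320)

theorem sfe_sound {τ u v : ℕ} (h : sfe τ u v = true) : ∃ e < 1320, tl τ e = u ∧ hd τ e = v := by
  unfold sfe at h
  rw [List.any_eq_true] at h
  obtain ⟨k, -, hk⟩ := h
  simp only [Bool.and_eq_true, Nat.beq_eq, Nat.blt_eq] at hk
  exact ⟨_, hk.2, hk.1.1, hk.1.2⟩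

/-- the vertex of the tile in the role `r < 10` of the fragment `f` -/
def svt (τ f r : ℕ) : ℕ :=
  bif r == 1 then fr τ f 0 else bif r == 6 then fr τ f 1 else bif r == 9 then fr τ f 2 else
    61 + 7 * f + [0, 0, 1, 2, 3, 4, 0, 5, 6].getD r 0

/-- check of one fragment -/
def schk (τ f : ℕ) : Bool :=
  sEA.all (fun p => sfe τ (svt τ f p.1) (svt τ f p.2)) &&
  allb 10 (fun a => Nat.blt (svt τ f a) 229 &&
    allb 10 (fun b => Nat.beq a b || !(Nat.beq (svt τ f a) (svt τ f b))))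

theorem schk_all : allb 3 (fun τ => allb 24 (schk τ)) = true := by decide +kernel

/-- the strong pairs of the core -/
def sSP : List (ℕ × ℕ) :=
  [(2, 17), (6, 18), (10, 19), (14, 20), (6, 17), (10, 18), (14, 19), (2, 20),
   (2, 21), (6, 22), (10, 23), (14, 24), (17, 21), (18, 22), (19, 23), (20, 24),
   (21, 22), (22, 23), (23, 24), (24, 21), (16, 21), (16, 22), (16, 23), (16, 24)]

/-- is `{u, v}` the strong edge of some fragment? -/
def ssE (τ u v : ℕ) : Bool :=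
  (List.range 24).any (fun f => (Nat.beq (fr τ f 1) u && Nat.beq (fr τ f 2) v) ||
    (Nat.beq (fr τ f 1) v && Nat.beq (fr τ f 2) u))

theorem ssE_all : allb 3 (fun τ => sSP.all (fun p => ssE τ p.1 p.2)) = true := by decide +kernel

theorem sw1_all : [(6, 21), (10, 22), (14, 23), (2, 24)].all (fun p => sfe 1 p.1 p.2) = true := by
  decide +kernel

theorem sw2_all : [(17, 22), (18, 23), (19, 24), (20, 21)].all (fun p => sfe 2 p.1 p.2) = true := by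
  decide +kernel

/-! ### the core -/

theorem core_check :
    ∀ o R0 : Fin 3, o ≠ R0 → ∀ R1, o ≠ R1 → R0 ≠ R1 → ∀ R2, o ≠ R2 → R1 ≠ R2 →
    ∀ R3, o ≠ R3 → R2 ≠ R3 → R3 ≠ R0 → ∀ T0, T0 ≠ R0 → ∀ D0, T0 ≠ D0 → D0 ≠ R0 →
    ∀ T1, T1 ≠ R1 → T1 ≠ D0 → ∀ D1, T1 ≠ D1 → D1 ≠ R1 → ∀ T2, T2 ≠ R2 → T2 ≠ D1 →
    ∀ D2, T2 ≠ D2 → D2 ≠ R2 → ∀ T3, T3 ≠ R3 → T3 ≠ D2 → ∀ D3, T3 ≠ D3 → D3 ≠ R3 → T0 ≠ D3 →
      T0 = T2 ∧ T1 = T3 ∧
      ((T1 = R0 → T1 = 2) → (T2 = R1 → T2 = 2) → (T3 = R2 → T3 = 2) → (T0 = R3 → T0 = 2) →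
        T1 = T0) ∧
      ((D0 = R1 → D0 = 2) → (D1 = R2 → D1 = 2) → (D2 = R3 → D2 = 2) → (D3 = R0 → D3 = 2) →
        T1 ≠ T0) := by
  decide +kernel

/-- Soundness of a tile. -/
theorem tile_sound {V : Type} (G : SimpleGraph V) (c : V → Fin 3) (hc : Good G c) (τ : ℕ)
    (hτ : τ < 3) (g : ℕ → V) (hinj : ∀ a < 229, ∀ b < 229, g a = g b → a = b)
    (hadj : ∀ e < 1320, G.Adj (g (tl τ e)) (g (hd τ e))) :
    c (g 2) = c (g 10) ∧ c (g 6) = c (g 14) ∧ (τ = 1 → c (g 6) = c (g 2)) ∧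
      (τ = 2 → c (g 6) ≠ c (g 2)) := by
  have hE : ∀ u v, sfe τ u v = true → G.Adj (g u) (g v) := by
    intro u v h
    obtain ⟨e, he, rfl, rfl⟩ := sfe_sound h
    exact hadj e he
  -- the strong edges
  have hF : ∀ f < 24, c (g (fr τ f 1)) ≠ c (g (fr τ f 2)) := by
    intro f hf
    have h1 := (allb_iff 24 _).1 ((allb_iff 3 _).1 schk_all τ hτ) f hf
    unfold schk at h1
    rw [Bool.and_eq_true, List.all_eq_true, allb_iff] at h1
    obtain ⟨h1, h2⟩ := h1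
    have h3 : ∀ a < 10, svt τ f a < 229 := by
      intro a ha
      have := h2 a ha
      rw [Bool.and_eq_true, Nat.blt_eq] at this
      exact this.1
    have h4 : ∀ a < 10, ∀ b < 10, svt τ f a = svt τ f b → a = b := by
      intro a ha b hb hab
      have := h2 a ha
      rw [Bool.and_eq_true, allb_iff] at this
      have := this.2 b hb
      rw [Bool.or_eq_true, Nat.beq_eq, hab] at this
      rcases this with h | h
      · exact h
      · simp at h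
    have h5 : ∀ p ∈ sEA, G.Adj (g (svt τ f p.1)) (g (svt τ f p.2)) := fun p hp =>
      hE _ _ (h1 p hp)
    have h6 := frag_lemma G c hc (fun r => g (svt τ f r))
      (fun a ha b hb h => h4 a ha b hb (hinj _ (h3 a ha) _ (h3 b hb) h)) h5
    have h7 : svt τ f 6 = fr τ f 1 := rfl
    have h8 : svt τ f 9 = fr τ f 2 := rfl
    simp only [h7, h8] at h6
    intro h
    have h9 := hc.1 _ _ (h5 (6, 9) (by decide)) (by simp only [h7, h8]; exact h)
    simp only [h7] at h9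
    exact h6 ⟨h9, by rw [← h]; exact h9⟩
  have hS : ∀ p ∈ sSP, c (g p.1) ≠ c (g p.2) := by
    intro p hp
    have h1 := (allb_iff 3 _).1 ssE_all τ hτ
    rw [List.all_eq_true] at h1
    have h2 := h1 p hp
    unfold ssE at h2
    rw [List.any_eq_true] at h2
    obtain ⟨f, hf, h3⟩ := h2
    have hf' := hF f (List.mem_range.1 hf)
    simp only [Bool.or_eq_true, Bool.and_eq_true, Nat.beq_eq] at h3
    rcases h3 with ⟨ha, hb⟩ | ⟨ha, hb⟩
    · rw [ha, hb] at hf'; exact hf'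
    · rw [ha, hb] at hf'; exact hf'.symm
  have key := core_check (c (g 16)) (c (g 21)) (hS (16, 21) (by decide)) (c (g 22))
    (hS (16, 22) (by decide)) (hS (21, 22) (by decide)) (c (g 23)) (hS (16, 23) (by decide))
    (hS (22, 23) (by decide)) (c (g 24)) (hS (16, 24) (by decide)) (hS (23, 24) (by decide))
    (hS (24, 21) (by decide)) (c (g 2)) (hS (2, 21) (by decide)) (c (g 17))
    (hS (2, 17) (by decide)) (hS (17, 21) (by decide)) (c (g 6)) (hS (6, 22) (by decide))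
    (hS (6, 17) (by decide)) (c (g 18)) (hS (6, 18) (by decide)) (hS (18, 22) (by decide))
    (c (g 10)) (hS (10, 23) (by decide)) (hS (10, 18) (by decide)) (c (g 19))
    (hS (10, 19) (by decide)) (hS (19, 23) (by decide)) (c (g 14)) (hS (14, 24) (by decide))
    (hS (14, 19) (by decide)) (c (g 20)) (hS (14, 20) (by decide)) (hS (20, 24) (by decide))
    (hS (2, 20) (by decide))
  obtain ⟨k1, k2, k3, k4⟩ := key
  refine ⟨k1, k2, ?_, ?_⟩
  · intro h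
    subst h
    have h1 := sw1_all
    rw [List.all_eq_true] at h1
    have h2 : ∀ p ∈ [(6, 21), (10, 22), (14, 23), (2, 24)], c (g p.1) = c (g p.2) →
        c (g p.1) = 2 := fun p hp h => hc.1 _ _ (hE _ _ (h1 p hp)) h
    exact k3 (h2 (6, 21) (by decide)) (h2 (10, 22) (by decide)) (h2 (14, 23) (by decide))
      (h2 (2, 24) (by decide))
  · intro h
    subst h
    have h1 := sw2_all
    rw [List.all_eq_true] at h1
    have h2 : ∀ p ∈ [(17, 22), (18, 23), (19, 24), (20, 21)], c (g p.1) = c (g p.2) →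
        c (g p.1) = 2 := fun p hp h => hc.1 _ _ (hE _ _ (h1 p hp)) h
    exact k4 (h2 (17, 22) (by decide)) (h2 (18, 23) (by decide)) (h2 (19, 24) (by decide))
      (h2 (20, 21) (by decide))

end Pool.Agent.H671R2.OOF
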