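import Pool.Agent.H671R2.OOF.Grid3
import Pool.Agent.H671R2.OOF.Sound

/-!
# Soundness of the grid
-/

set_option autoImplicit false

namespace Pool.Agent.H671R2.OOF

theorem grid_sound (n m : ℕ) (ty : ℕ → ℕ → ℕ) (hn : 0 < n) (hm : 2 ≤ m)
    (hty : ∀ i j, ty i j < 3) (c : Fin (n * m * 220 + 4 * m + 2) → Fin 3)
    (hc : Good (grid n m ty hn hm hty).graph c) :
    ∃ h v : ℕ → Fin 3, ∀ i < n, ∀ j < m,
      (ty i j = 1 → h i = v j) ∧ (ty i j = 2 → h i ≠ v j) := by
  let V := Fin (n * m * 220 + 4 * m + 2)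
  let w : ℕ → V := fun x => if h : x < n * m * 220 + 4 * m + 2 then ⟨x, h⟩ else ⟨0, by omega⟩
  have hw : ∀ x, x < n * m * 220 + 4 * m + 2 → ((w x : V) : ℕ) = x := by
    intro x hx
    simp only [w]
    rw [dif_pos hx]
  have tile : ∀ i < n, ∀ j < m,
      c (w (vt n m i j 2)) = c (w (vt n m i j 10)) ∧
      c (w (vt n m i j 6)) = c (w (vt n m i j 14)) ∧
      (ty i j = 1 → c (w (vt n m i j 6)) = c (w (vt n m i j 2))) ∧
      (ty i j = 2 → c (w (vt n m i j 6)) ≠ c (w (vt n m i j 2))) := by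
    intro i hi j hj
    have hlt : ∀ a < 229, vt n m i j a < n * m * 220 + 4 * m + 2 := fun a ha => by
      have := vt_lt hi hj ha
      omega
    refine tile_sound (grid n m ty hn hm hty).graph c hc (ty i j) (hty i j)
      (fun a => w (vt n m i j a)) ?_ ?_
    · intro a ha b hb hab
      have h1 := congrArg Fin.val hab
      rw [hw _ (hlt a ha), hw _ (hlt b hb)] at h1
      exact vt_inj hm hi hj ha hb h1
    · intro e he
      rw [grid_adj]
      refine ⟨Sum.inl (⟨i, hi⟩, ⟨j, hj⟩, ⟨e, he⟩), ?_, ?_⟩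
      · rw [hw _ (hlt _ (tl_lt (hty i j) he)), tn_tile]
      · rw [hw _ (hlt _ (hd_lt (hty i j) he)), tn_tile']
  have hv : ∀ j < m, ∀ i < n, c (w (vt n m i j 2)) = c (w (vt n m 0 j 2)) := by
    intro j hj i
    induction i with
    | zero => intro _; rfl
    | succ i ih =>
      intro hi
      rw [← ih (by omega), (tile i (by omega) j hj).1]
      rw [show (10 : ℕ) = 12 - 2 from rfl, vt_up (show 2 ≤ 4 by norm_num)]
  have hh : ∀ i < n, ∀ j < m, c (w (vt n m i j 14)) = c (w (vt n m i 0 14)) := by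
    intro i hi j
    induction j with
    | zero => intro _; rfl
    | succ j ih =>
      intro hj
      rw [← ih (by omega), ← (tile i hi j (by omega)).2.1]
      have h1 := vt_right (n := n) (m := m) (i := i) (j := j) (a := 6) (by norm_num) (by norm_num)
      rw [Nat.mod_eq_of_lt hj] at h1
      rw [← h1]
  refine ⟨fun i => c (w (vt n m i 0 14)), fun j => c (w (vt n m 0 j 2)), fun i hi j hj => ?_⟩
  obtain ⟨_, h2, h3, h4⟩ := tile i hi j hj
  rw [h2, hh i hi j hj, hv j hj i hi] at h3 h4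
  exact ⟨h3, h4⟩

end Pool.Agent.H671R2.OOF
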