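import Pool.Agent.H671R2.OOF.Facts

/-!
# The three tiles: facts in usable form
-/

set_option autoImplicit false

namespace Pool.Agent.H671R2.OOF

variable {τ e a : ℕ}

theorem chkE_of (hτ : τ < 3) (he : e < 1320) : chkE τ e = true :=
  (allb_iff _ _).1 ((allb_iff _ _).1 chkE_all τ hτ) e he

theorem chkB_of (hτ : τ < 3) (ha : a < 16) : chkB τ a = true :=
  (allb_iff _ _).1 ((allb_iff _ _).1 chkB_all τ hτ) a ha

theorem chkV_of (hτ : τ < 3) (ha : a < 229) : chkV τ a = true :=
  (allb_iff _ _).1 ((allb_iff _ _).1 chkV_all τ hτ) a ha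

theorem blt_iff (a b : ℕ) : Nat.blt a b = true ↔ a < b := by
  simp [Nat.blt, Nat.ble_eq]

theorem ph_lt (hτ : τ < 3) (he : e < 1320) : ph τ e < 1320 := by
  have := chkE_of hτ he
  simp only [chkE, Bool.and_eq_true, blt_iff] at this
  tauto

theorem ph3 (hτ : τ < 3) (he : e < 1320) : ph τ (ph τ (ph τ e)) = e := by
  have := chkE_of hτ he
  simp only [chkE, Bool.and_eq_true, blt_iff, Nat.beq_eq] at this
  tauto

theorem tl_lt (hτ : τ < 3) (he : e < 1320) : tl τ e < 229 := by
  have := chkE_of hτ he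
  simp only [chkE, Bool.and_eq_true, blt_iff, Nat.beq_eq] at this
  tauto

theorem hd_lt (hτ : τ < 3) (he : e < 1320) : hd τ e < 229 := tl_lt hτ (ph_lt hτ he)

theorem tl_ne (hτ : τ < 3) (he : e < 1320) : tl τ e ≠ hd τ e := by
  have := chkE_of hτ he
  simp only [chkE, Bool.and_eq_true, blt_iff, Bool.not_eq_true', Bool.eq_false_iff, ne_eq,
    Nat.beq_eq] at this
  tauto

theorem key_lt (hτ : τ < 3) (he : e + 1 < 1320) :
    256 * tl τ e + hd τ e < 256 * tl τ (e + 1) + hd τ (e + 1) := by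
  have := chkE_of hτ (show e < 1320 by omega)
  simp only [chkE, Bool.and_eq_true, Bool.or_eq_true, blt_iff, Nat.beq_eq] at this
  have h1 : e ≠ 1319 := by omega
  tauto

theorem key_strictMono (hτ : τ < 3) : ∀ d e e' : ℕ, e' = e + d + 1 → e' < 1320 →
    256 * tl τ e + hd τ e < 256 * tl τ e' + hd τ e' := by
  intro d
  induction d with
  | zero =>
    rintro e e' rfl h
    exact key_lt hτ h
  | succ d ih =>
    rintro e e' rfl h
    exact (ih e (e + d + 1) rfl (by omega)).trans (key_lt hτ (by omega))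

theorem dart_inj {e e' : ℕ} (hτ : τ < 3) (he : e < 1320) (he' : e' < 1320)
    (h1 : tl τ e = tl τ e') (h2 : hd τ e = hd τ e') : e = e' := by
  rcases lt_trichotomy e e' with h | h | h
  · have := key_strictMono hτ (e' - e - 1) e e' (by omega) he'
    rw [h1, h2] at this
    exact absurd this (lt_irrefl _)
  · exact h
  · have := key_strictMono hτ (e - e' - 1) e' e (by omega) he
    rw [h1, h2] at this
    exact absurd this (lt_irrefl _)

theorem rv_cases (hτ : τ < 3) (he : e < 1320) :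
    (rv τ e < 1320 ∧ rv τ (rv τ e) = e ∧ tl τ (rv τ e) = hd τ e ∧ hd τ (rv τ e) = tl τ e ∧
      (16 ≤ tl τ e ∨ 16 ≤ hd τ e)) ∨
    ∃ a < 16, rv τ e = 1320 + a ∧ bd τ a = e := by
  have h := chkE_of hτ he
  simp only [chkE, Bool.and_eq_true, Bool.or_eq_true, blt_iff, Nat.beq_eq] at h
  obtain ⟨⟨_, h⟩, _⟩ := h
  by_cases h1 : rv τ e < 1320
  · left
    have h2 : Nat.blt (rv τ e) 1320 = true := (blt_iff _ _).2 h1
    rw [h2, cond_true] at h
    simp only [Bool.and_eq_true, Bool.or_eq_true, Nat.beq_eq, Nat.ble_eq] at h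
    obtain ⟨⟨h3, h4⟩, h5⟩ := h
    refine ⟨h1, h3, h4, ?_, h5⟩
    have h6 := chkE_of hτ h1
    simp only [chkE, Bool.and_eq_true, Bool.or_eq_true, blt_iff, Nat.beq_eq] at h6
    obtain ⟨⟨_, h6⟩, _⟩ := h6
    have h7 : Nat.blt (rv τ (rv τ e)) 1320 = true := by rw [h3]; exact (blt_iff _ _).2 he
    rw [h7, cond_true] at h6
    simp only [Bool.and_eq_true, Bool.or_eq_true, Nat.beq_eq, Nat.ble_eq] at h6
    obtain ⟨⟨_, h8⟩, _⟩ := h6
    rw [← h8, h3]
  · right
    have h2 : Nat.blt (rv τ e) 1320 = false := by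
      rw [Bool.eq_false_iff, ne_eq, blt_iff]; exact h1
    rw [h2, cond_false] at h
    simp only [Bool.and_eq_true, Nat.beq_eq, blt_iff] at h
    exact ⟨rv τ e - 1320, by omega, by omega, h.2⟩

theorem bd_lt (hτ : τ < 3) (ha : a < 16) : bd τ a < 1320 := by
  have := chkB_of hτ ha
  simp only [chkB, Bool.and_eq_true, blt_iff, Nat.beq_eq] at this
  tauto

theorem tl_bd (hτ : τ < 3) (ha : a < 16) : tl τ (bd τ a) = a := by
  have := chkB_of hτ ha
  simp only [chkB, Bool.and_eq_true, blt_iff, Nat.beq_eq] at this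
  tauto

theorem hd_bd (hτ : τ < 3) (ha : a < 16) : hd τ (bd τ a) = (a + 1) % 16 := by
  have := chkB_of hτ ha
  simp only [chkB, Bool.and_eq_true, blt_iff, Nat.beq_eq] at this
  tauto

theorem st_lt (hτ : τ < 3) (ha : a < 229) : st τ a < 1320 := by
  have := chkV_of hτ ha
  simp only [chkV, Bool.and_eq_true, blt_iff, Nat.beq_eq] at this
  tauto

theorem tl_st (hτ : τ < 3) (ha : a < 229) : tl τ (st τ a) = a := by
  have := chkV_of hτ ha
  simp only [chkV, Bool.and_eq_true, blt_iff, Nat.beq_eq] at this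
  tauto

theorem ds_cases (hτ : τ < 3) (he : e < 1320) :
    e = bd τ 0 ∨ ds τ (ph τ e) < ds τ e ∨ ds τ (ph τ (ph τ e)) < ds τ e ∨
      (rv τ e < 1320 ∧ ds τ (rv τ e) < ds τ e) := by
  have := chkE_of hτ he
  simp only [chkE, Bool.and_eq_true, Bool.or_eq_true, blt_iff, Nat.beq_eq] at this
  tauto

/-- a directed edge between boundary vertices is a boundary edge -/
theorem eq_bd (hτ : τ < 3) (he : e < 1320) (h1 : tl τ e < 16) (h2 : hd τ e < 16) :
    ∃ a < 16, e = bd τ a := by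
  rcases rv_cases hτ he with ⟨_, _, _, _, h⟩ | ⟨a, ha, _, h⟩
  · omega
  · exact ⟨a, ha, h.symm⟩

/-! ### Positions of the vertices of a tile in the grid -/

/-- row offset -/
def di (a : ℕ) : ℕ := if 8 ≤ a ∧ a ≤ 12 then 1 else 0

/-- column offset -/
def dj (a : ℕ) : ℕ := if 4 ≤ a ∧ a ≤ 8 then 1 else 0

/-- position within the cell -/
def ky (a : ℕ) : ℕ :=
  if a < 4 then a else if a = 4 then 0 else if a < 8 then a - 1 else if a = 8 then 0
  else if a < 12 then 12 - a else if a = 12 then 0 else if a < 16 then 19 - a else a - 9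

theorem ky_pair {a b : ℕ} (ha : a < 16) (hb : b < 16) (h1 : ky a = ky b)
    (h2 : ky ((a + 1) % 16) = ky ((b + 1) % 16)) : a = b := by
  have h : ∀ a < 16, ∀ b < 16, ky a = ky b → ky ((a + 1) % 16) = ky ((b + 1) % 16) → a = b := by
    decide
  exact h a ha b hb h1 h2

theorem ky_big {a : ℕ} (ha : 16 ≤ a) : ky a = a - 9 := by
  unfold ky
  split_ifs <;> omega

theorem ky_small {a : ℕ} (ha : a < 16) : ky a < 7 := by
  have h : ∀ a < 16, ky a < 7 := by decide
  exact h a ha

theorem ky_lt {a : ℕ} (ha : a < 229) : ky a < 220 := by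
  unfold ky
  split_ifs <;> omega

theorem di_big {a : ℕ} (ha : 16 ≤ a) : di a = 0 := by
  unfold di
  split_ifs <;> omega

theorem dj_big {a : ℕ} (ha : 16 ≤ a) : dj a = 0 := by
  unfold dj
  split_ifs <;> omega

theorem dj_le (a : ℕ) : dj a ≤ 1 := by
  unfold dj
  split_ifs <;> omega

theorem di_le (a : ℕ) : di a ≤ 1 := by
  unfold di
  split_ifs <;> omega

theorem loc_inj {a b : ℕ} (h1 : di a = di b) (h2 : dj a = dj b) (h3 : ky a = ky b) : a = b := by
  unfold di at h1
  unfold dj at h2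
  unfold ky at h3
  split_ifs at h1 h2 h3 <;> omega

theorem ky_di {a : ℕ} (h : di a = 1) : ky a < 4 := by
  unfold di at h
  unfold ky
  split_ifs at h ⊢ <;> omega

end Pool.Agent.H671R2.OOF
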