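import Pool.Agent.H671R2.OOF.RedDefs
import Pool.Agent.H671R2.OOF.GridSound
import Pool.Agent.H671R2.OOF.Euler
import Pool.Agent.NPC.Sat2

/-!
# The reduction from 3-colourability: correctness
-/

set_option autoImplicit false

namespace Pool.Agent.H671R2.OOF

open Pool.Agent.NPC Pool.Agent.NPC.R671 Pool.Agent.H692R2

/-- instances of 3-colourability with small names -/
def PrB (E : List (ℕ × ℕ)) : Prop :=
  ∀ e ∈ E, e.1 ≠ e.2 ∧ e.1 < 2 * E.length ∧ e.2 < 2 * E.length

theorem length_satCol (φ : List (Lit ℕ × Lit ℕ × Lit ℕ)) :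
    (satCol φ).length = 3 + 19 * φ.length := by
  have h : ∀ l : List ((Lit ℕ × Lit ℕ × Lit ℕ) × ℕ), (l.flatMap (fun p =>
      varE p.1.1.2 ++ (varE p.1.2.1.2 ++ (varE p.1.2.2.2 ++ clauseE p.1 p.2)))).length =
        19 * l.length := by
    intro l
    induction l with
    | nil => rfl
    | cons a l ih =>
      rw [List.flatMap_cons, List.length_append, ih]
      simp [varE, clauseE]
      omega
  unfold satCol
  rw [List.length_append, h, List.length_zipIdx]
  rfl

theorem hardPr_colB : HardPr PrB (Col 3) := by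
  refine hardPr_SAT3b.trans satCol_poly ?_ (fun φ _ => satCol_correct φ)
  rintro φ ⟨_, hb, hne⟩ e he
  refine ⟨satCol_loopless φ e he, ?_⟩
  rw [length_satCol]
  have hlen : 0 < φ.length := List.length_pos_iff.2 hne
  unfold satCol at he
  rw [List.mem_append] at he
  rcases he with he | he
  · simp only [List.mem_cons, List.not_mem_nil, or_false] at he
    rcases he with rfl | rfl | rfl <;> simp only <;> omega
  · rw [List.mem_flatMap] at he
    obtain ⟨⟨d, k⟩, hd, he⟩ := he
    have hk : k < φ.length := by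
      have := List.mem_zipIdx hd
      omega
    have hd' : d ∈ φ := by
      have := List.mem_zipIdx hd
      rw [this.2.2]
      exact List.getElem_mem _
    obtain ⟨b1, b2, b3⟩ := hb d hd'
    have l1 : ∀ l : Lit ℕ, litv l ≤ 8 * l.2 + 2 := by
      intro l
      unfold litv
      split_ifs <;> omega
    have c1 := l1 d.1
    have c2 := l1 d.2.1
    have c3 := l1 d.2.2
    simp only [List.mem_append, varE, clauseE, List.mem_cons, List.not_mem_nil, or_false] at he
    rcases he with (rfl | rfl | rfl) | (rfl | rfl | rfl) | (rfl | rfl | rfl) |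
      (rfl | rfl | rfl | rfl | rfl | rfl | rfl | rfl | rfl | rfl) <;> simp only <;> omega

theorem gr_complete_aux (E : List (ℕ × ℕ)) (hE : PrB E) (h : Col 3 E) :
    ∃ h v : ℕ → Fin 3, ∀ i < rows E, ∀ j < colsN E,
      (tyE E i j = 1 → h i = v j) ∧ (tyE E i j = 2 → h i ≠ v j) := by
  obtain ⟨χ, hχ⟩ := h
  let h : ℕ → Fin 3 := fun i => if i < 2 * E.length then χ i else if i = 2 * E.length then 0 else 1
  have key : ∀ j, h (ed E j).1 ≠ h (ed E j).2 := by
    intro j
    unfold ed
    rw [List.getD_eq_getElem?_getD]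
    rcases Nat.lt_or_ge j E.length with hj | hj
    · rw [List.getElem?_eq_getElem hj, Option.getD_some]
      obtain ⟨_, h1, h2⟩ := hE _ (List.getElem_mem hj)
      simp only [h]
      rw [if_pos h1, if_pos h2]
      exact hχ _ (List.getElem_mem hj)
    · rw [List.getElem?_eq_none hj, Option.getD_none]
      simp [h]
  refine ⟨h, fun j => h (ed E j).1, fun i _ j _ => ⟨fun ht => ?_, fun ht => ?_⟩⟩
  · unfold tyE at ht
    by_cases c1 : i = (ed E j).1
    · rw [c1]
    · rw [if_neg c1] at ht
      split_ifs at ht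
      omega
  · unfold tyE at ht
    by_cases c1 : i = (ed E j).1
    · rw [if_pos c1] at ht
      omega
    · by_cases c2 : i = (ed E j).2
      · rw [c2]
        exact (key j).symm
      · rw [if_neg c1, if_neg c2] at ht
        omega

theorem gr_sound (E : List (ℕ × ℕ)) (hE : PrB E) (h : ∃ c, Good (redG E) c) : Col 3 E := by
  obtain ⟨c, hc⟩ := h
  obtain ⟨h, v, H⟩ := grid_sound _ _ _ _ _ _ c hc
  refine ⟨h, fun e he => ?_⟩
  obtain ⟨j, hj, rfl⟩ := List.getElem_of_mem he
  obtain ⟨h0, h1, h2⟩ := hE _ (List.getElem_mem hj)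
  have hed : ed E j = E[j] := by
    unfold ed
    rw [List.getD_eq_getElem?_getD, List.getElem?_eq_getElem hj, Option.getD_some]
  have hj' : j < colsN E := by unfold colsN; omega
  have a1 := (H E[j].1 (by unfold rows; omega) j hj').1 (by unfold tyE; rw [hed, if_pos rfl])
  have a2 := (H E[j].2 (by unfold rows; omega) j hj').2 (by
    unfold tyE
    rw [hed, if_neg (fun h => h0 h.symm), if_pos rfl])
  intro h3
  apply a2
  rw [← h3, a1]

theorem gr_maximalPlanar (E : List (ℕ × ℕ)) : MaximalPlanar (redG E) :=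
  TriSys.maximalPlanar _ (grid_card _ _)

end Pool.Agent.H671R2.OOF
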