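import Pool.Agent.H671R2.OOF.Grid3
import Pool.Agent.H692R2.Col
import Pool.Agent.H671R2.GraphEnc

/-!
# The reduction from 3-colourability: definitions
-/

set_option autoImplicit false

namespace Pool.Agent.H671R2.OOF

open Pool.Agent.NPC Pool.Agent.NPC.R671 Pool.Agent.H692R2

/-- number of rows -/
def rows (E : List (ℕ × ℕ)) : ℕ := 2 * E.length + 2

/-- number of columns -/
def colsN (E : List (ℕ × ℕ)) : ℕ := E.length + 3

/-- the edge of column `j` -/
def ed (E : List (ℕ × ℕ)) (j : ℕ) : ℕ × ℕ := E.getD j (2 * E.length, 2 * E.length + 1)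

/-- the type of the tile `(i, j)` -/
def tyE (E : List (ℕ × ℕ)) (i j : ℕ) : ℕ :=
  if i = (ed E j).1 then 1 else if i = (ed E j).2 then 2 else 0

theorem tyE_lt (E : List (ℕ × ℕ)) (i j : ℕ) : tyE E i j < 3 := by
  unfold tyE
  split_ifs <;> omega

/-- number of vertices -/
def vn (E : List (ℕ × ℕ)) : ℕ := rows E * colsN E * 220 + 4 * colsN E + 2

/-- the graph of the reduction -/
noncomputable def redG (E : List (ℕ × ℕ)) : SimpleGraph (Fin (vn E)) :=
  (grid (rows E) (colsN E) (tyE E) (by unfold rows; omega) (by unfold colsN; omega)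
    (tyE_lt E)).graph

/-- TASK R (file RedPoly.lean). -/
def TaskR : Prop := Poly (fun E : List (ℕ × ℕ) => adjMatrix (redG E))

/-- TASK C (file Complete.lean). -/
def TaskC : Prop :=
  ∀ (n m : ℕ) (ty : ℕ → ℕ → ℕ) (hn : 0 < n) (hm : 2 ≤ m) (hty : ∀ i j, ty i j < 3)
    (h v : ℕ → Fin 3),
    (∀ i < n, ∀ j < m, (ty i j = 1 → h i = v j) ∧ (ty i j = 2 → h i ≠ v j)) →
    ∃ c, Good (grid n m ty hn hm hty).graph c

end Pool.Agent.H671R2.OOF
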